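import Mathlib
import Pool.Agent.H391Z.BipA

/-! Self-complementary graphs on nine vertices have a Kuratowski minor. -/

namespace Pool.Agent.H391Z.Bip

open Pool.Agent.Helper805.CHS

/-- `σ` maps `H` to its complement -/
def Anti (H : SimpleGraph (Fin 9)) (σ : Fin 9 → Fin 9) : Prop :=
  ∀ u v, u ≠ v → (H.Adj (σ u) (σ v) ↔ ¬ H.Adj u v)

lemma Anti.iter {H : SimpleGraph (Fin 9)} {σ : Fin 9 → Fin 9} (h : Anti H σ)
    (hσ : Function.Injective σ) (n : ℕ) (u v : Fin 9) (huv : u ≠ v) :
    H.Adj (σ^[n] u) (σ^[n] v) ↔ (H.Adj u v ↔ n % 2 = 0) := by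
  induction n with
  | zero => simp
  | succ n ih =>
    rw [Function.iterate_succ_apply', Function.iterate_succ_apply',
      h _ _ fun e => huv (hσ.iterate n e), ih]
    have : (n + 1) % 2 = 0 ↔ ¬ n % 2 = 0 := by omega
    rw [this]
    tauto

lemma of_table (H : SimpleGraph (Fin 9)) (τ : Fin 9 → Fin 9) (hτ : Function.Injective τ)
    (h : Anti H τ) (o p k : ℕ) (L : List ℕ) (r s : ℕ → Fin 9)
    (hL : allGood o p 0 L = true ∧ L.length = 2 ^ k)
    (ht : ∀ i j : Fin 9, i ≠ j → oi o i j < k ∧ r (oi o i j) ≠ s (oi o i j) ∧ ∃ n : Fin 8,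
      (p.testBit (9 * i.val + j.val) = true ↔ ¬ n.val % 2 = 0) ∧
      ((τ^[n] (r (oi o i j)) = i ∧ τ^[n] (s (oi o i j)) = j) ∨
        (τ^[n] (r (oi o i j)) = j ∧ τ^[n] (s (oi o i j)) = i))) :
    K5Model H ∨ K33Model H := by
  classical
  let b : Fin k → Bool := fun t => decide (H.Adj (r t) (s t))
  obtain ⟨c, hc⟩ := allGood_spec o p L 0 hL.1 (Nat.ofBits b)
    (by rw [hL.2]; exact Nat.ofBits_lt_two_pow b)
  rw [zero_add] at hc
  refine model H _ (fun i j hij hA => ?_) c hc
  obtain ⟨h1, h2, n, h3, h4⟩ := ht i j hij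
  have h5 := h.iter hτ n _ _ h2
  rw [adjm, Nat.testBit_ofBits_lt _ _ h1] at hA
  have h6 : H.Adj (r (oi o i j)) (s (oi o i j)) ↔ n.val % 2 = 0 := by
    simp only [b] at hA
    by_cases a1 : H.Adj (r (oi o i j)) (s (oi o i j)) <;> by_cases a2 : n.val % 2 = 0 <;>
      simp_all
  rcases h4 with ⟨e1, e2⟩ | ⟨e1, e2⟩
  · rw [e1, e2] at h5
    exact h5.2 h6
  · rw [e1, e2] at h5
    exact (h5.2 h6).symm

/-- the eight-cycle -/
def τA : Fin 9 → Fin 9 := ![1, 2, 3, 4, 5, 6, 7, 0, 8]

/-- two four-cycles -/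
def τB : Fin 9 → Fin 9 := ![1, 2, 3, 0, 5, 6, 7, 4, 8]

lemma caseA (H : SimpleGraph (Fin 9)) (h : Anti H τA) : K5Model H ∨ K33Model H :=
  of_table H τA (by decide) h orbA parA 5 certA (fun _ => 0)
    (fun t => ([1, 2, 3, 4, 8] : List (Fin 9)).getD t 0) goodA (by decide +kernel)

lemma caseB (H : SimpleGraph (Fin 9)) (h : Anti H τB) : K5Model H ∨ K33Model H :=
  of_table H τB (by decide) h orbB parB 10 certB
    (fun t => ([0, 0, 0, 0, 0, 0, 0, 4, 4, 4] : List (Fin 9)).getD t 0)
    (fun t => ([1, 2, 4, 5, 6, 7, 8, 5, 6, 8] : List (Fin 9)).getD t 0) goodB (by decide +kernel)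

lemma extend (σ : Fin 9 → Fin 9) (hσ : Function.Injective σ) (g : Fin 8 → Fin 9)
    (hg : Function.Injective g) (τ : Fin 9 → Fin 9) (t : Fin 8 → Fin 8)
    (ht : Function.Surjective t) (h1 : ∀ i, τ i.castSucc = (t i).castSucc)
    (h2 : τ (Fin.last 8) = Fin.last 8) (h : ∀ i, σ (g i) = g (t i)) :
    ∃ f : Fin 9 → Fin 9, Function.Injective f ∧ ∀ i, f (τ i) = σ (f i) := by
  have hw : ∃ w, ∀ i, g i ≠ w := by
    by_contra hc
    push Not at hc
    have := Fintype.card_le_of_surjective g hc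
    simp at this
  obtain ⟨w, hw⟩ := hw
  have hf : Function.Injective (Fin.snoc g w : Fin 9 → Fin 9) :=
    Fin.snoc_injective_of_injective hg (by rintro ⟨i, hi⟩; exact hw i hi)
  refine ⟨Fin.snoc g w, hf, fun i => ?_⟩
  refine Fin.lastCases ?_ (fun i => ?_) i
  · rw [h2, Fin.snoc_last]
    obtain ⟨j, hj⟩ := Finite.injective_iff_surjective.1 hf (σ w)
    revert hj
    refine Fin.lastCases (fun hj => ?_) (fun j hj => ?_) j
    · rwa [Fin.snoc_last] at hj
    · rw [Fin.snoc_castSucc] at hj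
      obtain ⟨i, rfl⟩ := ht j
      rw [← h] at hj
      exact absurd (hσ hj) (hw i)
  · rw [h1, Fin.snoc_castSucc, Fin.snoc_castSucc, h]

lemma normal_form (H : SimpleGraph (Fin 9)) (σ : Fin 9 → Fin 9) (hσ : Function.Injective σ)
    (h : Anti H σ) : ∃ f : Fin 9 → Fin 9, Function.Injective f ∧
      ((∀ i, f (τA i) = σ (f i)) ∨ ∀ i, f (τB i) = σ (f i)) := by
  have odd1 : ∀ n u v, n % 2 = 1 → σ^[n] u = u → σ^[n] v = v → u = v := by
    intro n u v hn hu hv
    by_contra huv
    have := h.iter hσ n u v huv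
    rw [hu, hv] at this
    have h0 : ¬ n % 2 = 0 := by omega
    tauto
  have odd2 : ∀ n u, n % 2 = 1 → σ^[n] u = u → σ u = u := by
    intro n u hn hu
    refine odd1 n _ _ hn ?_ hu
    rw [← Function.iterate_succ_apply, Function.iterate_succ_apply', hu]
  have odd3 : ∀ n u, n % 2 = 1 → σ^[n + n] u = u → σ u = u := by
    intro n u hn hu
    refine odd2 n u hn ?_
    by_contra huv
    have := h.iter hσ n _ _ huv
    rw [← Function.iterate_add_apply, hu, H.adj_comm u] at this
    have h0 : ¬ n % 2 = 0 := by omega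
    tauto
  have per : ∀ u, σ u ≠ u → ∀ i j : ℕ, i < j → j ≤ i + 9 → σ^[i] u = σ^[j] u →
      (j = i + 4 ∧ σ^[4] u = u) ∨ (j = i + 8 ∧ σ^[8] u = u) := by
    intro u hu i j hij hj e
    obtain ⟨k, rfl⟩ := Nat.exists_eq_add_of_lt hij
    rw [add_assoc, Function.iterate_add_apply] at e
    have e2 := (hσ.iterate i e).symm
    have hk : k ≤ 8 := by omega
    interval_cases k
    · exact absurd e2 hu
    · exact absurd (odd3 1 u rfl e2) hu
    · exact absurd (odd2 3 u rfl e2) hu
    · exact Or.inl ⟨rfl, e2⟩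
    · exact absurd (odd2 5 u rfl e2) hu
    · exact absurd (odd3 3 u rfl e2) hu
    · exact absurd (odd2 7 u rfl e2) hu
    · exact Or.inr ⟨rfl, e2⟩
    · exact absurd (odd2 9 u rfl e2) hu
  by_cases hA : ∃ u, σ^[4] u ≠ u
  · obtain ⟨u, hu⟩ := hA
    have hu1 : σ u ≠ u := fun e => hu (Function.iterate_fixed e 4)
    have h8 : σ^[8] u = u := by
      obtain ⟨i, j, hij, e⟩ := Fintype.exists_ne_map_eq_of_card_lt
        (fun i : Fin 10 => σ^[i] u) (by simp)
      rcases lt_or_gt_of_ne hij with a | a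
      · rcases per u hu1 i j a (by omega) e with b | b
        · exact absurd b.2 hu
        · exact b.2
      · rcases per u hu1 j i a (by omega) e.symm with b | b
        · exact absurd b.2 hu
        · exact b.2
    obtain ⟨f, hf, hf2⟩ := extend σ hσ (fun i : Fin 8 => σ^[i] u) (by
      intro i j e
      rcases lt_trichotomy i j with a | a | a
      · rcases per u hu1 i j a (by omega) e with b | b
        · exact absurd b.2 hu
        · omega
      · exact a
      · rcases per u hu1 j i a (by omega) e.symm with b | b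
        · exact absurd b.2 hu
        · omega) τA ![1, 2, 3, 4, 5, 6, 7, 0] (by decide) (by decide) (by decide) (by
      intro i
      rw [← Function.iterate_succ_apply' σ]
      fin_cases i <;> first | rfl | exact h8)
    exact ⟨f, hf, Or.inl hf2⟩
  · push Not at hA
    have hinj : ∀ u, σ u ≠ u → Function.Injective fun i : Fin 4 => σ^[i] u := by
      intro u hu i j e
      rcases lt_trichotomy i j with a | a | a
      · rcases per u hu i j a (by omega) e with b | b <;> omega
      · exact a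
      · rcases per u hu j i a (by omega) e.symm with b | b <;> omega
    have hex : ∀ s : Finset (Fin 9), s.card ≤ 4 → ∃ v, v ∉ s ∧ σ v ≠ v := by
      intro s hs
      have h1 : 1 < sᶜ.card := by rw [Finset.card_compl]; simp; omega
      obtain ⟨a, ha, b, hb, hab⟩ := Finset.one_lt_card.1 h1
      by_cases e : σ a = a
      · exact ⟨b, Finset.mem_compl.1 hb, fun e' => hab (odd1 1 a b rfl e e')⟩
      · exact ⟨a, Finset.mem_compl.1 ha, e⟩
    obtain ⟨u, -, hu⟩ := hex ∅ (by simp)
    obtain ⟨v, hv0, hv⟩ := hex (Finset.univ.image fun i : Fin 4 => σ^[i] u)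
      (Finset.card_image_le.trans (by simp))
    have hne : ∀ i j : Fin 4, σ^[i] u ≠ σ^[j] v := by
      intro i j e
      apply hv0
      have e2 : σ^[4 - j + i] u = v := by
        rw [Function.iterate_add_apply, e, ← Function.iterate_add_apply,
          Nat.sub_add_cancel j.2.le, hA]
      refine Finset.mem_image.2 ⟨⟨(4 - j + i) % 4, Nat.mod_lt _ (by norm_num)⟩,
        Finset.mem_univ _, ?_⟩
      rw [← e2]
      exact Function.IsPeriodicPt.iterate_mod_apply (hA u) _
    let g : Fin (4 + 4) → Fin 9 := Fin.append (fun i : Fin 4 => σ^[i] u) fun i : Fin 4 => σ^[i] v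
    obtain ⟨f, hf, hf2⟩ := extend σ hσ g
      (Fin.append_injective_iff.2 ⟨hinj u hu, hinj v hv, hne⟩)
      τB ![1, 2, 3, 0, 5, 6, 7, 4] (by decide) (by decide) (by decide) (by
      intro i
      fin_cases i <;> first | rfl | exact hA u | exact hA v)
    exact ⟨f, hf, Or.inr hf2⟩

theorem exists_model (H : SimpleGraph (Fin 9)) (σ : Fin 9 → Fin 9) (hσ : Function.Injective σ)
    (h : Anti H σ) : ∃ f : Fin 9 → Fin 9, Function.Injective f ∧
      (K5Model (H.comap f) ∨ K33Model (H.comap f)) := by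
  obtain ⟨f, hf, h1 | h1⟩ := normal_form H σ hσ h
  · refine ⟨f, hf, caseA _ fun u v huv => ?_⟩
    rw [SimpleGraph.comap_adj, SimpleGraph.comap_adj, h1, h1]
    exact h _ _ (hf.ne huv)
  · refine ⟨f, hf, caseB _ fun u v huv => ?_⟩
    rw [SimpleGraph.comap_adj, SimpleGraph.comap_adj, h1, h1]
    exact h _ _ (hf.ne huv)

end Pool.Agent.H391Z.Bip
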