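import Mathlib
import Pool.Agent.H391Z.BipB
import Pool.Agent.Helper805.CHS.Drawn

/-! A biplanar drawing of the complete graph on nine vertices with one crossing. -/

namespace Pool.Agent.H391Z.Bip

open Pool.Agent.Helper805.CHS

/-- the crossings of a biplanar drawing, each counted with its eight descriptions -/
def Cr {V : Type} (G : SimpleGraph V) (c : V → V → Fin 2) (γ : Fin 2 → V → V → ℝ → ℂ) :
    Set (Fin 2 × V × V × V × V × ℂ) :=
  {x : Fin 2 × V × V × V × V × ℂ |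
    G.Adj x.2.1 x.2.2.1 ∧ G.Adj x.2.2.2.1 x.2.2.2.2.1 ∧
    c x.2.1 x.2.2.1 = x.1 ∧ c x.2.2.2.1 x.2.2.2.2.1 = x.1 ∧
    ¬ (x.2.1 = x.2.2.2.1 ∧ x.2.2.1 = x.2.2.2.2.1) ∧
    ¬ (x.2.1 = x.2.2.2.2.1 ∧ x.2.2.1 = x.2.2.2.1) ∧
    (∃ t : ℝ, 0 < t ∧ t < 1 ∧ γ x.1 x.2.1 x.2.2.1 t = x.2.2.2.2.2) ∧
    (∃ t : ℝ, 0 < t ∧ t < 1 ∧ γ x.1 x.2.2.2.1 x.2.2.2.2.1 t = x.2.2.2.2.2)}

/-- a biplanar drawing -/
def Dr {V : Type} (G : SimpleGraph V) (c : V → V → Fin 2) (p : Fin 2 → V → ℂ)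
    (γ : Fin 2 → V → V → ℝ → ℂ) : Prop :=
  (∀ u v : V, G.Adj u v → c u v = c v u) ∧
    (∀ i : Fin 2, Function.Injective (p i)) ∧
    (∀ i : Fin 2, ∀ u v : V, G.Adj u v → c u v = i →
      ContinuousOn (γ i u v) (Set.Icc (0:ℝ) 1) ∧
      Set.InjOn (γ i u v) (Set.Icc (0:ℝ) 1) ∧
      γ i u v 0 = p i u ∧ γ i u v 1 = p i v ∧
      (∀ t : ℝ, 0 ≤ t → t ≤ 1 → γ i v u t = γ i u v (1 - t)) ∧
      ∀ t : ℝ, 0 < t → t < 1 → ∀ w : V, γ i u v t ≠ p i w) ∧
    Set.Finite (Cr G c γ)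

/-- first coordinates -/
def XC : Fin 2 → Fin 9 → ℤ :=
  ![![0, 30, 15, 26, 4, 27, 7, 23, 15], ![3, 21, 13, 23, 22, 9, 7, 22, 12]]

/-- second coordinates -/
def YC : Fin 2 → Fin 9 → ℤ :=
  ![![0, 1, 30, 4, 2, 3, 3, 6, 29], ![8, 9, 14, 13, 28, 11, 6, 25, 21]]

/-- the plane of an edge -/
def cc (u v : Fin 9) : Fin 2 :=
  if Nat.testBit 231589856123320044388840 (9 * u.val + v.val) = true then 1 else 0

/-- orientation determinant -/
def ori (i : Fin 2) (a b w : Fin 9) : ℤ :=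
  (XC i b - XC i a) * (YC i w - YC i a) - (YC i b - YC i a) * (XC i w - XC i a)

/-- the segment `uv` lies on one side of the line `wx` -/
def Sep (i : Fin 2) (u v w x : Fin 9) : Prop :=
  (0 ≤ ori i w x u ∧ 0 ≤ ori i w x v ∧ 0 < ori i w x u + ori i w x v) ∨
    (ori i w x u ≤ 0 ∧ ori i w x v ≤ 0 ∧ ori i w x u + ori i w x v < 0)

instance (i : Fin 2) (u v w x : Fin 9) : Decidable (Sep i u v w x) := by
  unfold Sep; infer_instance

/-- the eight descriptions of the crossing -/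
def F8 : Finset (Fin 2 × Fin 9 × Fin 9 × Fin 9 × Fin 9) :=
  {(1, 0, 7, 5, 8), (1, 7, 0, 5, 8), (1, 0, 7, 8, 5), (1, 7, 0, 8, 5),
    (1, 5, 8, 0, 7), (1, 5, 8, 7, 0), (1, 8, 5, 0, 7), (1, 8, 5, 7, 0)}

lemma D0 : ∀ u v, cc u v = cc v u := by decide +kernel

lemma D1 : ∀ i u v, XC i u = XC i v → YC i u = YC i v → u = v := by decide +kernel

lemma D2 : ∀ i u v w, u ≠ v → w ≠ u → w ≠ v → ori i u v w ≠ 0 := by decide +kernel

lemma D3 : ∀ i u v, u ≠ v → cc u v = i → ∀ w x, w ≠ x → cc w x = i → ¬ (u = w ∧ v = x) →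
    ¬ (u = x ∧ v = w) → Sep i u v w x ∨ Sep i w x u v ∨ (i, u, v, w, x) ∈ F8 := by
  decide +kernel

/-- vertex positions -/
def pp (i : Fin 2) (v : Fin 9) : ℂ := ⟨XC i v, YC i v⟩

/-- straight edges -/
noncomputable def gg (i : Fin 2) (u v : Fin 9) (t : ℝ) : ℂ :=
  ((1 - t : ℝ) : ℂ) * pp i u + (t : ℂ) * pp i v

/-- equation of the line `ab` -/
def LL (i : Fin 2) (a b : Fin 9) (z : ℂ) : ℝ :=
  ((XC i b : ℝ) - XC i a) * (z.im - YC i a) - ((YC i b : ℝ) - YC i a) * (z.re - XC i a)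

lemma LL_gg (i : Fin 2) (a b u v : Fin 9) (t : ℝ) :
    LL i a b (gg i u v t) = (1 - t) * ori i a b u + t * ori i a b v := by
  simp only [LL, gg, pp, ori, Complex.add_re, Complex.add_im, Complex.mul_re, Complex.mul_im,
    Complex.ofReal_re, Complex.ofReal_im]
  push_cast
  ring

lemma LL_self (i : Fin 2) (a b : Fin 9) (t : ℝ) : LL i a b (gg i a b t) = 0 := by
  rw [LL_gg]
  simp only [ori]
  push_cast
  ring

lemma LL_pp (i : Fin 2) (a b w : Fin 9) : LL i a b (pp i w) = ori i a b w := by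
  simp only [LL, pp, ori]
  push_cast
  ring

lemma pp_inj (i : Fin 2) : Function.Injective (pp i) := by
  intro u v h
  have h1 := congrArg Complex.re h
  have h2 := congrArg Complex.im h
  simp only [pp] at h1 h2
  exact D1 i u v (by exact_mod_cast h1) (by exact_mod_cast h2)

lemma gg_inj (i : Fin 2) (u v : Fin 9) (h : u ≠ v) : Function.Injective (gg i u v) := by
  intro s t e
  have h1 : ((s : ℂ) - t) * (pp i v - pp i u) = 0 := by
    unfold gg at e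
    push_cast at e
    linear_combination e
  rcases mul_eq_zero.1 h1 with h2 | h2
  · exact_mod_cast sub_eq_zero.1 h2
  · exact absurd (pp_inj i (sub_eq_zero.1 h2)).symm h

lemma Sep.ne {i : Fin 2} {u v w x : Fin 9} (h : Sep i u v w x) {t : ℝ} (h0 : 0 < t) (h1 : t < 1)
    (s : ℝ) : gg i u v t ≠ gg i w x s := by
  intro e
  have h2 := LL_gg i w x u v t
  rw [e, LL_self] at h2
  have h3 : 0 < 1 - t := by linarith
  rcases h with ⟨a, b, c⟩ | ⟨a, b, c⟩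
  · have a : (0 : ℝ) ≤ ori i w x u := by exact_mod_cast a
    have b : (0 : ℝ) ≤ ori i w x v := by exact_mod_cast b
    have c : (0 : ℝ) < ori i w x u + ori i w x v := by exact_mod_cast c
    have a' := mul_nonneg h3.le a
    have b' := mul_nonneg h0.le b
    have a2 : (ori i w x u : ℝ) = 0 := (mul_eq_zero.1 (by linarith)).resolve_left h3.ne'
    have b2 : (ori i w x v : ℝ) = 0 := (mul_eq_zero.1 (by linarith)).resolve_left h0.ne'
    linarith
  · have a : (ori i w x u : ℝ) ≤ 0 := by exact_mod_cast a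
    have b : (ori i w x v : ℝ) ≤ 0 := by exact_mod_cast b
    have c : (ori i w x u : ℝ) + ori i w x v < 0 := by exact_mod_cast c
    have a' := mul_nonpos_of_nonneg_of_nonpos h3.le a
    have b' := mul_nonpos_of_nonneg_of_nonpos h0.le b
    have a2 : (ori i w x u : ℝ) = 0 := (mul_eq_zero.1 (by linarith)).resolve_left h3.ne'
    have b2 : (ori i w x v : ℝ) = 0 := (mul_eq_zero.1 (by linarith)).resolve_left h0.ne'
    linarith

lemma Cr_sub : Cr ⊤ cc gg ⊆ ↑(F8.image fun q =>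
    (q.1, q.2.1, q.2.2.1, q.2.2.2.1, q.2.2.2.2, (⟨1386 / 139, 1979 / 139⟩ : ℂ))) := by
  rintro ⟨i, u, v, w, x, z⟩ ⟨h1, h2, h3, h4, h5, h6, ⟨t, t0, t1, ht⟩, ⟨s, s0, s1, hs⟩⟩
  simp only [SimpleGraph.top_adj] at h1 h2 h3 h4 h5 h6 ht hs
  rcases D3 i u v h1 h3 w x h2 h4 h5 h6 with h | h | h
  · exact absurd (ht.trans hs.symm) (h.ne t0 t1 s)
  · exact absurd (hs.trans ht.symm) (h.ne s0 s1 t)
  · rw [Finset.mem_coe, Finset.mem_image]
    refine ⟨_, h, ?_⟩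
    have a1 := LL_self i u v t
    have a2 := LL_self i w x s
    rw [ht] at a1
    rw [hs] at a2
    have : (⟨1386 / 139, 1979 / 139⟩ : ℂ) = z := by
      simp only [F8, Finset.mem_insert, Finset.mem_singleton, Prod.mk.injEq] at h
      rcases h with h | h | h | h | h | h | h | h <;>
      · obtain ⟨rfl, rfl, rfl, rfl, rfl⟩ := h
        simp [LL, XC, YC] at a1 a2
        apply Complex.ext <;> simp only <;> linarith
    rw [this]

lemma drawing : Dr ⊤ cc pp gg ∧ (Cr ⊤ cc gg).ncard ≤ 8 := by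
  refine ⟨⟨fun u v _ => D0 u v, pp_inj, fun i u v huv _ => ⟨?_, ?_, ?_, ?_, ?_, ?_⟩,
    (Finset.finite_toSet _).subset Cr_sub⟩, ?_⟩
  · unfold gg; fun_prop
  · exact (gg_inj i u v huv.ne).injOn
  · simp [gg]
  · simp [gg]
  · intro t _ _
    unfold gg
    push_cast
    ring
  · intro t t0 t1 w e
    by_cases h1 : w = u
    · have : gg i u v t = gg i u v 0 := by rw [e, h1]; simp [gg]
      exact t0.ne' (gg_inj i u v huv.ne this)
    by_cases h2 : w = v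
    · have : gg i u v t = gg i u v 1 := by rw [e, h2]; simp [gg]
      exact t1.ne (gg_inj i u v huv.ne this)
    have h3 := LL_self i u v t
    rw [e, LL_pp] at h3
    exact D2 i u v w huv.ne h1 h2 (by exact_mod_cast h3)
  · refine (Set.ncard_le_ncard Cr_sub (Finset.finite_toSet _)).trans ?_
    rw [Set.ncard_coe_finset]
    exact Finset.card_image_le.trans (by decide)

lemma exists_cross (c : Fin 9 → Fin 9 → Fin 2) (p : Fin 2 → Fin 9 → ℂ)
    (γ : Fin 2 → Fin 9 → Fin 9 → ℝ → ℂ) (h : Dr ⊤ c p γ) (σ : Fin 9 → Fin 9)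
    (hσ : Function.Injective σ) (hc : ∀ u v, u ≠ v → c (σ u) (σ v) ≠ c u v) (i : Fin 2) :
    ∃ u v w x z, u ≠ w ∧ u ≠ x ∧ v ≠ w ∧ v ≠ x ∧ (i, u, v, w, x, z) ∈ Cr ⊤ c γ := by
  by_contra hno
  obtain ⟨h1, h2, h3, -⟩ := h
  let H : SimpleGraph (Fin 9) :=
    { Adj := fun u v => u ≠ v ∧ c u v = i
      symm := ⟨fun u v huv => ⟨huv.1.symm, (h1 v u huv.1.symm).trans huv.2⟩⟩
      loopless := ⟨fun u hu => hu.1 rfl⟩ }
  have hA : Anti H σ := by
    intro u v huv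
    have a := hc u v huv
    have b := hσ.ne huv
    simp only [H, ne_eq, b, huv, not_false_eq_true, true_and]
    exact (by decide : ∀ i k l : Fin 2, k ≠ l → (k = i ↔ ¬ l = i)) i _ _ a
  obtain ⟨f, hf, hm⟩ := exists_model H σ hσ hA
  have tri : ∀ t : unitInterval, (t : ℝ) = 0 ∨ (t : ℝ) = 1 ∨ (0 < (t : ℝ) ∧ (t : ℝ) < 1) := by
    intro t
    rcases t.2.1.lt_or_eq with h0 | h0
    · rcases t.2.2.lt_or_eq with h3 | h3
      · exact Or.inr (Or.inr ⟨h0, h3⟩)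
      · exact Or.inr (Or.inl h3)
    · exact Or.inl h0.symm
  have hD : IsDrawing (H.comap f) (fun v => p i (f v)) (fun u v t => γ i (f u) (f v) t) := by
    refine ⟨(h2 i).comp hf, fun u v huv => ?_, fun u v huv => ?_, fun u v huv => ?_,
      fun u v huv z t e => ?_, fun u v w x huv hwx a1 a2 a3 a4 t s e => ?_⟩
    · exact (h3 i _ _ huv.1 huv.2).1.restrict
    · exact (h3 i _ _ huv.1 huv.2).2.2.1
    · exact (h3 i _ _ huv.1 huv.2).2.2.2.1
    · obtain ⟨-, -, b1, b2, -, b3⟩ := h3 i _ _ huv.1 huv.2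
      rcases tri t with b | b | b
      · rw [b, b1] at e
        exact Or.inl (hf (h2 i e)).symm
      · rw [b, b2] at e
        exact Or.inr (hf (h2 i e)).symm
      · exact absurd e (b3 t b.1 b.2 _)
    · obtain ⟨-, -, b1, b2, -, b3⟩ := h3 i _ _ huv.1 huv.2
      obtain ⟨-, -, c1, c2, -, -⟩ := h3 i _ _ hwx.1 hwx.2
      rcases tri t with b | b | b
      · exact Or.inl (by rw [b, b1])
      · exact Or.inr (by rw [b, b2])
      · rcases tri s with d | d | d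
        · rw [d, c1] at e
          exact absurd e (b3 t b.1 b.2 _)
        · rw [d, c2] at e
          exact absurd e (b3 t b.1 b.2 _)
        · refine absurd ⟨f u, f v, f w, f x, γ i (f u) (f v) t, hf.ne a1, hf.ne a2, hf.ne a3,
            hf.ne a4, huv.1, hwx.1, huv.2, hwx.2, fun e => hf.ne a1 e.1, fun e => hf.ne a2 e.1,
            ⟨t, b.1, b.2, rfl⟩, ⟨s, d.1, d.2, e.symm⟩⟩ hno
  rcases hm with hm | hm
  · exact no_K5Model hD hm
  · exact no_K33Model hD hm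

lemma Cr_swap1 {c : Fin 9 → Fin 9 → Fin 2} {p : Fin 2 → Fin 9 → ℂ}
    {γ : Fin 2 → Fin 9 → Fin 9 → ℝ → ℂ} (h : Dr ⊤ c p γ) {i : Fin 2} {u v w x : Fin 9} {z : ℂ}
    (hm : (i, u, v, w, x, z) ∈ Cr ⊤ c γ) : (i, v, u, w, x, z) ∈ Cr ⊤ c γ := by
  obtain ⟨h1, h2, h3, h4, h5, h6, ⟨t, t0, t1, ht⟩, h8⟩ := hm
  refine ⟨h1.symm, h2, (h.1 _ _ h1.symm).trans h3, h4, fun e => h6 ⟨e.2, e.1⟩,
    fun e => h5 ⟨e.2, e.1⟩, ⟨1 - t, by linarith, by linarith, ?_⟩, h8⟩
  have := (h.2.2.1 i u v h1 h3).2.2.2.2.1 (1 - t) (by linarith) (by linarith)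
  simp only at ht ⊢
  rw [this, sub_sub_cancel, ht]

lemma Cr_swap2 {c : Fin 9 → Fin 9 → Fin 2}
    {γ : Fin 2 → Fin 9 → Fin 9 → ℝ → ℂ} {i : Fin 2} {u v w x : Fin 9} {z : ℂ}
    (hm : (i, u, v, w, x, z) ∈ Cr ⊤ c γ) : (i, w, x, u, v, z) ∈ Cr ⊤ c γ := by
  obtain ⟨h1, h2, h3, h4, h5, h6, h7, h8⟩ := hm
  exact ⟨h2, h1, h4, h3, fun e => h5 ⟨e.1.symm, e.2.symm⟩, fun e => h6 ⟨e.2.symm, e.1.symm⟩, h8, h7⟩

theorem main (c : Fin 9 → Fin 9 → Fin 2) (p : Fin 2 → Fin 9 → ℂ)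
    (γ : Fin 2 → Fin 9 → Fin 9 → ℝ → ℂ) (h : Dr ⊤ c p γ)
    (hiso : Nonempty (SimpleGraph.fromRel (fun u v => (⊤ : SimpleGraph (Fin 9)).Adj u v ∧ c u v = 0) ≃g
      SimpleGraph.fromRel (fun u v => (⊤ : SimpleGraph (Fin 9)).Adj u v ∧ c u v = 1))) :
    8 < (Cr ⊤ c γ).ncard := by
  obtain ⟨φ⟩ := hiso
  have hc : ∀ u v, u ≠ v → c (φ u) (φ v) ≠ c u v := by
    intro u v huv
    have a := φ.map_adj_iff (v := u) (w := v)
    have b : φ u ≠ φ v := φ.injective.ne huv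
    have e1 := h.1 u v huv
    have e2 := h.1 _ _ b
    simp only [SimpleGraph.fromRel_adj, SimpleGraph.top_adj, ne_eq, b, huv, b.symm, huv.symm,
      not_false_eq_true, true_and, ← e1, ← e2, or_self] at a
    revert a
    generalize c (φ u) (φ v) = k
    generalize c u v = l
    revert k l
    decide
  obtain ⟨u, v, w, x, z, a1, a2, a3, a4, m1⟩ := exists_cross c p γ h φ φ.injective hc 0
  obtain ⟨u', v', w', x', z', -, -, -, -, m0⟩ := exists_cross c p γ h φ φ.injective hc 1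
  have a5 : u ≠ v := m1.1
  have a6 : w ≠ x := m1.2.1
  have m2 := Cr_swap1 h m1
  have m3 := Cr_swap2 m1
  have m4 := Cr_swap2 m2
  have m5 := Cr_swap1 h m3
  have m6 := Cr_swap1 h m4
  have m7 := Cr_swap2 m5
  have m8 := Cr_swap2 m6
  classical
  let S : Finset (Fin 2 × Fin 9 × Fin 9 × Fin 9 × Fin 9 × ℂ) :=
    {(1, u', v', w', x', z'), (0, u, v, w, x, z), (0, v, u, w, x, z), (0, w, x, u, v, z),
      (0, w, x, v, u, z), (0, x, w, u, v, z), (0, x, w, v, u, z), (0, u, v, x, w, z),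
      (0, v, u, x, w, z)}
  have hS : (S : Set _) ⊆ Cr ⊤ c γ := by
    intro q hq
    simp only [S, Finset.coe_insert, Finset.coe_singleton, Set.mem_insert_iff,
      Set.mem_singleton_iff] at hq
    rcases hq with rfl | rfl | rfl | rfl | rfl | rfl | rfl | rfl | rfl <;> assumption
  have hcard : S.card = 9 := by
    simp [S, a1, a2, a3, a4, a5, a6, a1.symm, a2.symm, a3.symm, a4.symm, a5.symm, a6.symm]
  have := Set.ncard_le_ncard hS h.2.2.2
  rw [Set.ncard_coe_finset, hcard] at this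
  omega

lemma even_edges : Even (Set.ncard (⊤ : SimpleGraph (Fin 9)).edgeSet) := by
  rw [← SimpleGraph.coe_edgeFinset, Set.ncard_coe_finset,
    SimpleGraph.card_edgeFinset_top_eq_card_choose_two]
  decide

end Pool.Agent.H391Z.Bip
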