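import Mathlib

set_option autoImplicit false
open Filter Topology

namespace Pool.Agent.H391Z.Cut

/-- The Poisson weight `e^{-s} s^m / m!`. -/
noncomputable def pois (s : ℝ) (m : ℕ) : ℝ := Real.exp (-s) * s ^ m / (m.factorial : ℝ)

/-- The Shannon entropy of the Poisson distribution with mean `s`. -/
noncomputable def poisEntropy (s : ℝ) : ℝ := ∑' m, Real.negMulLog (pois s m)

/-- `t` is the entropic time `t_0(k, N)`. -/
def IsEntropicTime (k N : ℕ) (t : ℝ) : Prop :=
  0 ≤ t ∧ poisEntropy (t / k) = Real.log N / k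

/-- The probability that the discrete walk with generators `Z` is at `g` after `m` steps. -/
noncomputable def stepLaw {G : Type} [Group G] {k : ℕ} (Z : Fin k → G) (m : ℕ) (g : G) : ℝ :=
  (Nat.card {i : Fin m → Fin k // (List.ofFn fun j => Z (i j)).prod = g} : ℝ) / (k : ℝ) ^ m

/-- The probability that the rate-one continuous-time walk is at `g` at time `t`. -/
noncomputable def law {G : Type} [Group G] {k : ℕ} (Z : Fin k → G) (t : ℝ) (g : G) : ℝ :=
  ∑' m, pois t m * stepLaw Z m g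

/-- Total variation distance to the uniform distribution at time `t`. -/
noncomputable def tvDist {G : Type} [Group G] [Fintype G] {k : ℕ} (Z : Fin k → G) (t : ℝ) : ℝ :=
  (1 / 2) * ∑ g, |law Z t g - 1 / (Fintype.card G : ℝ)|

/-- The probability of an event for `k` independent uniform elements of `G`. -/
noncomputable def probZ (G : Type) [Fintype G] (k : ℕ) (P : (Fin k → G) → Prop) : ℝ :=
  (Nat.card {Z : Fin k → G // P Z} : ℝ) / (Fintype.card G : ℝ) ^ k

/-- Cutoff with high probability at the times `t n`. -/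
def CutoffWhp (G : ℕ → Type) [∀ n, Group (G n)] [∀ n, Fintype (G n)] (k : ℕ → ℕ)
    (t : ℕ → ℝ) : Prop :=
  ∀ ε : ℝ, 0 < ε → ε < 1 →
    (∀ δ : ℝ, 0 < δ → Tendsto (fun n => probZ (G n) (k n)
      fun Z => δ < |tvDist Z ((1 + ε) * t n) - 0|) atTop (𝓝 0)) ∧
    (∀ δ : ℝ, 0 < δ → Tendsto (fun n => probZ (G n) (k n)
      fun Z => δ < |tvDist Z ((1 - ε) * t n) - 1|) atTop (𝓝 0))

lemma pois_nonneg {s : ℝ} (hs : 0 ≤ s) (m : ℕ) : 0 ≤ pois s m := by
  unfold pois; positivity

lemma hasSum_pois {s : ℝ} (hs : 0 ≤ s) : HasSum (pois s) 1 :=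
  ProbabilityTheory.hasSum_one_poissonMeasure ⟨s, hs⟩

lemma pois_succ (s : ℝ) (m : ℕ) : ((m : ℝ) + 1) * pois s (m + 1) = s * pois s m := by
  unfold pois
  rw [Nat.factorial_succ]
  push_cast
  have : (m.factorial : ℝ) ≠ 0 := by positivity
  field_simp
  ring

lemma hasSum_mul_pois {s : ℝ} (hs : 0 ≤ s) : HasSum (fun m : ℕ => (m : ℝ) * pois s m) s := by
  rw [← hasSum_nat_add_iff' 1]
  simp only [Finset.range_one, Finset.sum_singleton, Nat.cast_zero, zero_mul, sub_zero]
  have := (hasSum_pois hs).mul_left s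
  rw [mul_one] at this
  have e : (fun m : ℕ => ((m + 1 : ℕ) : ℝ) * pois s (m + 1)) = fun m => s * pois s m := by
    funext m
    push_cast
    exact pois_succ s m
  rw [e]
  exact this

lemma pois_pair {s : ℝ} (hs : 0 ≤ s) (m : ℕ) : pois s m + pois s (m + 1) ≤ 1 := by
  have := sum_le_hasSum {m, m + 1} (fun i _ => pois_nonneg hs i) (hasSum_pois hs)
  rwa [Finset.sum_pair (by omega)] at this

lemma pois_le {s : ℝ} (hs : 1 ≤ s) (m : ℕ) : pois s m ≤ 2 / 3 := by
  have h0 : 0 ≤ s := by linarith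
  by_cases h : ((m : ℝ) + 1) ≤ 2 * s
  · have h1 := pois_succ s m
    have h2 := pois_pair h0 m
    have h3 := pois_nonneg h0 m
    have h4 := pois_nonneg h0 (m + 1)
    have h5 : s * pois s m ≤ 2 * s * pois s (m + 1) := by rw [← h1]; gcongr
    have h6 : pois s m ≤ 2 * pois s (m + 1) := by nlinarith
    linarith
  · push Not at h
    obtain _ | m := m
    · simp at h; linarith
    · have h1 := pois_succ s m
      have h2 := pois_pair h0 m
      have h3 := pois_nonneg h0 m
      have h4 := pois_nonneg h0 (m + 1)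
      push_cast at h
      have hm : (0 : ℝ) ≤ m := by positivity
      have h5 : ((m : ℝ) + 1) * pois s (m + 1) ≤ ((m : ℝ) + 1) * pois s m := by
        rw [h1]; gcongr; linarith
      have h6 : pois s (m + 1) ≤ pois s m := le_of_mul_le_mul_left h5 (by linarith)
      linarith

lemma negMulLog_le_sqrt {x : ℝ} (hx : 0 ≤ x) : Real.negMulLog x ≤ 2 * Real.sqrt x := by
  rcases hx.eq_or_lt with rfl | hx
  · simp
  · have hs : 0 < Real.sqrt x := Real.sqrt_pos.mpr hx
    have h1 : Real.log (Real.sqrt x)⁻¹ ≤ (Real.sqrt x)⁻¹ - 1 :=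
      Real.log_le_sub_one_of_pos (inv_pos.mpr hs)
    rw [Real.log_inv, Real.log_sqrt hx.le] at h1
    have h2 : Real.sqrt x * Real.sqrt x = x := Real.mul_self_sqrt hx.le
    have h3 : x * (Real.sqrt x)⁻¹ = Real.sqrt x := by
      field_simp; nlinarith
    unfold Real.negMulLog
    nlinarith

lemma pois_le_one {s : ℝ} (hs : 0 ≤ s) (m : ℕ) : pois s m ≤ 1 := by
  have := pois_pair hs m
  have := pois_nonneg hs (m + 1)
  linarith

lemma negMulLog_pois_le {s S : ℝ} (hs : 0 ≤ s) (hS : s ≤ S) (m : ℕ) :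
    ‖Real.negMulLog (pois s m)‖ ≤ 2 * Real.exp (2 * S) * (1 / 2) ^ m := by
  rw [Real.norm_eq_abs, abs_of_nonneg (Real.negMulLog_nonneg (pois_nonneg hs m) (pois_le_one hs m))]
  refine (negMulLog_le_sqrt (pois_nonneg hs m)).trans ?_
  rw [mul_assoc]
  gcongr
  rw [Real.sqrt_le_iff]
  refine ⟨by positivity, ?_⟩
  have h1 := Real.pow_div_factorial_le_exp (4 * s) (by positivity) m
  have h2 : Real.exp (-s) ≤ 1 := Real.exp_le_one_iff.mpr (by linarith)
  have h3 : Real.exp (4 * s) ≤ Real.exp (2 * S) ^ 2 := by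
    rw [← Real.exp_nat_mul]; apply Real.exp_le_exp.mpr; push_cast; linarith
  have h4 : pois s m = Real.exp (-s) * ((4 * s) ^ m / m.factorial) * ((1 / 2) ^ m) ^ 2 := by
    unfold pois
    rw [← pow_mul, mul_comm m 2, pow_mul, mul_pow]
    have : (4 : ℝ) ^ m * ((1 / 2) ^ 2) ^ m = 1 := by rw [← mul_pow]; norm_num
    calc Real.exp (-s) * s ^ m / m.factorial
        = Real.exp (-s) * s ^ m / m.factorial * ((4 : ℝ) ^ m * ((1 / 2) ^ 2) ^ m) := by
          rw [this, mul_one]
      _ = _ := by ring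
  rw [h4, mul_pow (Real.exp (2 * S))]
  refine mul_le_mul_of_nonneg_right ?_ (by positivity)
  calc Real.exp (-s) * ((4 * s) ^ m / m.factorial) ≤ 1 * Real.exp (4 * s) := by gcongr
    _ ≤ _ := by linarith

lemma summable_geo (S : ℝ) : Summable fun m : ℕ => 2 * Real.exp (2 * S) * (1 / 2 : ℝ) ^ m :=
  summable_geometric_two.mul_left _

lemma summable_ent {s : ℝ} (hs : 0 ≤ s) : Summable fun m => Real.negMulLog (pois s m) :=
  Summable.of_norm_bounded (summable_geo s) (negMulLog_pois_le hs le_rfl)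

lemma ent_ge {s : ℝ} (hs : 1 ≤ s) : Real.log (3 / 2) ≤ poisEntropy s := by
  have h0 : 0 ≤ s := by linarith
  have h1 := (hasSum_pois h0).mul_left (Real.log (3 / 2))
  rw [mul_one] at h1
  refine hasSum_le (fun m => ?_) h1 (summable_ent h0).hasSum
  have h2 := pois_nonneg h0 m
  rcases h2.eq_or_lt with h | h
  · rw [← h]; simp
  · have h3 : Real.log (pois s m) ≤ Real.log (2 / 3) := Real.log_le_log h (pois_le hs m)
    have h4 : Real.log (2 / 3) = -Real.log (3 / 2) := by
      rw [← Real.log_inv]; norm_num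
    unfold Real.negMulLog
    nlinarith

lemma ent_zero : poisEntropy 0 = 0 := by
  unfold poisEntropy
  have : ∀ m, Real.negMulLog (pois 0 m) = 0 := by
    rintro (_ | m) <;> simp [pois]
  simp [this]

lemma ent_cont : ContinuousOn poisEntropy (Set.Icc 0 1) := by
  unfold poisEntropy
  refine continuousOn_tsum (fun m => ?_) (summable_geo 1) fun m s hs =>
    negMulLog_pois_le hs.1 hs.2 m
  refine (Real.continuous_negMulLog.comp ?_).continuousOn
  unfold pois
  fun_prop

lemma log_div_lt {k N : ℕ} (hk : 4 ≤ k) (hN1 : 1 ≤ N) (hN : N ≤ 4) :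
    Real.log N / k < Real.log (3 / 2) := by
  have hk' : (4 : ℝ) ≤ k := by exact_mod_cast hk
  have h1 : Real.log N ≤ Real.log 4 :=
    Real.log_le_log (by exact_mod_cast hN1) (by exact_mod_cast hN)
  have h2 : Real.log 4 < 4 * Real.log (3 / 2) := by
    have := Real.log_pow (3 / 2 : ℝ) 4
    push_cast at this
    rw [← this]
    exact Real.log_lt_log (by norm_num) (by norm_num)
  have h3 : 0 < Real.log (3 / 2) := Real.log_pos (by norm_num)
  rw [div_lt_iff₀ (by linarith)]
  nlinarith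

lemma exists_entropicTime {k N : ℕ} (hk : 4 ≤ k) (hN1 : 1 ≤ N) (hN : N ≤ 4) :
    ∃ t, IsEntropicTime k N t := by
  have hk' : (4 : ℝ) ≤ k := by exact_mod_cast hk
  have h1 := log_div_lt hk hN1 hN
  have h2 := ent_ge (le_refl (1 : ℝ))
  have h3 : 0 ≤ Real.log N / k :=
    div_nonneg (Real.log_nonneg (by exact_mod_cast hN1)) (by linarith)
  obtain ⟨s, hs, h⟩ := intermediate_value_Icc (zero_le_one) ent_cont
    (show Real.log N / k ∈ Set.Icc (poisEntropy 0) (poisEntropy 1) from
      ⟨by rw [ent_zero]; exact h3, by linarith⟩)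
  refine ⟨s * k, mul_nonneg hs.1 (by linarith), ?_⟩
  rw [mul_div_cancel_right₀ _ (by linarith)]
  exact h

lemma entropicTime_le {k N : ℕ} (hk : 4 ≤ k) (hN1 : 1 ≤ N) (hN : N ≤ 4) {t : ℝ}
    (ht : IsEntropicTime k N t) : t ≤ k := by
  have hk' : (4 : ℝ) ≤ k := by exact_mod_cast hk
  by_contra h
  push Not at h
  have h1 : 1 ≤ t / k := by rw [le_div_iff₀ (by linarith)]; linarith
  have h2 := ent_ge h1
  have h3 := log_div_lt hk hN1 hN
  rw [ht.2] at h2
  linarith

end Pool.Agent.H391Z.Cut
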