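import Pool.Agent.H391Z.CutA

set_option autoImplicit false
open Filter Topology

namespace Pool.Agent.H391Z.Cut

section
variable {G : Type} [Group G] [Fintype G] {k : ℕ}

lemma stepLaw_nonneg (Z : Fin k → G) (m : ℕ) (g : G) : 0 ≤ stepLaw Z m g := by
  unfold stepLaw; positivity

open Classical in
lemma sum_stepLaw (Z : Fin k → G) (m : ℕ) (S : Finset G) :
    ∑ g ∈ S, stepLaw Z m g = ((Finset.univ.filter fun i : Fin m → Fin k =>
      (List.ofFn fun j => Z (i j)).prod ∈ S).card : ℝ) / (k : ℝ) ^ m := by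
  unfold stepLaw
  rw [← Finset.sum_div]
  congr 1
  rw [Finset.card_eq_sum_card_fiberwise (f := fun i : Fin m → Fin k =>
    (List.ofFn fun j => Z (i j)).prod) (t := S) (by intro i hi; simpa using hi)]
  push_cast
  refine Finset.sum_congr rfl fun g hg => ?_
  rw [Nat.card_eq_fintype_card, Fintype.card_subtype, Finset.filter_filter]
  congr 2
  ext i
  simp only [Finset.mem_filter, Finset.mem_univ, true_and]
  constructor
  · intro h; exact ⟨h ▸ hg, h⟩
  · exact fun h => h.2

lemma sum_stepLaw_eq_one (hk : 0 < k) (Z : Fin k → G) (m : ℕ) (S : Finset G)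
    (h : ∀ i : Fin m → Fin k, (List.ofFn fun j => Z (i j)).prod ∈ S) :
    ∑ g ∈ S, stepLaw Z m g = 1 := by
  classical
  rw [sum_stepLaw, Finset.filter_true_of_mem fun i _ => h i]
  have : (0 : ℝ) < k := by exact_mod_cast hk
  rw [Finset.card_univ, Fintype.card_fun, Fintype.card_fin, Fintype.card_fin]
  push_cast
  exact div_self (by positivity)

lemma sum_stepLaw_le_one (hk : 0 < k) (Z : Fin k → G) (m : ℕ) (S : Finset G) :
    ∑ g ∈ S, stepLaw Z m g ≤ 1 := by
  rw [← sum_stepLaw_eq_one hk Z m Finset.univ fun _ => Finset.mem_univ _]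
  exact Finset.sum_le_sum_of_subset_of_nonneg (Finset.subset_univ _)
    fun g _ _ => stepLaw_nonneg Z m g

lemma summable_law (hk : 0 < k) (Z : Fin k → G) {t : ℝ} (ht : 0 ≤ t) (g : G) :
    Summable fun m => pois t m * stepLaw Z m g := by
  refine Summable.of_nonneg_of_le (fun m => mul_nonneg (pois_nonneg ht m) (stepLaw_nonneg Z m g))
    (fun m => ?_) (hasSum_pois ht).summable
  have := sum_stepLaw_le_one hk Z m {g}
  rw [Finset.sum_singleton] at this
  exact mul_le_of_le_one_right (pois_nonneg ht m) this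

lemma hasSum_law (hk : 0 < k) (Z : Fin k → G) {t : ℝ} (ht : 0 ≤ t) (S : Finset G) :
    HasSum (fun m => pois t m * ∑ g ∈ S, stepLaw Z m g) (∑ g ∈ S, law Z t g) := by
  simp only [Finset.mul_sum]
  exact hasSum_sum fun g _ => (summable_law hk Z ht g).hasSum

lemma sum_law (hk : 0 < k) (Z : Fin k → G) {t : ℝ} (ht : 0 ≤ t) : ∑ g, law Z t g = 1 := by
  have h := hasSum_law hk Z ht Finset.univ
  simp only [sum_stepLaw_eq_one hk Z _ Finset.univ fun _ => Finset.mem_univ _, mul_one] at h
  exact h.unique (hasSum_pois ht)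

lemma law_ge (hk : 0 < k) (Z : Fin k → G) {t : ℝ} (ht : 0 ≤ t) (S : Finset G) {L : ℕ}
    (hL : 0 < L)
    (h : ∀ m ≤ L, ∀ i : Fin m → Fin k, (List.ofFn fun j => Z (i j)).prod ∈ S) :
    1 - t / L ≤ ∑ g ∈ S, law Z t g := by
  have hL' : (0 : ℝ) < L := by exact_mod_cast hL
  have h1 := (hasSum_pois ht).sub ((hasSum_mul_pois ht).div_const (L : ℝ))
  refine hasSum_le (fun m => ?_) h1 (hasSum_law hk Z ht S)
  have h2 := pois_nonneg ht m
  by_cases hm : m ≤ L
  · rw [sum_stepLaw_eq_one hk Z m S (h m hm), mul_one]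
    have : 0 ≤ (m : ℝ) * pois t m / L := by positivity
    linarith
  · push Not at hm
    have hm' : (L : ℝ) ≤ m := by exact_mod_cast hm.le
    have h3 : pois t m ≤ (m : ℝ) * pois t m / L := by
      rw [le_div_iff₀ hL']; nlinarith
    have h4 : 0 ≤ pois t m * ∑ g ∈ S, stepLaw Z m g :=
      mul_nonneg h2 (Finset.sum_nonneg fun g _ => stepLaw_nonneg Z m g)
    linarith

lemma tvDist_ge (hk : 0 < k) (Z : Fin k → G) {t : ℝ} (ht : 0 ≤ t) (S : Finset G) :
    ∑ g ∈ S, law Z t g - (S.card : ℝ) / Fintype.card G ≤ tvDist Z t := by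
  classical
  unfold tvDist
  have hn : (0 : ℝ) < Fintype.card G := by exact_mod_cast Fintype.card_pos
  have h1 : ∑ g, (law Z t g - 1 / (Fintype.card G : ℝ)) = 0 := by
    rw [Finset.sum_sub_distrib, sum_law hk Z ht]
    simp
  rw [← Finset.sum_add_sum_compl S] at h1 ⊢
  have h2 : ∑ g ∈ S, (law Z t g - 1 / (Fintype.card G : ℝ)) ≤
      ∑ g ∈ S, |law Z t g - 1 / (Fintype.card G : ℝ)| :=
    Finset.sum_le_sum fun g _ => le_abs_self _
  have h3 : -∑ g ∈ Sᶜ, (law Z t g - 1 / (Fintype.card G : ℝ)) ≤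
      ∑ g ∈ Sᶜ, |law Z t g - 1 / (Fintype.card G : ℝ)| := by
    rw [← Finset.sum_neg_distrib]
    exact Finset.sum_le_sum fun g _ => neg_le_abs _
  have h4 : ∑ g ∈ S, (law Z t g - 1 / (Fintype.card G : ℝ)) =
      ∑ g ∈ S, law Z t g - (S.card : ℝ) / Fintype.card G := by
    rw [Finset.sum_sub_distrib]
    simp [div_eq_mul_inv]
  linarith

lemma tvDist_le_one (hk : 0 < k) (Z : Fin k → G) {t : ℝ} (ht : 0 ≤ t) : tvDist Z t ≤ 1 := by
  unfold tvDist
  have hn : (0 : ℝ) < Fintype.card G := by exact_mod_cast Fintype.card_pos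
  have h0 : ∀ g, 0 ≤ law Z t g := fun g =>
    tsum_nonneg fun m => mul_nonneg (pois_nonneg ht m) (stepLaw_nonneg Z m g)
  have h1 : ∑ g, |law Z t g - 1 / (Fintype.card G : ℝ)| ≤
      ∑ g, (law Z t g + 1 / (Fintype.card G : ℝ)) := by
    refine Finset.sum_le_sum fun g _ => ?_
    have : (0 : ℝ) ≤ 1 / (Fintype.card G : ℝ) := by positivity
    have := h0 g
    rw [abs_le]; constructor <;> linarith
  rw [Finset.sum_add_distrib, sum_law hk Z ht] at h1
  have h2 : ∑ _g : G, 1 / (Fintype.card G : ℝ) = 1 := by simp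
  linarith

end

open DihedralGroup

/-- An element of the dihedral group from a flag and an index. -/
def el {N : ℕ} : Bool → ZMod N → DihedralGroup N
  | false, x => r x
  | true, x => sr x

/-- The index of an element of the dihedral group. -/
def idx {N : ℕ} : DihedralGroup N → ZMod N
  | r x => x
  | sr x => x

lemma mul_el {N : ℕ} (g : DihedralGroup N) (b : Bool) (x : ZMod N) :
    ∃ b' : Bool, g * el b x = el b' (x + idx g) ∨ g * el b x = el b' (x - idx g) := by
  rcases g with y | y <;> cases b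
  · exact ⟨false, Or.inl (by simp [el, idx, add_comm])⟩
  · exact ⟨true, Or.inr (by simp [el, idx])⟩
  · exact ⟨true, Or.inl (by simp [el, idx, add_comm])⟩
  · exact ⟨false, Or.inr (by simp [el, idx])⟩

lemma word_form {N k : ℕ} (Z : Fin k → DihedralGroup N) (l : List (Fin k)) :
    ∃ (b : Bool) (c : Fin k → ℤ), (∀ i, |c i| ≤ l.length) ∧
      (l.map Z).prod = el b (∑ i, (c i : ZMod N) * idx (Z i)) := by
  induction l with
  | nil => exact ⟨false, 0, by simp, by simp [el]⟩
  | cons a l ih =>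
    obtain ⟨b, c, hc, h⟩ := ih
    rw [List.map_cons, List.prod_cons, h]
    obtain ⟨b', h' | h'⟩ := mul_el (Z a) b (∑ i, (c i : ZMod N) * idx (Z i))
    · refine ⟨b', c + Pi.single a 1, fun i => ?_, ?_⟩
      · have := abs_le.mp (hc i)
        rw [abs_le]
        by_cases hi : i = a
        · subst hi; simp; omega
        · simp [hi]; omega
      · rw [h']
        congr 1
        simp [add_mul, Finset.sum_add_distrib, Pi.single_apply]
    · refine ⟨b', c - Pi.single a 1, fun i => ?_, ?_⟩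
      · have := abs_le.mp (hc i)
        rw [abs_le]
        by_cases hi : i = a
        · subst hi; simp; omega
        · simp [hi]; omega
      · rw [h']
        congr 1
        simp [sub_mul, Finset.sum_sub_distrib, Pi.single_apply]

lemma exists_support {N k : ℕ} (Z : Fin k → DihedralGroup N) (L : ℕ) :
    ∃ S : Finset (DihedralGroup N), S.card ≤ 2 * (2 * L + 1) ^ k ∧
      ∀ m ≤ L, ∀ i : Fin m → Fin k, (List.ofFn fun j => Z (i j)).prod ∈ S := by
  classical
  refine ⟨((Finset.univ : Finset Bool) ×ˢ Fintype.piFinset fun _ : Fin k =>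
    Finset.Icc (-(L : ℤ)) L).image fun p => el p.1 (∑ i, (p.2 i : ZMod N) * idx (Z i)), ?_, ?_⟩
  · refine Finset.card_image_le.trans ?_
    rw [Finset.card_product, Fintype.card_piFinset]
    have : ((L : ℤ) + 1 + (L : ℤ)).toNat = 2 * L + 1 := by omega
    simp [this]
  · intro m hm i
    obtain ⟨b, c, hc, h⟩ := word_form Z (List.ofFn i)
    rw [List.map_ofFn] at h
    refine Finset.mem_image.mpr ⟨(b, c), ?_, h.symm⟩
    simp only [Finset.mem_product, Finset.mem_univ, true_and, Fintype.mem_piFinset,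
      Finset.mem_Icc]
    intro a
    have := abs_le.mp (hc a)
    rw [List.length_ofFn] at this
    omega

lemma card_ab_le (N : ℕ) [NeZero N] : Nat.card (Abelianization (DihedralGroup N)) ≤ 4 := by
  have hs : ∀ x : ZMod N, Abelianization.of (r x : DihedralGroup N) ^ 2 = 1 := by
    intro x
    have h1 : (sr 0 : DihedralGroup N) * r x = (r x)⁻¹ * sr 0 := by simp
    have h2 := congrArg Abelianization.of h1
    rw [map_mul, map_mul, map_inv, mul_comm] at h2
    have h3 := mul_right_cancel h2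
    rw [pow_two]
    exact mul_eq_one_iff_eq_inv.mpr h3
  have hr : ∀ x : ZMod N, ∃ b : Bool, Abelianization.of (r x : DihedralGroup N) =
      if b then Abelianization.of (r 1 : DihedralGroup N) else 1 := by
    intro x
    have h1 : (r x : DihedralGroup N) = r 1 ^ x.val := by simp
    rw [h1, map_pow]
    rcases Nat.even_or_odd' x.val with ⟨j, h | h⟩
    · exact ⟨false, by rw [h, pow_mul, hs]; simp⟩
    · exact ⟨true, by rw [h, pow_succ, pow_mul, hs]; simp⟩
  let f : Bool × Bool → Abelianization (DihedralGroup N) := fun p =>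
    (if p.1 then Abelianization.of (sr 0 : DihedralGroup N) else 1) *
      (if p.2 then Abelianization.of (r 1 : DihedralGroup N) else 1)
  have hf : Function.Surjective f := by
    intro a
    obtain ⟨g, rfl⟩ : ∃ g, Abelianization.of g = a := Quot.exists_rep a
    rcases g with x | x
    · obtain ⟨b, hb⟩ := hr x
      exact ⟨(false, b), by simp [f, hb]⟩
    · obtain ⟨b, hb⟩ := hr x
      refine ⟨(true, b), ?_⟩
      have : (sr x : DihedralGroup N) = sr 0 * r x := by simp
      rw [this, map_mul, hb]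
      simp [f]
  simpa using Nat.card_le_card_of_surjective f hf

lemma tv_dihedral {k : ℕ} (hk : 1 ≤ k) (Z : Fin k → DihedralGroup (2 ^ (10 * k ^ 2))) {C t : ℝ}
    (ht : 0 ≤ t) (htC : t ≤ C * (10 * k ^ 2 + 1)) :
    1 - (C + 1) / k ≤ tvDist Z t := by
  have hk' : (1 : ℝ) ≤ k := by exact_mod_cast hk
  obtain ⟨S, hS, h⟩ := exists_support Z ((10 * k ^ 2 + 1) * k)
  have h1 := law_ge hk Z ht S (by positivity) h
  have h2 := tvDist_ge hk Z ht S
  have h3 : t / (((10 * k ^ 2 + 1) * k : ℕ) : ℝ) ≤ C / k := by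
    push_cast
    rw [div_le_div_iff₀ (by positivity) (by positivity)]
    nlinarith
  have h4 : S.card * k ≤ Fintype.card (DihedralGroup (2 ^ (10 * k ^ 2))) := by
    rw [DihedralGroup.card]
    have hp : k ≤ 2 ^ k := Nat.lt_two_pow_self.le
    have h5 : 2 * ((10 * k ^ 2 + 1) * k) + 1 ≤ 2 ^ (9 * k) := by
      have e : 2 ^ (9 * k) = (2 ^ k) ^ 3 * (2 ^ 6) ^ k := by
        rw [← pow_mul, ← pow_mul, ← pow_add]; congr 1; ring
      have h6 : k ^ 3 ≤ (2 ^ k) ^ 3 := by gcongr
      have h7 : 2 ^ 6 ≤ (2 ^ 6) ^ k := Nat.le_self_pow (by omega) _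
      have h8 : k ≤ k ^ 3 := Nat.le_self_pow (by omega) _
      calc 2 * ((10 * k ^ 2 + 1) * k) + 1 = 20 * k ^ 3 + 2 * k + 1 := by ring
        _ ≤ k ^ 3 * 2 ^ 6 := by omega
        _ ≤ _ := by rw [e]; gcongr
    have h6 : k ≤ 2 ^ (k ^ 2) := hp.trans (Nat.pow_le_pow_right (by omega)
      (Nat.le_self_pow (by omega) _))
    calc S.card * k ≤ 2 * (2 ^ (9 * k)) ^ k * 2 ^ (k ^ 2) := by
          refine Nat.mul_le_mul (hS.trans ?_) h6
          gcongr
      _ = 2 * 2 ^ (10 * k ^ 2) := by
          rw [← pow_mul, mul_assoc, ← pow_add]; congr 2; ring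
  have h5 : (S.card : ℝ) / Fintype.card (DihedralGroup (2 ^ (10 * k ^ 2))) ≤ 1 / k := by
    have hn : (0 : ℝ) < Fintype.card (DihedralGroup (2 ^ (10 * k ^ 2))) := by
      exact_mod_cast Fintype.card_pos
    rw [div_le_div_iff₀ hn (by positivity), one_mul]
    exact_mod_cast h4
  rw [add_div]
  linarith

end Pool.Agent.H391Z.Cut
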