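import Mathlib

/-! Riemann's lemma and Schwarz's lemma for trigonometric series. -/

open Filter Topology Real

namespace Pool.Agent.H391Z.Uniq

lemma sinc_sq_hasDerivAt {u : ℝ} (hu : 0 < u) :
    HasDerivAt (fun v => sinc v ^ 2) (2 * sin u * (u * cos u - sin u) / u ^ 3) u := by
  have h1 : HasDerivAt (fun v => (sin v / v) ^ 2)
      (2 * (sin u / u) * ((cos u * u - sin u * 1) / u ^ 2)) u := by
    have := ((hasDerivAt_sin u).fun_div (hasDerivAt_id' u) hu.ne').fun_pow 2
    simpa using this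
  have h2 : (fun v => sinc v ^ 2) =ᶠ[𝓝 u] fun v => (sin v / v) ^ 2 := by
    filter_upwards [Ioi_mem_nhds hu] with v hv
    rw [sinc_of_ne_zero (ne_of_gt hv)]
  refine (h1.congr_of_eventuallyEq h2).congr_deriv ?_
  field_simp

lemma deriv_bound {u : ℝ} (hu : 0 < u) :
    |2 * sin u * (u * cos u - sin u) / u ^ 3| ≤ 16 / (1 + u) ^ 2 := by
  rw [abs_div, abs_of_pos (pow_pos hu 3), div_le_div_iff₀ (pow_pos hu 3) (by positivity),
    abs_mul, abs_mul, abs_two]
  rcases le_total u 1 with h | h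
  · have h1 : |sin u| ≤ u := by simpa [abs_of_pos hu] using abs_sin_le_abs (x := u)
    have h2 : |u * cos u - sin u| ≤ u ^ 3 / 2 := by
      have a1 := one_sub_sq_div_two_le_cos (x := u)
      have a2 := sin_le hu.le
      have a3 := sin_gt_sub_cube hu
      have a4 := cos_le_one u
      have a5 : 0 < u ^ 3 := pow_pos hu 3
      rw [abs_le]
      constructor <;> nlinarith
    have h3 : (1 + u) ^ 2 ≤ 4 := by nlinarith
    have a5 : 0 < u ^ 3 := pow_pos hu 3
    calc 2 * |sin u| * |u * cos u - sin u| * (1 + u) ^ 2 ≤ 2 * 1 * (u ^ 3 / 2) * 4 := by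
          gcongr
          exact h1.trans h
      _ ≤ 16 * u ^ 3 := by linarith
  · have h1 : |sin u| ≤ 1 := abs_sin_le_one u
    have h2 : |u * cos u - sin u| ≤ 2 * u := by
      have a1 := abs_cos_le_one u
      calc |u * cos u - sin u| ≤ |u * cos u| + |sin u| := abs_sub _ _
        _ ≤ u * 1 + 1 := by
          rw [abs_mul, abs_of_pos hu]
          gcongr
        _ ≤ 2 * u := by linarith
    have h3 : (1 + u) ^ 2 ≤ 4 * u ^ 2 := by nlinarith
    calc 2 * |sin u| * |u * cos u - sin u| * (1 + u) ^ 2 ≤ 2 * 1 * (2 * u) * (4 * u ^ 2) := by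
          gcongr
      _ = 16 * u ^ 3 := by ring

lemma sinc_sq_var {a b : ℝ} (ha : 0 ≤ a) (hab : a ≤ b) :
    |sinc a ^ 2 - sinc b ^ 2| ≤ 16 / (1 + a) - 16 / (1 + b) := by
  have key : ∀ s : ℝ, |s| ≤ 1 →
      MonotoneOn (fun v => s * sinc v ^ 2 - 16 / (1 + v)) (Set.Ici 0) := by
    intro s hs
    have hd : ∀ u, 0 < u → HasDerivAt (fun v => s * sinc v ^ 2 - 16 / (1 + v))
        (s * (2 * sin u * (u * cos u - sin u) / u ^ 3) + 16 / (1 + u) ^ 2) u := by
      intro u hu
      have h1 : HasDerivAt (fun v : ℝ => 16 / (1 + v)) (-(16 / (1 + u) ^ 2)) u := by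
        have h0 : HasDerivAt (fun v : ℝ => 1 + v) 1 u := (hasDerivAt_id u).const_add 1
        have := (hasDerivAt_const u (16 : ℝ)).div h0 (by positivity)
        refine this.congr_deriv ?_
        ring
      have := ((sinc_sq_hasDerivAt hu).const_mul s).sub h1
      refine this.congr_deriv ?_
      ring
    apply monotoneOn_of_deriv_nonneg (convex_Ici 0)
    · apply ContinuousOn.sub
      · exact (continuous_const.mul (continuous_sinc.pow 2)).continuousOn
      · apply ContinuousOn.div continuousOn_const (by fun_prop)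
        intro x hx
        have : (0 : ℝ) ≤ x := hx
        positivity
    · intro u hu
      rw [interior_Ici] at hu
      exact (hd u hu).differentiableAt.differentiableWithinAt
    · intro u hu
      rw [interior_Ici] at hu
      rw [(hd u hu).deriv]
      have h1 := deriv_bound hu
      have h2 : |s * (2 * sin u * (u * cos u - sin u) / u ^ 3)| ≤ 16 / (1 + u) ^ 2 := by
        rw [abs_mul]
        calc _ ≤ 1 * (16 / (1 + u) ^ 2) := by gcongr
          _ = _ := one_mul _
      have := (abs_le.1 h2).1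
      linarith
  have h1 := key 1 (by simp) ha (ha.trans hab) hab
  have h2 := key (-1) (by simp) ha (ha.trans hab) hab
  simp only at h1 h2
  rw [abs_le]
  constructor <;> linarith

lemma var_sum (t : ℝ) (ht : 0 ≤ t) (N : ℕ) :
    ∑ n ∈ Finset.range N, |sinc (n * t) ^ 2 - sinc ((n + 1 : ℕ) * t) ^ 2| ≤ 16 := by
  have : ∑ n ∈ Finset.range N, |sinc (n * t) ^ 2 - sinc ((n + 1 : ℕ) * t) ^ 2| ≤
      16 - 16 / (1 + N * t) := by
    induction N with
    | zero => simp
    | succ N ih =>
      rw [Finset.sum_range_succ]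
      have := sinc_sq_var (a := N * t) (b := (N + 1 : ℕ) * t) (by positivity)
        (by push_cast; nlinarith)
      linarith
  have h2 : 0 ≤ 16 / (1 + N * t) := by positivity
  linarith

lemma abel (a : ℕ → ℂ) (g : ℕ → ℂ) (N : ℕ) :
    ∑ n ∈ Finset.range (N + 1), a n * g n =
      ∑ n ∈ Finset.range N, (∑ k ∈ Finset.range (n + 1), a k) * (g n - g (n + 1)) +
        (∑ k ∈ Finset.range (N + 1), a k) * g N := by
  induction N with
  | zero => simp
  | succ N ih =>
    rw [Finset.sum_range_succ, ih, Finset.sum_range_succ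
      (fun n => (∑ k ∈ Finset.range (n + 1), a k) * (g n - g (n + 1))) N,
      Finset.sum_range_succ a (N + 1)]
    ring

/-- Riemann's first lemma. -/
lemma riemann (a : ℕ → ℂ) (R : ℝ → ℂ)
    (hs : Tendsto (fun N => ∑ k ∈ Finset.range (N + 1), a k) atTop (𝓝 0))
    (hR : ∀ t, 0 < t → HasSum (fun n : ℕ => a n * ((sinc (n * t) ^ 2 : ℝ) : ℂ)) (R t)) :
    Tendsto R (𝓝[>] 0) (𝓝 0) := by
  set s : ℕ → ℂ := fun N => ∑ k ∈ Finset.range (N + 1), a k with hsdef
  rw [Metric.tendsto_nhds]
  intro ε hε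
  obtain ⟨M, hM⟩ := Metric.tendsto_atTop.1 hs (ε / 64) (by positivity)
  simp only [dist_zero_right] at hM ⊢
  have hA : Tendsto (fun t : ℝ => ∑ n ∈ Finset.range M,
      ‖s n‖ * |sinc (n * t) ^ 2 - sinc ((n + 1 : ℕ) * t) ^ 2|) (𝓝[>] 0) (𝓝 0) := by
    have hc : Continuous (fun t : ℝ => ∑ n ∈ Finset.range M,
      ‖s n‖ * |sinc (n * t) ^ 2 - sinc ((n + 1 : ℕ) * t) ^ 2|) := by
      have := continuous_sinc
      fun_prop
    have := (hc.tendsto 0).mono_left (nhdsWithin_le_nhds (s := Set.Ioi 0))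
    simpa using this
  filter_upwards [(tendsto_order.1 hA).2 (ε / 4) (by positivity), self_mem_nhdsWithin] with t h1 ht
  have ht : 0 < t := ht
  have hlim : Tendsto (fun N => ‖∑ n ∈ Finset.range (N + 1),
      a n * ((sinc (n * t) ^ 2 : ℝ) : ℂ)‖) atTop (𝓝 ‖R t‖) :=
    ((hR t ht).tendsto_sum_nat.comp (tendsto_add_atTop_nat 1)).norm
  have hb : ∀ᶠ N in atTop, ‖∑ n ∈ Finset.range (N + 1),
      a n * ((sinc (n * t) ^ 2 : ℝ) : ℂ)‖ ≤ ε / 4 + ε / 4 + ε / 4 := by
    filter_upwards [eventually_ge_atTop M] with N hN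
    rw [abel]
    refine (norm_add_le _ _).trans (add_le_add ((norm_sum_le _ _).trans ?_) ?_)
    · have e1 : ∀ n ∈ Finset.range N, ‖(∑ k ∈ Finset.range (n + 1), a k) *
          (((sinc (n * t) ^ 2 : ℝ) : ℂ) - ((sinc ((n + 1 : ℕ) * t) ^ 2 : ℝ) : ℂ))‖ ≤
          (if n < M then ‖s n‖ * |sinc (n * t) ^ 2 - sinc ((n + 1 : ℕ) * t) ^ 2| else 0) +
          ε / 64 * |sinc (n * t) ^ 2 - sinc ((n + 1 : ℕ) * t) ^ 2| := by
        intro n _
        rw [norm_mul, ← Complex.ofReal_sub, Complex.norm_real, Real.norm_eq_abs]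
        split_ifs with hn
        · have : 0 ≤ ε / 64 * |sinc (n * t) ^ 2 - sinc ((n + 1 : ℕ) * t) ^ 2| := by positivity
          simp only [hsdef]
          linarith
        · rw [zero_add]
          gcongr
          exact (hM n (not_lt.1 hn)).le
      refine (Finset.sum_le_sum e1).trans ?_
      rw [Finset.sum_add_distrib, ← Finset.mul_sum, ← Finset.sum_filter]
      have e2 : (Finset.range N).filter (· < M) = Finset.range M := by
        ext n; simp only [Finset.mem_filter, Finset.mem_range]; omega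
      rw [e2]
      have e3 := var_sum t ht.le N
      have : ε / 64 * ∑ n ∈ Finset.range N, |sinc (n * t) ^ 2 - sinc ((n + 1 : ℕ) * t) ^ 2| ≤
          ε / 64 * 16 := by gcongr
      linarith
    · rw [norm_mul, Complex.norm_real, Real.norm_eq_abs, abs_pow]
      have e1 := hM N hN
      have e2 : |sinc (N * t)| ^ 2 ≤ 1 := pow_le_one₀ (abs_nonneg _) (abs_sinc_le_one _)
      calc _ ≤ ε / 64 * 1 := by gcongr
        _ ≤ ε / 4 := by linarith
  have := le_of_tendsto hlim hb
  linarith

/-- Schwarz's lemma, real one-sided form. -/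
lemma schwarz_real (f : ℝ → ℝ) (hf : Continuous f) (x0 h0 : ℝ) (hh : 0 < h0)
    (hD : ∀ x ∈ Set.Ioo (x0 - h0) (x0 + h0),
      Tendsto (fun h => (f (x + h) + f (x - h) - 2 * f x) / h ^ 2) (𝓝[>] 0) (𝓝 0)) :
    0 ≤ f (x0 + h0) + f (x0 - h0) - 2 * f x0 := by
  have key : ∀ ε, 0 < ε → 0 ≤ f (x0 + h0) + f (x0 - h0) - 2 * f x0 + 2 * h0 ^ 2 * ε := by
    intro ε hε
    set m := (f (x0 + h0) - f (x0 - h0)) / (2 * h0) with hm
    let G : ℝ → ℝ := fun x => f x - m * (x - x0) + ε * (x - x0) ^ 2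
    have hG : Continuous G := by fun_prop
    obtain ⟨x1, hx1, hmax⟩ := (isCompact_Icc (a := x0 - h0) (b := x0 + h0)).exists_isMaxOn
      ⟨x0, by constructor <;> linarith⟩ hG.continuousOn
    have hend : G (x0 - h0) = G (x0 + h0) := by
      simp only [G, hm]
      field_simp
      ring
    have hx0 : G x0 ≤ G x1 := hmax (by constructor <;> linarith : x0 ∈ Set.Icc (x0 - h0) (x0 + h0))
    have hle : G x1 ≤ G (x0 + h0) := by
      by_contra hlt
      push Not at hlt
      have hI : x1 ∈ Set.Ioo (x0 - h0) (x0 + h0) := by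
        constructor
        · refine lt_of_le_of_ne hx1.1 ?_
          rintro rfl
          rw [hend] at hlt
          exact lt_irrefl _ hlt
        · refine lt_of_le_of_ne hx1.2 ?_
          rintro rfl
          exact lt_irrefl _ hlt
      have h1 := (tendsto_order.1 (hD x1 hI)).1 (-ε) (by linarith)
      have h2 : ∀ᶠ h in 𝓝[>] (0 : ℝ), h < min (x1 - (x0 - h0)) (x0 + h0 - x1) := by
        apply mem_nhdsWithin_of_mem_nhds
        apply Iio_mem_nhds
        have := hI.1
        have := hI.2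
        apply lt_min <;> linarith
      obtain ⟨h, hh1, hh2, hh3⟩ := (h1.and (h2.and self_mem_nhdsWithin)).exists
      have hh3 : 0 < h := hh3
      rw [lt_min_iff] at hh2
      have a1 : G (x1 + h) ≤ G x1 := hmax (by
        constructor <;> linarith [hh2.1, hh2.2, hI.1, hI.2] :
          x1 + h ∈ Set.Icc (x0 - h0) (x0 + h0))
      have a2 : G (x1 - h) ≤ G x1 := hmax (by
        constructor <;> linarith [hh2.1, hh2.2, hI.1, hI.2] :
          x1 - h ∈ Set.Icc (x0 - h0) (x0 + h0))
      rw [lt_div_iff₀ (by positivity)] at hh1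
      simp only [G] at a1 a2
      have : 0 < ε * h ^ 2 := by positivity
      nlinarith
    have h3 := hx0.trans hle
    have h4 : m * h0 = (f (x0 + h0) - f (x0 - h0)) / 2 := by
      rw [hm]; field_simp
    simp only [G] at h3
    have h5 : x0 + h0 - x0 = h0 := by ring
    rw [h5, h4] at h3
    simp only [sub_self, mul_zero, sub_zero, ne_eq, OfNat.ofNat_ne_zero, not_false_eq_true,
      zero_pow, add_zero] at h3
    linarith
  by_contra hneg
  push Not at hneg
  have := key (-(f (x0 + h0) + f (x0 - h0) - 2 * f x0) / (4 * h0 ^ 2)) (by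
    apply div_pos (by linarith) (by positivity))
  have e : 2 * h0 ^ 2 * (-(f (x0 + h0) + f (x0 - h0) - 2 * f x0) / (4 * h0 ^ 2)) =
      -(f (x0 + h0) + f (x0 - h0) - 2 * f x0) / 2 := by
    field_simp
    ring
  rw [e] at this
  linarith

lemma schwarz (F : ℝ → ℂ) (hF : Continuous F) (x0 h0 : ℝ) (hh : 0 < h0)
    (hD : ∀ x ∈ Set.Ioo (x0 - h0) (x0 + h0),
      Tendsto (fun h : ℝ => (F (x + h) + F (x - h) - 2 * F x) / (h : ℂ) ^ 2) (𝓝[>] 0) (𝓝 0)) :
    F (x0 + h0) + F (x0 - h0) - 2 * F x0 = 0 := by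
  have key : ∀ z : ℂ, 0 ≤ (z * (F (x0 + h0) + F (x0 - h0) - 2 * F x0)).re := by
    intro z
    have := schwarz_real (fun x => (z * F x).re) (by fun_prop) x0 h0 hh (fun x hx => by
      have h1 := (Complex.continuous_re.tendsto _).comp ((hD x hx).const_mul z)
      simp only [mul_zero, Complex.zero_re] at h1
      refine h1.congr fun h => ?_
      simp only [Function.comp]
      rw [← mul_div_assoc, ← Complex.ofReal_pow, Complex.div_ofReal_re]
      congr 1
      simp [mul_add, mul_sub]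
      ring)
    refine this.trans_eq ?_
    simp [mul_add, mul_sub]
    ring
  set D := F (x0 + h0) + F (x0 - h0) - 2 * F x0
  have h1 := key 1
  have h2 := key (-1)
  have h3 := key Complex.I
  have h4 := key (-Complex.I)
  simp at h1 h2 h3 h4
  apply Complex.ext <;> simp <;> linarith

end Pool.Agent.H391Z.Uniq
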