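import Mathlib
import Pool.Agent.H391Z.UniqA

/-! Rajchman's theorem on H-sets, for the sets avoided by a half circle. -/

open Filter Topology Real MeasureTheory

namespace Pool.Agent.H391Z.Uniq

/-- the character `x ↦ exp (2 π i n x)` -/
noncomputable def E (n : ℤ) (x : ℝ) : ℂ :=
  Complex.exp (2 * (Real.pi : ℂ) * Complex.I * (n : ℂ) * (x : ℂ))

lemma hasSum_of_eq {ι : Type} {f g : ι → ℂ} {a b : ℂ} (h : HasSum f a) (hf : ∀ i, g i = f i)
    (hab : b = a) : HasSum g b := by
  have : g = f := funext hf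
  rw [this, hab]
  exact h

lemma E_add (n : ℤ) (x y : ℝ) : E n (x + y) = E n x * E n y := by
  unfold E
  rw [← Complex.exp_add]
  congr 1
  push_cast
  ring

lemma E_add' (n m : ℤ) (x : ℝ) : E (n + m) x = E n x * E m x := by
  unfold E
  rw [← Complex.exp_add]
  congr 1
  push_cast
  ring

lemma E_zero (x : ℝ) : E 0 x = 1 := by simp [E]

lemma E_zero' (n : ℤ) : E n 0 = 1 := by simp [E]

lemma E_eq (n : ℤ) (x : ℝ) : E n x = Complex.exp (((2 * π * n * x : ℝ) : ℂ) * Complex.I) := by
  unfold E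
  congr 1
  push_cast
  ring

lemma norm_E (n : ℤ) (x : ℝ) : ‖E n x‖ = 1 := by
  rw [E_eq, Complex.norm_exp_ofReal_mul_I]

lemma continuous_E (n : ℤ) : Continuous (E n) := by
  unfold E
  fun_prop

lemma E_second (n : ℤ) (x h : ℝ) :
    E n (x + h) + E n (x - h) - 2 * E n x = -4 * ((sin (π * n * h) : ℝ) : ℂ) ^ 2 * E n x := by
  rw [sub_eq_add_neg x h, E_add, E_add]
  have h1 : E n h + E n (-h) = 2 - 4 * ((sin (π * n * h) : ℝ) : ℂ) ^ 2 := by
    rw [E_eq, E_eq, Complex.exp_ofReal_mul_I, Complex.exp_ofReal_mul_I]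
    have e1 : 2 * π * n * -h = -(2 * (π * n * h)) := by ring
    have e2 : 2 * π * n * h = 2 * (π * n * h) := by ring
    rw [e1, e2, Real.cos_neg, Real.sin_neg, Real.cos_two_mul, Real.cos_sq']
    push_cast
    ring
  linear_combination E n x * h1

lemma E_nat_mul (n : ℤ) (x : ℝ) (l : ℕ) : E n (l * x) = E n x ^ l := by
  induction l with
  | zero => simp [E_zero']
  | succ l ih => push_cast; rw [add_mul, one_mul, E_add, ih, pow_succ]

lemma E_int (n k : ℤ) : E n k = 1 := by
  unfold E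
  rw [Complex.exp_eq_one_iff]
  exact ⟨n * k, by push_cast; ring⟩

lemma integral_E_half {m : ℤ} (hm : m ≠ 0) : ∫ x in (1 / 2 : ℝ)..1, E (2 * m) x = 0 := by
  have hc : (2 * (Real.pi : ℂ) * Complex.I * ((2 * m : ℤ) : ℂ)) ≠ 0 := by
    have : (m : ℂ) ≠ 0 := by exact_mod_cast hm
    have : (Real.pi : ℂ) ≠ 0 := by exact_mod_cast Real.pi_ne_zero
    push_cast
    simp [*]
  have := integral_exp_mul_complex (a := 1 / 2) (b := 1) hc
  unfold E
  rw [this]
  have h1 : Complex.exp (2 * (Real.pi : ℂ) * Complex.I * ((2 * m : ℤ) : ℂ) * ((1 : ℝ) : ℂ)) = 1 := by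
    rw [Complex.exp_eq_one_iff]
    exact ⟨2 * m, by push_cast; ring⟩
  have h2 : Complex.exp (2 * (Real.pi : ℂ) * Complex.I * ((2 * m : ℤ) : ℂ) * ((1 / 2 : ℝ) : ℂ)) = 1 := by
    rw [Complex.exp_eq_one_iff]
    exact ⟨m, by push_cast; ring⟩
  rw [h1, h2]
  simp

lemma cl_aux (α β : ℕ → ℂ) (m : ℕ → ℤ) (hm : ∀ k, 1 ≤ k → m k ≠ 0)
    (h : ∀ x ∈ Set.Ioo (1 / 2 : ℝ) 1,
      Tendsto (fun k => α k * E (m k) x + β k * E (-(m k)) x) atTop (𝓝 0)) :
    Tendsto (fun k => ‖α k‖ / (1 + ‖α k‖ + ‖β k‖)) atTop (𝓝 0) := by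
  let v : ℕ → ℝ → ℂ := fun k x =>
    (α k * E (m k) x + β k * E (-(m k)) x) * (E (-(m k)) x / ((1 + ‖α k‖ + ‖β k‖ : ℝ) : ℂ))
  have hpos : ∀ k, 0 < 1 + ‖α k‖ + ‖β k‖ := fun k => by positivity
  have hn : ∀ k x, ‖E (-(m k)) x / ((1 + ‖α k‖ + ‖β k‖ : ℝ) : ℂ)‖ = 1 / (1 + ‖α k‖ + ‖β k‖) := by
    intro k x
    rw [norm_div, norm_E, Complex.norm_real, Real.norm_of_nonneg (hpos k).le]
  have hv : Tendsto (fun k => ∫ x in (1 / 2 : ℝ)..1, v k x) atTop
      (𝓝 (∫ _x in (1 / 2 : ℝ)..1, (0 : ℂ))) := by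
    apply intervalIntegral.tendsto_integral_filter_of_dominated_convergence (fun _ => (1 : ℝ))
    · refine Eventually.of_forall fun k => Continuous.aestronglyMeasurable ?_
      have := continuous_E (m k)
      have := continuous_E (-(m k))
      simp only [v]
      fun_prop
    · refine Eventually.of_forall fun k => Eventually.of_forall fun x _ => ?_
      simp only [v]
      rw [norm_mul, hn, mul_one_div, div_le_one (hpos k)]
      refine (norm_add_le _ _).trans ?_
      rw [norm_mul, norm_mul, norm_E, norm_E]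
      linarith
    · exact intervalIntegrable_const
    · have : ∀ᵐ x : ℝ, x ≠ 1 := by
        rw [ae_iff]; simp
      filter_upwards [this] with x hx hx2
      rw [Set.uIoc_of_le (by norm_num)] at hx2
      have h1 := h x ⟨hx2.1, lt_of_le_of_ne hx2.2 hx⟩
      rw [tendsto_zero_iff_norm_tendsto_zero] at h1 ⊢
      refine squeeze_zero (fun k => norm_nonneg _) (fun k => ?_) h1
      simp only [v]
      rw [norm_mul, hn]
      apply mul_le_of_le_one_right (norm_nonneg _)
      rw [div_le_one (hpos k)]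
      have := norm_nonneg (α k)
      have := norm_nonneg (β k)
      linarith
  have hI : ∀ k, 1 ≤ k → ∫ x in (1 / 2 : ℝ)..1, v k x =
      α k / ((1 + ‖α k‖ + ‖β k‖ : ℝ) : ℂ) * (1 / 2) := by
    intro k hk
    have e : ∀ x, v k x = α k / ((1 + ‖α k‖ + ‖β k‖ : ℝ) : ℂ) +
        β k / ((1 + ‖α k‖ + ‖β k‖ : ℝ) : ℂ) * E (2 * (-(m k))) x := by
      intro x
      have e1 : E (m k) x * E (-(m k)) x = 1 := by rw [← E_add', add_neg_cancel, E_zero]
      have e2 : E (2 * (-(m k))) x = E (-(m k)) x * E (-(m k)) x := by rw [two_mul, E_add']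
      simp only [v]
      rw [e2]
      linear_combination (α k / ((1 + ‖α k‖ + ‖β k‖ : ℝ) : ℂ)) * e1
    simp_rw [e]
    have hc : Continuous fun x : ℝ =>
        β k / ((1 + ‖α k‖ + ‖β k‖ : ℝ) : ℂ) * E (2 * (-(m k))) x :=
      continuous_const.mul (continuous_E _)
    rw [intervalIntegral.integral_add intervalIntegrable_const (hc.intervalIntegrable _ _),
      intervalIntegral.integral_const_mul, integral_E_half (neg_ne_zero.2 (hm k hk))]
    simp
    ring
  simp only [intervalIntegral.integral_zero] at hv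
  have h2 := (hv.norm).const_mul 2
  simp only [norm_zero, mul_zero] at h2
  refine h2.congr' ?_
  filter_upwards [eventually_ge_atTop 1] with k hk
  rw [hI k hk, norm_mul, norm_div, Complex.norm_real, Real.norm_of_nonneg (hpos k).le]
  simp
  ring

/-- Cantor-Lebesgue -/
lemma cantor_lebesgue (c : ℤ → ℂ)
    (h : ∀ x ∈ Set.Ioo (1 / 2 : ℝ) 1,
      Tendsto (fun k : ℕ => c k * E k x + c (-k) * E (-k) x) atTop (𝓝 0)) :
    Tendsto (fun k : ℕ => ‖c k‖ + ‖c (-k)‖) atTop (𝓝 0) := by
  have h1 := cl_aux (fun k => c k) (fun k => c (-k)) (fun k => k) (fun k hk => by omega) h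
  have h2 := cl_aux (fun k => c (-k)) (fun k => c k) (fun k => -k) (fun k hk => by omega)
    (fun x hx => by simpa [add_comm] using h x hx)
  have h3 := h1.add h2
  simp only [add_zero] at h3
  have h4 : Tendsto (fun k : ℕ => (‖c k‖ + ‖c (-k)‖) / (1 + (‖c k‖ + ‖c (-k)‖))) atTop (𝓝 0) := by
    refine h3.congr fun k => ?_
    have : 0 < 1 + ‖c k‖ + ‖c (-k)‖ := by positivity
    have e1 : 1 + ‖c (-k)‖ + ‖c k‖ = 1 + ‖c k‖ + ‖c (-k)‖ := by ring
    rw [e1, ← add_div, add_assoc]
  have h5 : Tendsto (fun q : ℝ => q / (1 - q)) (𝓝 0) (𝓝 (0 / (1 - 0))) :=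
    (continuousAt_id.div (continuousAt_const.sub continuousAt_id) (by norm_num)).tendsto
  have h6 := h5.comp h4
  simp only [sub_zero, div_one] at h6
  refine h6.congr fun k => ?_
  simp only [Function.comp]
  have : 0 < 1 + (‖c k‖ + ‖c (-k)‖) := by positivity
  field_simp
  ring

/-- convergence to `0` of the symmetric partial sums at `x` -/
def Conv (c : ℤ → ℂ) (x : ℝ) : Prop :=
  Tendsto (fun N : ℕ => ∑ n ∈ Finset.Icc (-(N : ℤ)) (N : ℤ), c n * E n x) atTop (𝓝 0)

lemma sum_Icc_succ (f : ℤ → ℂ) (N : ℕ) :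
    ∑ n ∈ Finset.Icc (-((N + 1 : ℕ) : ℤ)) ((N + 1 : ℕ) : ℤ), f n =
      ∑ n ∈ Finset.Icc (-(N : ℤ)) (N : ℤ), f n + (f ((N + 1 : ℕ) : ℤ) + f (-((N + 1 : ℕ) : ℤ))) := by
  have : Finset.Icc (-((N + 1 : ℕ) : ℤ)) ((N + 1 : ℕ) : ℤ) =
      insert ((N + 1 : ℕ) : ℤ) (insert (-((N + 1 : ℕ) : ℤ)) (Finset.Icc (-(N : ℤ)) (N : ℤ))) := by
    ext n
    simp only [Finset.mem_Icc, Finset.mem_insert]
    push_cast
    omega
  rw [this, Finset.sum_insert, Finset.sum_insert]
  · ring
  · simp only [Finset.mem_Icc]; push_cast; omega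
  · simp only [Finset.mem_Icc, Finset.mem_insert]; push_cast; omega

lemma sum_Icc_eq (f : ℤ → ℂ) (N : ℕ) :
    ∑ n ∈ Finset.Icc (-(N : ℤ)) (N : ℤ), f n =
      ∑ k ∈ Finset.range (N + 1), (f k + f (-k) - if k = 0 then f 0 else 0) := by
  induction N with
  | zero => simp
  | succ N ih => rw [sum_Icc_succ, ih, Finset.sum_range_succ _ (N + 1)]; simp

lemma Conv.terms {c : ℤ → ℂ} {x : ℝ} (h : Conv c x) :
    Tendsto (fun k : ℕ => c k * E k x + c (-k) * E (-k) x) atTop (𝓝 0) := by
  have h1 := (h.comp (tendsto_add_atTop_nat 1)).sub h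
  simp only [sub_zero, Function.comp] at h1
  rw [← tendsto_add_atTop_iff_nat 1]
  refine h1.congr fun N => ?_
  rw [sum_Icc_succ (fun n => c n * E n x)]
  ring

section
variable {c : ℤ → ℂ} {B : ℝ} (hB : ∀ n, ‖c n‖ ≤ B)
include hB

set_option linter.unusedSectionVars false in
lemma summable_aux : Summable fun n : ℤ => B * (1 / (n : ℝ) ^ 2) :=
  (Real.summable_one_div_int_pow.2 (by norm_num)).mul_left B

lemma norm_term_le (n : ℤ) (x : ℝ) :
    ‖c n * E n x / (4 * (π : ℂ) ^ 2 * (n : ℂ) ^ 2)‖ ≤ B * (1 / (n : ℝ) ^ 2) := by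
  have hB0 : 0 ≤ B := (norm_nonneg _).trans (hB 0)
  rcases eq_or_ne n 0 with rfl | hn
  · simp
  rw [norm_div, norm_mul, norm_E, mul_one, mul_one_div]
  have hn' : (0 : ℝ) < (n : ℝ) ^ 2 := by
    have : (n : ℝ) ≠ 0 := by exact_mod_cast hn
    positivity
  have e : ‖4 * (π : ℂ) ^ 2 * (n : ℂ) ^ 2‖ = 4 * π ^ 2 * (n : ℝ) ^ 2 := by
    simp [abs_of_pos Real.pi_pos]
  rw [e]
  have := Real.pi_gt_three
  gcongr
  · exact hB n
  · have : 1 ≤ 4 * π ^ 2 := by nlinarith
    nlinarith

omit hB in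
/-- the Riemann function -/
noncomputable def F (c : ℤ → ℂ) (x : ℝ) : ℂ :=
  c 0 * (x : ℂ) ^ 2 / 2 - ∑' n : ℤ, c n * E n x / (4 * (π : ℂ) ^ 2 * (n : ℂ) ^ 2)

lemma continuous_F : Continuous (F c) := by
  unfold F
  refine Continuous.sub (by fun_prop) ?_
  refine continuous_tsum (fun n => ?_) (summable_aux hB) (fun n x => norm_term_le hB n x)
  have := continuous_E n
  fun_prop

lemma hasSum_R (x h : ℝ) (hh : 0 < h) :
    HasSum (fun n : ℤ => c n * E n x * ((sinc (π * n * h) ^ 2 : ℝ) : ℂ))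
      ((F c (x + h) + F c (x - h) - 2 * F c x) / (h : ℂ) ^ 2) := by
  have hs : ∀ y, HasSum (fun n : ℤ => c n * E n y / (4 * (π : ℂ) ^ 2 * (n : ℂ) ^ 2))
      (∑' n : ℤ, c n * E n y / (4 * (π : ℂ) ^ 2 * (n : ℂ) ^ 2)) := fun y =>
    (Summable.of_norm_bounded (summable_aux hB) (fun n => norm_term_le hB n y)).hasSum
  have h1 := ((((hs (x + h)).add (hs (x - h))).sub ((hs x).mul_left 2)).neg.div_const
    ((h : ℂ) ^ 2)).add (hasSum_ite_eq (0 : ℤ) (c 0))
  have hh' : (h : ℂ) ≠ 0 := by exact_mod_cast hh.ne'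
  refine hasSum_of_eq h1 ?_ ?_
  · intro n
    rcases eq_or_ne n 0 with rfl | hn
    · simp [E_zero]
    · have hn' : (n : ℂ) ≠ 0 := by exact_mod_cast hn
      have hp : (π : ℂ) ≠ 0 := by exact_mod_cast Real.pi_ne_zero
      have hne : π * n * h ≠ 0 := by
        have : (n : ℝ) ≠ 0 := by exact_mod_cast hn
        have := Real.pi_ne_zero
        have := hh.ne'
        positivity
      rw [if_neg hn, sinc_of_ne_zero hne]
      have e := E_second n x h
      have e2 : E n (x + h) = -4 * ((sin (π * n * h) : ℝ) : ℂ) ^ 2 * E n x + 2 * E n x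
          - E n (x - h) := by linear_combination e
      rw [e2]
      push_cast
      field_simp
      ring
  · unfold F
    push_cast
    field_simp
    ring

lemma second_deriv {x : ℝ} (hx : Conv c x) :
    Tendsto (fun h : ℝ => (F c (x + h) + F c (x - h) - 2 * F c x) / (h : ℂ) ^ 2)
      (𝓝[>] 0) (𝓝 0) := by
  have h1 := riemann (fun k : ℕ => c k * E k x + c (-k) * E (-k) x - if k = 0 then c 0 * E 0 x else 0)
    (fun t => (F c (x + t / π) + F c (x - t / π) - 2 * F c x) / ((t / π : ℝ) : ℂ) ^ 2) ?_ ?_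
  · have h2 : Tendsto (fun h : ℝ => π * h) (𝓝[>] 0) (𝓝[>] 0) := by
      apply tendsto_nhdsWithin_of_tendsto_nhds_of_eventually_within
      · have : Tendsto (fun h : ℝ => π * h) (𝓝 0) (𝓝 (π * 0)) :=
          (continuous_const.mul continuous_id).tendsto 0
        rw [mul_zero] at this
        exact this.mono_left nhdsWithin_le_nhds
      · filter_upwards [self_mem_nhdsWithin] with h hh
        exact mul_pos Real.pi_pos hh
    refine (h1.comp h2).congr fun h => ?_
    simp only [Function.comp]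
    rw [mul_div_cancel_left₀ _ Real.pi_ne_zero]
  · refine hx.congr fun N => ?_
    rw [sum_Icc_eq (fun n => c n * E n x)]
  · intro t ht
    have h2 := (hasSum_R hB x (t / π) (div_pos ht Real.pi_pos)).nat_add_neg.sub
      (hasSum_ite_eq (0 : ℕ) (c 0 * E 0 x * ((sinc (π * (0 : ℤ) * (t / π)) ^ 2 : ℝ) : ℂ)))
    rw [add_sub_cancel_right] at h2
    refine hasSum_of_eq h2 (fun k => ?_) rfl
    have e1 : π * ((k : ℤ) : ℝ) * (t / π) = k * t := by
      push_cast; field_simp
    have e2 : π * ((-(k : ℤ) : ℤ) : ℝ) * (t / π) = -(k * t) := by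
      push_cast; field_simp
    rw [e1, e2, sinc_neg]
    split_ifs with hk
    · subst hk; simp
    · ring

end

lemma sum_E (j : ℤ) (N : ℕ) (hN : 0 < N) :
    ∑ l ∈ Finset.range N, E j ((l : ℝ) * (1 / N)) = if (N : ℤ) ∣ j then (N : ℂ) else 0 := by
  have hN' : (N : ℝ) ≠ 0 := by exact_mod_cast hN.ne'
  have hN'' : (N : ℂ) ≠ 0 := by exact_mod_cast hN.ne'
  simp_rw [E_nat_mul]
  split_ifs with h
  · obtain ⟨k, rfl⟩ := h
    have : E (N * k) (1 / N) = 1 := by
      unfold E
      rw [Complex.exp_eq_one_iff]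
      exact ⟨k, by push_cast; field_simp⟩
    rw [this]
    simp
  · have h1 : E j (1 / N) ≠ 1 := by
      intro h1
      unfold E at h1
      rw [Complex.exp_eq_one_iff] at h1
      obtain ⟨k, hk⟩ := h1
      apply h
      refine ⟨k, ?_⟩
      have hp : (π : ℂ) ≠ 0 := by exact_mod_cast Real.pi_ne_zero
      push_cast at hk
      field_simp at hk
      exact_mod_cast hk
    rw [geom_sum_eq h1, ← E_nat_mul, mul_one_div_cancel hN']
    have := E_int j 1
    push_cast at this
    rw [this]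
    simp

theorem uniq (c : ℤ → ℂ) (N : ℕ → ℕ) (hN : Tendsto N atTop atTop)
    (h1 : ∀ x ∈ Set.Ioo (1 / 2 : ℝ) 1, Conv c x)
    (h2 : ∀ j x, sin (2 * π * (N j * x)) < 0 → Conv c x) (m : ℤ) : c m = 0 := by
  have hCL := cantor_lebesgue c fun x hx => (h1 x hx).terms
  have hsmall : ∀ ε > 0, ∃ M : ℕ, ∀ n : ℤ, (M : ℤ) ≤ |n| → ‖c n‖ < ε := by
    intro ε hε
    obtain ⟨M, hM⟩ := eventually_atTop.1 ((tendsto_order.1 hCL).2 ε hε)
    refine ⟨M, fun n hn => ?_⟩
    have := hM n.natAbs (by
      have b4 : (n.natAbs : ℤ) = |n| := Int.natCast_natAbs n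
      omega)
    have a1 := norm_nonneg (c (n.natAbs : ℤ))
    have a2 := norm_nonneg (c (-(n.natAbs : ℤ)))
    rcases Int.natAbs_eq n with h | h
    · rw [h]; linarith
    · rw [h]; linarith
  obtain ⟨B, hB⟩ : ∃ B, ∀ n, ‖c n‖ ≤ B := by
    obtain ⟨B, hB⟩ := hCL.bddAbove_range
    refine ⟨B, fun n => ?_⟩
    have := hB ⟨n.natAbs, rfl⟩
    have a1 := norm_nonneg (c (n.natAbs : ℤ))
    have a2 := norm_nonneg (c (-(n.natAbs : ℤ)))
    simp only at this
    rcases Int.natAbs_eq n with h | h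
    · rw [h]; linarith
    · rw [h]; linarith
  have hB0 : 0 ≤ B := (norm_nonneg _).trans (hB 0)
  let T : ℕ → ℤ → ℂ := fun j k => c (m + k * N j) *
    ((sinc (π * (m + k * N j : ℤ) * (1 / (8 * N j))) ^ 2 : ℝ) : ℂ) * E (k * N j) (3 / 4 * (1 / N j))
  have hT : ∀ j, 0 < N j → HasSum (T j) 0 := by
    intro j hj
    have hNr : (0 : ℝ) < N j := by exact_mod_cast hj
    have hNc : (N j : ℂ) ≠ 0 := by exact_mod_cast hj.ne'
    have hh : (0 : ℝ) < 1 / (8 * N j) := by positivity
    have hz : ∀ l : ℕ, HasSum (fun n : ℤ => c n * E n ((3 / 4 + l) * (1 / N j)) *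
        ((sinc (π * n * (1 / (8 * N j))) ^ 2 : ℝ) : ℂ)) 0 := by
      intro l
      have a1 := hasSum_R hB ((3 / 4 + l) * (1 / N j)) _ hh
      rw [schwarz (F c) (continuous_F hB) _ _ hh, zero_div] at a1
      · exact a1
      · intro x hx
        apply second_deriv hB
        apply h2 j
        have b1 : 5 / 8 + (l : ℝ) < N j * x := by
          have := mul_lt_mul_of_pos_left hx.1 hNr
          refine lt_of_eq_of_lt ?_ this
          field_simp
          ring
        have b2 : N j * x < 7 / 8 + (l : ℝ) := by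
          have := mul_lt_mul_of_pos_left hx.2 hNr
          refine lt_of_lt_of_eq this ?_
          field_simp
          ring
        have e : 2 * π * (N j * x) = 2 * π * (N j * x - l - 1) + ((l + 1 : ℕ) : ℝ) * (2 * π) := by
          push_cast; ring
        rw [e, Real.sin_add_nat_mul_two_pi]
        have := Real.pi_pos
        apply Real.sin_neg_of_neg_of_neg_pi_lt <;> nlinarith
    have hz2 := hasSum_sum (s := Finset.range (N j))
      (fun l _ => (hz l).mul_right (E (-m) ((3 / 4 + l) * (1 / N j)) / N j))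
    simp only [zero_mul, Finset.sum_const_zero] at hz2
    have hinj : Function.Injective (fun k : ℤ => m + k * N j) := by
      intro a b hab
      simp only [add_right_inj] at hab
      exact mul_right_cancel₀ (by exact_mod_cast hj.ne') hab
    have hform : ∀ n : ℤ, ∑ l ∈ Finset.range (N j), c n * E n ((3 / 4 + l) * (1 / N j)) *
        ((sinc (π * n * (1 / (8 * N j))) ^ 2 : ℝ) : ℂ) *
          (E (-m) ((3 / 4 + l) * (1 / N j)) / N j) =
        if (N j : ℤ) ∣ n - m then c n * ((sinc (π * n * (1 / (8 * N j))) ^ 2 : ℝ) : ℂ) *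
          E (n - m) (3 / 4 * (1 / N j)) else 0 := by
      intro n
      have : ∀ l : ℕ, c n * E n ((3 / 4 + l) * (1 / N j)) *
          ((sinc (π * n * (1 / (8 * N j))) ^ 2 : ℝ) : ℂ) *
          (E (-m) ((3 / 4 + l) * (1 / N j)) / N j) =
          (c n * ((sinc (π * n * (1 / (8 * N j))) ^ 2 : ℝ) : ℂ) *
            E (n - m) (3 / 4 * (1 / N j)) / N j) * E (n - m) (l * (1 / N j)) := by
        intro l
        have e1 : E n ((3 / 4 + l) * (1 / N j)) * E (-m) ((3 / 4 + l) * (1 / N j)) =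
            E (n - m) (3 / 4 * (1 / N j)) * E (n - m) (l * (1 / N j)) := by
          rw [← E_add', ← E_add, add_mul, sub_eq_add_neg]
        linear_combination
          (c n * ((sinc (π * n * (1 / (8 * N j))) ^ 2 : ℝ) : ℂ) / N j) * e1
      simp_rw [this]
      rw [← Finset.mul_sum, sum_E _ _ hj]
      split_ifs
      · field_simp
      · simp
    simp_rw [hform] at hz2
    rw [← hinj.hasSum_iff] at hz2
    · refine hasSum_of_eq hz2 (fun k => ?_) rfl
      simp only [Function.comp, add_sub_cancel_left, T]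
      rw [if_pos (Dvd.intro_left k rfl)]
    · intro n hn
      rw [if_neg]
      rintro ⟨k, hk⟩
      exact hn ⟨k, by simp only; linarith⟩
  have hlim : Tendsto (fun j => ∑' k, T j k) atTop
      (𝓝 (∑' k : ℤ, if k = 0 then c m else 0)) := by
    apply tendsto_tsum_of_dominated_convergence
      (bound := fun k : ℤ => (if k = 0 then B else 0) + 256 * (B * (1 / (k : ℝ) ^ 2)))
    · exact (hasSum_ite_eq (0 : ℤ) B).summable.add ((summable_aux hB).mul_left _)
    · intro k
      split_ifs with hk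
      · subst hk
        simp only [T, zero_mul, add_zero, E_zero, mul_one]
        have a1 : Tendsto (fun j => π * m * (1 / (8 * (N j : ℝ)))) atTop (𝓝 (π * m * 0)) := by
          apply Tendsto.const_mul
          apply Tendsto.const_div_atTop
          exact (tendsto_natCast_atTop_atTop.comp hN).const_mul_atTop (by norm_num)
        rw [mul_zero] at a1
        have a2 : Continuous fun t : ℝ => c m * ((sinc t ^ 2 : ℝ) : ℂ) := by
          have := continuous_sinc
          fun_prop
        have a3 := (a2.tendsto 0).comp a1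
        simpa [Function.comp_def] using a3
      · rw [Metric.tendsto_atTop]
        intro ε hε
        obtain ⟨M, hM⟩ := hsmall ε hε
        obtain ⟨J, hJ⟩ := eventually_atTop.1 (hN.eventually_ge_atTop (M + m.natAbs))
        refine ⟨J, fun j hj => ?_⟩
        simp only [dist_zero_right, T]
        rw [norm_mul, norm_mul, norm_E, mul_one, Complex.norm_real, Real.norm_eq_abs, abs_pow]
        have a1 : |sinc (π * (m + k * N j : ℤ) * (1 / (8 * N j)))| ^ 2 ≤ 1 :=
          pow_le_one₀ (abs_nonneg _) (abs_sinc_le_one _)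
        have a2 : ‖c (m + k * N j)‖ < ε := by
          apply hM
          have b1 := hJ j hj
          have b2 : (N j : ℤ) ≤ |k * N j| := by
            rw [abs_mul, Nat.abs_cast]
            have : 1 ≤ |k| := Int.one_le_abs hk
            nlinarith
          have b3 := abs_add_le (m + k * N j) (-m)
          rw [add_neg_cancel_comm, abs_neg] at b3
          have b4 : (m.natAbs : ℤ) = |m| := Int.natCast_natAbs m
          omega
        calc _ ≤ ‖c (m + k * N j)‖ * 1 := by gcongr
          _ < ε := by linarith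
    · filter_upwards [hN.eventually_ge_atTop (2 * m.natAbs + 1)] with j hj k
      simp only [T]
      rw [norm_mul, norm_mul, norm_E, mul_one, Complex.norm_real, Real.norm_eq_abs, abs_pow]
      split_ifs with hk
      · have a1 : |sinc (π * (m + k * N j : ℤ) * (1 / (8 * N j)))| ^ 2 ≤ 1 :=
          pow_le_one₀ (abs_nonneg _) (abs_sinc_le_one _)
        have : 0 ≤ 256 * (B * (1 / (k : ℝ) ^ 2)) := by positivity
        calc _ ≤ B * 1 := by gcongr; exact hB _
          _ ≤ _ := by linarith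
      · have hNr : (0 : ℝ) < N j := by exact_mod_cast (by omega : 0 < N j)
        have hk1 : (1 : ℝ) ≤ |(k : ℝ)| := by exact_mod_cast Int.one_le_abs hk
        have b1 : 2 * |(m : ℝ)| ≤ N j := by
          have : 2 * |m| ≤ (N j : ℤ) := by
            have b4 : (m.natAbs : ℤ) = |m| := Int.natCast_natAbs m
            omega
          exact_mod_cast this
        have b2 : |(k : ℝ)| * N j / 2 ≤ |((m + k * N j : ℤ) : ℝ)| := by
          push_cast
          have b3 := abs_add_le ((m : ℝ) + k * N j) (-m)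
          rw [add_neg_cancel_comm, abs_neg, abs_mul, Nat.abs_cast] at b3
          nlinarith
        have b3 : |(k : ℝ)| / 16 ≤ |π * (m + k * N j : ℤ) * (1 / (8 * N j))| := by
          rw [abs_mul, abs_mul, abs_of_pos Real.pi_pos, abs_of_pos (by positivity : (0 : ℝ) < 1 / (8 * N j))]
          have := Real.pi_gt_three
          calc |(k : ℝ)| / 16 = 1 * (|(k : ℝ)| * N j / 2) * (1 / (8 * N j)) := by
                field_simp; ring
            _ ≤ _ := by gcongr; linarith
        have b4 : π * (m + k * N j : ℤ) * (1 / (8 * N j)) ≠ 0 := by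
          intro h0
          rw [h0, abs_zero] at b3
          linarith
        have b5 : |sinc (π * (m + k * N j : ℤ) * (1 / (8 * N j)))| ≤ 16 / |(k : ℝ)| := by
          rw [sinc_of_ne_zero b4, abs_div, div_le_div_iff₀ (abs_pos.2 b4) (by linarith)]
          have := abs_sin_le_one (π * (m + k * N j : ℤ) * (1 / (8 * N j)))
          nlinarith
        calc _ ≤ B * (16 / |(k : ℝ)|) ^ 2 := by gcongr; exact hB _
          _ = _ := by rw [div_pow, sq_abs]; ring
  rw [tsum_ite_eq] at hlim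
  have hz : Tendsto (fun j => ∑' k, T j k) atTop (𝓝 0) := by
    refine tendsto_const_nhds.congr' ?_
    filter_upwards [hN.eventually_gt_atTop 0] with j hj
    exact (hT j hj).tsum_eq.symm
  exact tendsto_nhds_unique hlim hz

end Pool.Agent.H391Z.Uniq
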