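import Mathlib
import Pool.Agent.H391Z.UniqB

/-! Random binary expansions with prescribed zero digits. -/

open Filter Topology Real MeasureTheory Set
open scoped ENNReal

namespace Pool.Agent.H391Z.Meas

open Pool.Agent.H391Z.Uniq

/-- the fair coin -/
noncomputable def coin : Measure Bool :=
  (2 : ℝ≥0∞)⁻¹ • Measure.dirac true + (2 : ℝ≥0∞)⁻¹ • Measure.dirac false

instance : IsProbabilityMeasure coin := ⟨by simp [coin, ENNReal.inv_two_add_inv_two]⟩

lemma coin_not : coin.map (fun b => !b) = coin := by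
  have hm : Measurable (fun b : Bool => !b) := measurable_from_top
  unfold coin
  rw [Measure.map_add _ _ hm, Measure.map_smul, Measure.map_smul, Measure.map_dirac' hm,
    Measure.map_dirac' hm, add_comm]
  simp

/-- independent fair coins -/
noncomputable def P : Measure (ℕ → Bool) := Measure.infinitePi fun _ => coin

instance : IsProbabilityMeasure P := by unfold P; infer_instance

/-- flip one coin -/
def flp (i : ℕ) (ω : ℕ → Bool) : ℕ → Bool := fun j => if j = i then !ω j else ω j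

lemma measurable_flp (i : ℕ) : Measurable (flp i) := by
  refine measurable_pi_lambda _ fun j => ?_
  have : Measurable fun b : Bool => if j = i then !b else b := measurable_from_top
  exact this.comp (measurable_pi_apply j)

lemma map_flp (i : ℕ) : P.map (flp i) = P := by
  have := Measure.infinitePi_map_pi (μ := fun _ : ℕ => coin)
    (f := fun j (b : Bool) => if j = i then !b else b) (fun j => measurable_from_top)
  unfold P
  refine this.trans ?_
  congr 1
  funext j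
  split_ifs
  · exact coin_not
  · simp

open Classical in
/-- the weighted digits -/
noncomputable def d (Z : Set ℕ) (ω : ℕ → Bool) (i : ℕ) : ℝ :=
  if i ∉ Z ∧ ω i = true then (1 / 2) ^ (i + 1) else 0

lemma d_nonneg (Z : Set ℕ) (ω : ℕ → Bool) (i : ℕ) : 0 ≤ d Z ω i := by
  unfold d; split_ifs <;> positivity

lemma d_le (Z : Set ℕ) (ω : ℕ → Bool) (i : ℕ) : d Z ω i ≤ (1 / 2) ^ (i + 1) := by
  unfold d; split_ifs
  · rfl
  · positivity

lemma hasSum_half (n : ℕ) : HasSum (fun i : ℕ => (1 / 2 : ℝ) ^ (i + n + 1)) ((1 / 2) ^ n) := by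
  have := hasSum_geometric_two.mul_left ((1 / 2 : ℝ) ^ (n + 1))
  have e : (1 / 2 : ℝ) ^ (n + 1) * 2 = (1 / 2) ^ n := by ring
  rw [e] at this
  have e2 : (fun i : ℕ => (1 / 2 : ℝ) ^ (i + n + 1)) =
      fun i => (1 / 2 : ℝ) ^ (n + 1) * (1 / 2) ^ i := by
    funext i; ring
  rw [e2]
  exact this

lemma summable_d (Z : Set ℕ) (ω : ℕ → Bool) : Summable (d Z ω) :=
  Summable.of_nonneg_of_le (d_nonneg Z ω) (d_le Z ω) (by simpa using (hasSum_half 0).summable)

/-- the random number -/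
noncomputable def X (Z : Set ℕ) (ω : ℕ → Bool) : ℝ := ∑' i, d Z ω i

lemma measurable_X (Z : Set ℕ) : Measurable (X Z) := by
  classical
  have h1 : ∀ i, Measurable fun ω => d Z ω i := by
    intro i
    have : Measurable fun b : Bool =>
      if i ∉ Z ∧ b = true then ((1 / 2) ^ (i + 1) : ℝ) else 0 := measurable_from_top
    have h2 := this.comp (measurable_pi_apply (X := fun _ : ℕ => Bool) i)
    convert h2 using 1
    funext ω
    simp only [d, Function.comp]
  refine measurable_of_tendsto_metrizable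
    (f := fun N ω => ∑ i ∈ Finset.range N, d Z ω i) (fun N => ?_) ?_
  · exact Finset.measurable_sum _ fun i _ => h1 i
  · rw [tendsto_pi_nhds]
    exact fun ω => (summable_d Z ω).hasSum.tendsto_sum_nat

lemma X_mem (Z : Set ℕ) (ω : ℕ → Bool) : X Z ω ∈ Icc (0 : ℝ) 1 := by
  refine ⟨tsum_nonneg (d_nonneg Z ω), ?_⟩
  have := hasSum_le (d_le Z ω) (summable_d Z ω).hasSum (by simpa using hasSum_half 0)
  simpa [X] using this

lemma X_sin (Z : Set ℕ) (ω : ℕ → Bool) (p : ℕ) (hp : p ∈ Z) :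
    0 ≤ sin (2 * π * (((2 ^ p : ℕ) : ℝ) * X Z ω)) := by
  have h1 := (summable_d Z ω).sum_add_tsum_nat_add (p + 1)
  have h2 : d Z ω p = 0 := by simp [d, hp]
  rw [Finset.sum_range_succ, h2, add_zero] at h1
  have h3 : ∀ i ∈ Finset.range p, ∃ k : ℕ, (2 : ℝ) ^ p * d Z ω i = k := by
    intro i hi
    unfold d
    split_ifs
    · refine ⟨2 ^ (p - (i + 1)), ?_⟩
      have hi' : i + 1 ≤ p := Finset.mem_range.1 hi
      obtain ⟨e, rfl⟩ := Nat.exists_eq_add_of_le hi'
      rw [Nat.add_sub_cancel_left]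
      push_cast
      rw [pow_add, one_div, inv_pow]
      field_simp
    · exact ⟨0, by simp⟩
  choose! k hk using h3
  have h4 : (2 : ℝ) ^ p * ∑ i ∈ Finset.range p, d Z ω i = ((∑ i ∈ Finset.range p, k i : ℕ) : ℝ) := by
    rw [Finset.mul_sum]
    push_cast
    exact Finset.sum_congr rfl hk
  set t := ∑' i, d Z ω (i + (p + 1)) with ht
  have h5 : 0 ≤ t := tsum_nonneg fun i => d_nonneg Z ω _
  have h6 : t ≤ (1 / 2) ^ (p + 1) :=
    hasSum_le (fun i => d_le Z ω (i + (p + 1)))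
      ((summable_nat_add_iff (p + 1)).2 (summable_d Z ω)).hasSum (hasSum_half (p + 1))
  have h7 : (2 : ℝ) ^ p * t ≤ 1 / 2 := by
    calc (2 : ℝ) ^ p * t ≤ 2 ^ p * (1 / 2) ^ (p + 1) := by gcongr
      _ = 1 / 2 := by rw [pow_succ, ← mul_assoc, ← mul_pow]; norm_num
  have e : 2 * π * (((2 ^ p : ℕ) : ℝ) * X Z ω) = 2 * π * (2 ^ p * t) +
      ((∑ i ∈ Finset.range p, k i : ℕ) : ℝ) * (2 * π) := by
    rw [← h4, X, ← h1]
    push_cast
    ring
  rw [e, Real.sin_add_nat_mul_two_pi]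
  have := Real.pi_pos
  apply Real.sin_nonneg_of_nonneg_of_le_pi
  · positivity
  · nlinarith

lemma X_insert (Z : Set ℕ) (i : ℕ) (hi : i ∉ Z) (ω : ℕ → Bool) :
    X Z ω = X (insert i Z) ω + if ω i = true then (1 / 2) ^ (i + 1) else 0 := by
  have h1 := (summable_d (insert i Z) ω).hasSum.add
    (hasSum_ite_eq i (if ω i = true then ((1 / 2) ^ (i + 1) : ℝ) else 0))
  unfold X
  rw [← h1.tsum_eq]
  congr 1
  funext j
  unfold d
  by_cases hj : j = i
  · subst hj
    simp [hi]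
  · have : j ∈ insert i Z ↔ j ∈ Z := by simp [hj]
    rw [if_neg hj, add_zero]
    by_cases hc : j ∉ Z ∧ ω j = true
    · rw [if_pos hc, if_pos (by rw [this]; exact hc)]
    · rw [if_neg hc, if_neg (by rw [this]; exact hc)]

lemma X_flp (Z : Set ℕ) (i : ℕ) (ω : ℕ → Bool) : X (insert i Z) (flp i ω) = X (insert i Z) ω := by
  unfold X
  congr 1
  funext j
  unfold d
  by_cases hj : j = i
  · subst hj
    simp
  · have : flp i ω j = ω j := by simp [flp, hj]
    rw [this]

/-- the law of the random number -/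
noncomputable def μ (Z : Set ℕ) : Measure ℝ := P.map (X Z)

instance (Z : Set ℕ) : IsProbabilityMeasure (μ Z) :=
  Measure.isProbabilityMeasure_map (measurable_X Z).aemeasurable

lemma meas_bit (i : ℕ) (s : Bool) : MeasurableSet {ω : ℕ → Bool | ω i = s} :=
  measurableSet_eq_fun (measurable_pi_apply i) measurable_const

lemma half (Z : Set ℕ) (i : ℕ) (B : Set ℝ) (hB : MeasurableSet B) (s : Bool) :
    P (X (insert i Z) ⁻¹' B ∩ {ω | ω i = s}) = 2⁻¹ * μ (insert i Z) B := by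
  have hm : ∀ s : Bool, MeasurableSet {ω : ℕ → Bool | ω i = s} := fun s => meas_bit i s
  have hX := measurable_X (insert i Z) hB
  have h1 : P (X (insert i Z) ⁻¹' B ∩ {ω | ω i = s}) =
      P (X (insert i Z) ⁻¹' B ∩ {ω | ω i = !s}) := by
    conv_lhs => rw [← map_flp i]
    rw [Measure.map_apply (measurable_flp i) (hX.inter (hm s))]
    congr 1
    ext ω
    simp only [mem_preimage, mem_inter_iff, X_flp, mem_ofPred_eq, flp, if_true]
    cases ω i <;> cases s <;> simp
  have h2 := measure_inter_add_diff (μ := P) (X (insert i Z) ⁻¹' B) (hm s)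
  have h3 : X (insert i Z) ⁻¹' B \ {ω | ω i = s} = X (insert i Z) ⁻¹' B ∩ {ω | ω i = !s} := by
    ext ω
    simp only [mem_diff, mem_inter_iff, mem_ofPred_eq]
    cases ω i <;> cases s <;> simp
  rw [h3, ← h1, ← two_mul] at h2
  rw [μ, Measure.map_apply (measurable_X _) hB, ← h2, ← mul_assoc,
    ENNReal.inv_mul_cancel (by norm_num) (by norm_num), one_mul]

lemma step (Z : Set ℕ) (i : ℕ) (hi : i ∉ Z) :
    μ Z = (2 : ℝ≥0∞)⁻¹ • μ (insert i Z) +
      (2 : ℝ≥0∞)⁻¹ • (μ (insert i Z)).map (fun x => x + (1 / 2) ^ (i + 1)) := by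
  ext A hA
  have hm : MeasurableSet {ω : ℕ → Bool | ω i = false} := meas_bit i false
  have hc : Measurable fun x : ℝ => x + (1 / 2) ^ (i + 1) := by fun_prop
  rw [Measure.add_apply, Measure.smul_apply, Measure.smul_apply, smul_eq_mul, smul_eq_mul,
    Measure.map_apply hc hA, ← half Z i A hA false, ← half Z i _ (hc hA) true,
    μ, Measure.map_apply (measurable_X _) hA,
    ← measure_inter_add_diff (μ := P) (X Z ⁻¹' A) hm]
  congr 2
  · ext ω
    simp only [mem_inter_iff, mem_preimage, mem_ofPred_eq, X_insert Z i hi ω]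
    cases ω i <;> simp
  · ext ω
    simp only [mem_diff, mem_inter_iff, mem_preimage, mem_ofPred_eq, X_insert Z i hi ω]
    cases ω i <;> simp

/-- Fourier coefficients -/
noncomputable def Φ (Z : Set ℕ) (ξ : ℤ) : ℂ := ∫ x, E ξ x ∂(μ Z)

lemma integrable_E (ρ : Measure ℝ) [IsFiniteMeasure ρ] (ξ : ℤ) : Integrable (E ξ) ρ :=
  Integrable.of_bound (continuous_E ξ).aestronglyMeasurable 1
    (Eventually.of_forall fun x => (norm_E ξ x).le)

lemma norm_Φ (Z : Set ℕ) (ξ : ℤ) : ‖Φ Z ξ‖ ≤ 1 := by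
  have := norm_integral_le_of_norm_le_const (μ := μ Z) (f := E ξ) (C := 1)
    (Eventually.of_forall fun x => (norm_E ξ x).le)
  simpa [Φ] using this

lemma Φ_step (Z : Set ℕ) (i : ℕ) (hi : i ∉ Z) (ξ : ℤ) :
    2 * Φ Z ξ = Φ (insert i Z) ξ * (1 + E ξ ((1 / 2) ^ (i + 1))) := by
  have hc : Measurable fun x : ℝ => x + (1 / 2) ^ (i + 1) := by fun_prop
  unfold Φ
  conv_lhs => rw [step Z i hi]
  rw [integral_add_measure ((integrable_E _ ξ).smul_measure (by norm_num))
    ((integrable_E _ ξ).smul_measure (by norm_num)), integral_smul_measure, integral_smul_measure,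
    integral_map hc.aemeasurable (continuous_E ξ).aestronglyMeasurable]
  simp_rw [E_add]
  rw [integral_mul_const]
  simp
  ring

lemma insert_Ico (Z : Set ℕ) (a L : ℕ) :
    insert (a + L) (Z ∪ Ico a (a + L)) = Z ∪ Ico a (a + (L + 1)) := by
  ext i
  simp only [mem_insert_iff, mem_union, mem_Ico]
  constructor
  · rintro (h | h | h)
    · right; omega
    · left; exact h
    · right; omega
  · rintro (h | h)
    · right; left; exact h
    · by_cases hi : i = a + L
      · left; exact hi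
      · right; right; omega

lemma Φ_block (Z : Set ℕ) (a L : ℕ) (hZ : ∀ i, a ≤ i → i < a + L → i ∉ Z) (ξ : ℤ) :
    2 ^ L * Φ Z ξ = Φ (Z ∪ Ico a (a + L)) ξ *
      ∏ i ∈ Finset.range L, (1 + E ξ ((1 / 2) ^ (a + i + 1))) := by
  induction L with
  | zero => simp
  | succ L ih =>
    have ih := ih fun i h1 h2 => hZ i h1 (by omega)
    have h1 : a + L ∉ Z ∪ Ico a (a + L) := by
      simp only [mem_union, mem_Ico, lt_self_iff_false, and_false, or_false]
      exact hZ _ (by omega) (by omega)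
    have h2 := Φ_step _ _ h1 ξ
    rw [insert_Ico] at h2
    rw [Finset.prod_range_succ]
    linear_combination 2 * ih + (∏ i ∈ Finset.range L, (1 + E ξ ((1 / 2) ^ (a + i + 1)))) * h2

lemma prod_tele (ξ : ℤ) (a L : ℕ) :
    (∏ i ∈ Finset.range L, (1 + E ξ ((1 / 2) ^ (a + i + 1)))) * (1 - E ξ ((1 / 2) ^ (a + L))) =
      1 - E ξ ((1 / 2) ^ a) := by
  induction L with
  | zero => simp
  | succ L ih =>
    have h4 : E ξ ((1 / 2) ^ (a + L)) =
        E ξ ((1 / 2) ^ (a + L + 1)) * E ξ ((1 / 2) ^ (a + L + 1)) := by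
      rw [← E_add]
      congr 1
      ring
    rw [Finset.prod_range_succ, ← ih, h4, ← add_assoc]
    ring

lemma norm_one_sub_E (ξ : ℤ) (t : ℝ) (h : |ξ * t| ≤ 1 / 2) : 4 * |ξ * t| ≤ ‖1 - E ξ t‖ := by
  rw [E_eq, norm_sub_rev, mul_comm _ Complex.I, Complex.norm_exp_I_mul_ofReal_sub_one]
  have e : 2 * π * ξ * t / 2 = π * (ξ * t) := by ring
  rw [e, norm_mul, Real.norm_eq_abs, Real.norm_eq_abs, abs_two]
  have hp := Real.pi_pos
  have h1 := Real.mul_abs_le_abs_sin (x := π * (ξ * t)) (by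
    rw [abs_mul, abs_of_pos hp]; nlinarith)
  rw [abs_mul π, abs_of_pos hp] at h1
  have e2 : 2 / π * (π * |ξ * t|) = 2 * |ξ * t| := by field_simp
  rw [e2] at h1
  linarith

lemma Φ_bound (Z : Set ℕ) (h0 : 0 ∈ Z) (ξ : ℤ) (hξ : ξ ≠ 0) :
    ∃ q ∈ Z, (2 : ℝ) ^ q ≤ 2 * |(ξ : ℝ)| ∧ ‖Φ Z ξ‖ ≤ 2 ^ q / |(ξ : ℝ)| := by
  classical
  have hx : (1 : ℝ) ≤ |(ξ : ℝ)| := by exact_mod_cast Int.one_le_abs hξ
  have hex : ∃ n : ℕ, 2 * |(ξ : ℝ)| ≤ 2 ^ (n + 1) := by
    obtain ⟨n, hn⟩ := pow_unbounded_of_one_lt (|(ξ : ℝ)|) (by norm_num : (1 : ℝ) < 2)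
    exact ⟨n, by rw [pow_succ]; linarith⟩
  set n := Nat.find hex with hn
  have hn1 : 2 * |(ξ : ℝ)| ≤ 2 ^ (n + 1) := Nat.find_spec hex
  have hn2 : (2 : ℝ) ^ n ≤ 2 * |(ξ : ℝ)| := by
    rcases Nat.eq_zero_or_pos n with h | h
    · rw [h]; linarith
    · have := Nat.find_min hex (m := n - 1) (by omega)
      rw [Nat.sub_add_cancel h] at this
      exact (not_le.1 this).le
  set q := Nat.findGreatest (· ∈ Z) n with hq
  have hq1 : q ∈ Z := Nat.findGreatest_spec (P := (· ∈ Z)) (Nat.zero_le n) h0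
  have hq2 : q ≤ n := Nat.findGreatest_le n
  refine ⟨q, hq1, le_trans (by gcongr; norm_num) hn2, ?_⟩
  obtain ⟨L, hL⟩ := Nat.exists_eq_add_of_le hq2
  have h1 := Φ_block Z (q + 1) L (fun i h1 h2 =>
    Nat.findGreatest_is_greatest (P := (· ∈ Z)) (n := n) (by omega) (by omega)) ξ
  have h2 := prod_tele ξ (q + 1) L
  have h3 : 2 ^ L * Φ Z ξ * (1 - E ξ ((1 / 2) ^ (q + 1 + L))) =
      Φ (Z ∪ Ico (q + 1) (q + 1 + L)) ξ * (1 - E ξ ((1 / 2) ^ (q + 1))) := by
    rw [h1, mul_assoc, h2]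
  have h4 := congrArg norm h3
  rw [norm_mul, norm_mul, norm_mul, norm_pow, Complex.norm_two] at h4
  have e : q + 1 + L = n + 1 := by omega
  have hp : (0 : ℝ) < 2 ^ (n + 1) := by positivity
  have e2 : |(ξ : ℝ) * (1 / 2) ^ (q + 1 + L)| = |(ξ : ℝ)| / 2 ^ (n + 1) := by
    rw [e, abs_mul, abs_of_pos (by positivity : (0 : ℝ) < (1 / 2) ^ (n + 1)), one_div, inv_pow,
      div_eq_mul_inv]
  have h5 := norm_one_sub_E ξ ((1 / 2) ^ (q + 1 + L)) (by
    rw [e2, div_le_iff₀ hp]; linarith)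
  rw [e2] at h5
  have h6 : ‖1 - E ξ ((1 / 2) ^ (q + 1))‖ ≤ 2 := by
    refine (norm_sub_le _ _).trans ?_
    rw [norm_E, norm_one]; norm_num
  have h7 := norm_Φ (Z ∪ Ico (q + 1) (q + 1 + L)) ξ
  have h8 : 2 ^ L * ‖Φ Z ξ‖ * (4 * (|(ξ : ℝ)| / 2 ^ (n + 1))) ≤ 1 * 2 := by
    calc _ ≤ 2 ^ L * ‖Φ Z ξ‖ * ‖1 - E ξ ((1 / 2) ^ (q + 1 + L))‖ := by gcongr
      _ = _ := h4
      _ ≤ 1 * 2 := by gcongr
  rw [le_div_iff₀ (by linarith)]
  have e3 : (2 : ℝ) ^ (n + 1) = 2 ^ q * 2 ^ L * 2 := by rw [hL]; ring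
  have e4 : 2 ^ L * ‖Φ Z ξ‖ * (4 * (|(ξ : ℝ)| / 2 ^ (n + 1))) =
      2 * (‖Φ Z ξ‖ * |(ξ : ℝ)|) / 2 ^ q := by
    rw [e3]; field_simp; ring
  rw [e4, div_le_iff₀ (by positivity)] at h8
  linarith

lemma sum_two_mul {M : Type} [AddCommMonoid M] (f : ℕ → M) (n : ℕ) :
    ∑ j ∈ Finset.range (2 * n), f j = ∑ k ∈ Finset.range n, (f (2 * k) + f (2 * k + 1)) := by
  induction n with
  | zero => simp
  | succ n ih =>
    rw [mul_add, mul_one, Finset.sum_range_succ, Finset.sum_range_succ, ih,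
      Finset.sum_range_succ, add_assoc]

open Classical in
lemma mass_aux (Z : Set ℕ) (y δ : ℝ) (m : ℕ) :
    2 ^ m * μ Z (Ico y (y + δ)) ≤ 2 ^ ((Finset.range m).filter (· ∈ Z)).card *
      ∑ k ∈ Finset.range (2 ^ m), μ (Z ∪ Ico 0 (0 + m))
        (Ico (y - k * (1 / 2) ^ m) (y - k * (1 / 2) ^ m + δ)) := by
  induction m with
  | zero => simp
  | succ m ih =>
    have e1 : ∀ k : ℕ, ((2 * k : ℕ) : ℝ) * (1 / 2) ^ (m + 1) = k * (1 / 2) ^ m := by
      intro k; push_cast; ring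
    have e2 : ∀ k : ℕ, ((2 * k + 1 : ℕ) : ℝ) * (1 / 2) ^ (m + 1) =
        k * (1 / 2) ^ m + (1 / 2) ^ (m + 1) := by
      intro k; push_cast; ring
    rw [pow_succ' 2 m, pow_succ' 2 m, sum_two_mul, mul_assoc, ← insert_Ico]
    simp_rw [e1, e2]
    rw [Finset.range_add_one, Finset.filter_insert]
    by_cases hm : m ∈ Z
    · rw [if_pos hm, Finset.card_insert_of_notMem (by simp), pow_succ', mul_assoc]
      rw [insert_eq_of_mem (by simp [hm])]
      refine mul_le_mul_right (ih.trans ?_) _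
      gcongr
      exact le_self_add
    · rw [if_neg hm]
      have h1 : 0 + m ∉ Z ∪ Ico 0 (0 + m) := by simp [hm]
      have hc : Measurable fun x : ℝ => x + (1 / 2) ^ (0 + m + 1) := by fun_prop
      refine (mul_le_mul_right ih _).trans (le_of_eq ?_)
      rw [mul_left_comm, Finset.mul_sum]
      congr 1
      refine Finset.sum_congr rfl fun k _ => ?_
      conv_lhs => rw [step _ _ h1]
      rw [Measure.add_apply, Measure.smul_apply, Measure.smul_apply, smul_eq_mul, smul_eq_mul,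
        Measure.map_apply hc measurableSet_Ico, preimage_add_const_Ico, mul_add, ← mul_assoc,
        ← mul_assoc, ENNReal.mul_inv_cancel (by norm_num) (by norm_num), one_mul, one_mul]
      congr 3 <;> simp only [zero_add] <;> ring

open Classical in
lemma mass (Z : Set ℕ) (y : ℝ) (n : ℕ) :
    2 ^ n * μ Z (Ico y (y + (1 / 2) ^ n)) ≤ 2 ^ ((Finset.range n).filter (· ∈ Z)).card := by
  refine (mass_aux Z y _ n).trans ?_
  rw [← measure_biUnion_finset]
  · exact mul_le_of_le_one_right' prob_le_one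
  · intro a _ b _ hab
    have hp : (0 : ℝ) < (1 / 2) ^ n := by positivity
    simp only [Function.onFun]
    rw [Set.disjoint_left]
    rintro x ⟨h1, h2⟩ ⟨h3, h4⟩
    rcases lt_or_gt_of_ne hab with h | h
    · have : (a : ℝ) + 1 ≤ b := by exact_mod_cast h
      nlinarith
    · have : (b : ℝ) + 1 ≤ a := by exact_mod_cast h
      nlinarith
  · exact fun _ _ => measurableSet_Ico

end Pool.Agent.H391Z.Meas
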