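import Mathlib
import Pool.Agent.H391Z.MeasC

/-! Second moments of exponential sums and almost sure convergence. -/

open Filter Topology Real MeasureTheory Set
open scoped ENNReal

namespace Pool.Agent.H391Z.Meas

open Pool.Agent.H391Z.Uniq

lemma geo (T A b : ℝ) (hT : 0 ≤ T) (hA : 0 ≤ A) (hb : 2 ≤ b) (N : ℕ) :
    ∑ n ∈ Finset.range N, (if T ≤ A * b ^ n then T / b ^ n else 0) ≤ 2 * A := by
  have hb0 : 0 < b := by linarith
  have key : ∑ n ∈ Finset.range N, (if T ≤ A * b ^ n then T / b ^ n else 0) ≤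
      2 * A - 2 * min A (T / b ^ N) := by
    induction N with
    | zero =>
      have := min_le_left A (T / b ^ 0)
      simp only [Finset.range_zero, Finset.sum_empty]
      linarith
    | succ N ih =>
      rw [Finset.sum_range_succ]
      have hp : 0 < b ^ N := by positivity
      have h1 : T / b ^ (N + 1) ≤ T / b ^ N / 2 := by
        rw [pow_succ, ← div_div]
        gcongr
      have h0 : 0 ≤ T / b ^ N := by positivity
      split_ifs with h
      · have h2 : T / b ^ N ≤ A := by rwa [div_le_iff₀ hp]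
        rw [min_eq_right h2] at ih
        have h3 : 0 ≤ T / b ^ (N + 1) := by positivity
        have h4 := min_le_right A (T / b ^ (N + 1))
        linarith
      · have h2 : min A (T / b ^ (N + 1)) ≤ min A (T / b ^ N) :=
          min_le_min le_rfl (by linarith)
        linarith
  have : 0 ≤ min A (T / b ^ N) := le_min hA (by positivity)
  linarith

lemma conj_E (n : ℤ) (x : ℝ) : (starRingEnd ℂ) (E n x) = E (-n) x := by
  unfold E
  rw [← Complex.exp_conj]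
  congr 1
  simp [map_ofNat]

lemma E_mul (h : ℤ) (x : ℝ) (b n : ℕ) : E h (x * (b : ℝ) ^ n) = E (h * (b : ℤ) ^ n) x := by
  unfold E
  congr 1
  push_cast
  ring

lemma moment_le (Z : Set ℕ) (a : ℕ → ℤ) (N : ℕ) :
    ∫ x, ‖∑ n ∈ Finset.range N, E (a n) x‖ ^ 2 ∂(μ Z) ≤
      ∑ n ∈ Finset.range N, ∑ m ∈ Finset.range N, ‖Φ Z (a n - a m)‖ := by
  have h1 : ∀ x, ((‖∑ n ∈ Finset.range N, E (a n) x‖ ^ 2 : ℝ) : ℂ) =
      ∑ n ∈ Finset.range N, ∑ m ∈ Finset.range N, E (a n - a m) x := by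
    intro x
    push_cast
    rw [← Complex.mul_conj', map_sum, Finset.sum_mul_sum]
    refine Finset.sum_congr rfl fun n _ => Finset.sum_congr rfl fun m _ => ?_
    rw [conj_E, ← E_add', sub_eq_add_neg]
  have h2 : ((∫ x, ‖∑ n ∈ Finset.range N, E (a n) x‖ ^ 2 ∂(μ Z) : ℝ) : ℂ) =
      ∑ n ∈ Finset.range N, ∑ m ∈ Finset.range N, Φ Z (a n - a m) := by
    rw [← integral_complex_ofReal]
    simp_rw [h1]
    rw [integral_finset_sum _ fun n _ => integrable_finset_sum _ fun m _ => integrable_E _ _]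
    refine Finset.sum_congr rfl fun n _ => ?_
    rw [integral_finset_sum _ fun m _ => integrable_E _ _]
    rfl
  have h3 := congrArg norm h2
  rw [Complex.norm_real, Real.norm_eq_abs] at h3
  refine (le_abs_self _).trans (h3.le.trans ?_)
  exact (norm_sum_le _ _).trans (Finset.sum_le_sum fun n _ => norm_sum_le _ _)

section
variable (g : ℕ → ℕ) (hg0 : g 0 = 0) (hg : ∀ j, j ^ 2 ≤ g j) (h : ℤ) (hh : h ≠ 0) (b : ℕ)
  (hb : 2 ≤ b)
include hg0 hg hh hb

/-- the weight -/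
noncomputable def wt (g : ℕ → ℕ) (h : ℤ) (b J n : ℕ) : ℝ :=
  ∑ j ∈ Finset.range J, 2 * (if (2 : ℝ) ^ g j ≤ 2 * |(h : ℝ)| * (b : ℝ) ^ n then
    (2 : ℝ) ^ g j / (b : ℝ) ^ n else 0)

omit hg0 hg hh hb in
lemma wt_nonneg (J n : ℕ) : 0 ≤ wt g h b J n := by
  unfold wt
  refine Finset.sum_nonneg fun j _ => ?_
  split_ifs <;> positivity

lemma Φ_le_wt (k n m : ℕ) (hn : n < (k + 1) ^ 4) (hmn : m < n) (ξ : ℤ)
    (hξ : |ξ| = |h * (b : ℤ) ^ n - h * (b : ℤ) ^ m|) :
    ‖Φ (range g) ξ‖ ≤ wt g h b ((h.natAbs + 1 + b) * (k + 1) ^ 2 + 1) n := by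
  have hb2 : (2 : ℝ) ≤ b := by exact_mod_cast hb
  have hh1 : (1 : ℝ) ≤ |(h : ℝ)| := by exact_mod_cast Int.one_le_abs hh
  have hp : (0 : ℝ) < (b : ℝ) ^ m := by positivity
  have hpn : (0 : ℝ) < (b : ℝ) ^ n := by positivity
  have h1 : 2 * (b : ℝ) ^ m ≤ (b : ℝ) ^ n := by
    calc 2 * (b : ℝ) ^ m ≤ b * (b : ℝ) ^ m := by gcongr
      _ = (b : ℝ) ^ (m + 1) := by ring
      _ ≤ _ := pow_le_pow_right₀ (by linarith) hmn
  have h2 : |(ξ : ℝ)| = |(h : ℝ)| * ((b : ℝ) ^ n - (b : ℝ) ^ m) := by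
    have : |(ξ : ℝ)| = |(h : ℝ) * (b : ℝ) ^ n - h * (b : ℝ) ^ m| := by exact_mod_cast hξ
    rw [this, ← mul_sub, abs_mul, abs_of_nonneg (by linarith : 0 ≤ (b : ℝ) ^ n - (b : ℝ) ^ m)]
  have h3 : (b : ℝ) ^ n / 2 ≤ |(ξ : ℝ)| := by rw [h2]; nlinarith
  have h4 : |(ξ : ℝ)| ≤ |(h : ℝ)| * (b : ℝ) ^ n := by rw [h2]; nlinarith
  have hξ0 : ξ ≠ 0 := by
    rintro rfl
    simp only [Int.cast_zero, abs_zero] at h3
    linarith
  obtain ⟨q, ⟨j, rfl⟩, hq1, hq2⟩ := Φ_bound (range g) ⟨0, hg0⟩ ξ hξ0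
  have h5 : (2 : ℝ) ^ g j ≤ 2 * |(h : ℝ)| * (b : ℝ) ^ n := by linarith
  have hj : j < (h.natAbs + 1 + b) * (k + 1) ^ 2 + 1 := by
    have a1 : 2 ^ g j ≤ 2 * h.natAbs * b ^ n := by
      have : ((h.natAbs : ℕ) : ℝ) = |(h : ℝ)| := by
        rw [Nat.cast_natAbs]; push_cast; rfl
      rw [← this] at h5
      exact_mod_cast h5
    have a2 : 2 * h.natAbs * b ^ n ≤ 2 ^ (h.natAbs + 1 + b * n) := by
      have b1 : h.natAbs ≤ 2 ^ h.natAbs := Nat.lt_two_pow_self.le
      have b2 : b ≤ 2 ^ b := Nat.lt_two_pow_self.le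
      calc 2 * h.natAbs * b ^ n ≤ 2 * 2 ^ h.natAbs * (2 ^ b) ^ n := by gcongr
        _ = _ := by rw [← pow_mul]; ring
    have a3 : g j ≤ h.natAbs + 1 + b * n := (Nat.pow_le_pow_iff_right (by norm_num)).1 (a1.trans a2)
    have a4 := (hg j).trans a3
    have a5 : 1 ≤ (k + 1) ^ 4 := Nat.one_le_pow _ _ (by omega)
    have a6 : j ^ 2 ≤ ((h.natAbs + 1 + b) * (k + 1) ^ 2) ^ 2 := by
      calc j ^ 2 ≤ (h.natAbs + 1) * 1 + b * n := by omega
        _ ≤ (h.natAbs + 1) * (k + 1) ^ 4 + b * (k + 1) ^ 4 := by gcongr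
        _ = (h.natAbs + 1 + b) * 1 * (k + 1) ^ 4 := by ring
        _ ≤ (h.natAbs + 1 + b) * (h.natAbs + 1 + b) * (k + 1) ^ 4 := by gcongr; omega
        _ = _ := by ring
    have := (Nat.pow_le_pow_iff_left (by norm_num)).1 a6
    omega
  refine hq2.trans (le_trans ?_ (Finset.single_le_sum (f := fun j =>
    2 * (if (2 : ℝ) ^ g j ≤ 2 * |(h : ℝ)| * (b : ℝ) ^ n then (2 : ℝ) ^ g j / (b : ℝ) ^ n else 0))
    (fun j _ => by split_ifs <;> positivity) (Finset.mem_range.2 hj)))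
  simp only [if_pos h5]
  calc (2 : ℝ) ^ g j / |(ξ : ℝ)| ≤ 2 ^ g j / ((b : ℝ) ^ n / 2) := by gcongr
    _ = _ := by field_simp

omit hg0 hg hh in
lemma sum_wt (J N : ℕ) : ∑ n ∈ Finset.range N, wt g h b J n ≤ J * (8 * |(h : ℝ)|) := by
  have hb2 : (2 : ℝ) ≤ b := by exact_mod_cast hb
  unfold wt
  rw [Finset.sum_comm]
  calc _ ≤ ∑ _j ∈ Finset.range J, 8 * |(h : ℝ)| := by
        refine Finset.sum_le_sum fun j _ => ?_
        rw [← Finset.mul_sum]
        have := geo (2 ^ g j) (2 * |(h : ℝ)|) b (by positivity) (by positivity) hb2 N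
        linarith
    _ = _ := by simp

lemma moment (k : ℕ) :
    ∫ x, ‖∑ n ∈ Finset.range ((k + 1) ^ 4), E (h * (b : ℤ) ^ n) x‖ ^ 2 ∂(μ (range g)) ≤
      (1 + 16 * |(h : ℝ)| * ((h.natAbs + 2 + b : ℕ) : ℝ)) * ((k : ℝ) + 1) ^ 6 := by
  set J := (h.natAbs + 1 + b) * (k + 1) ^ 2 + 1 with hJ
  set N := (k + 1) ^ 4 with hN
  refine (moment_le _ _ _).trans ?_
  have h1 : ∀ n ∈ Finset.range N, ∀ m ∈ Finset.range N,
      ‖Φ (range g) (h * (b : ℤ) ^ n - h * (b : ℤ) ^ m)‖ ≤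
        (if m = n then 1 else 0) + wt g h b J n + wt g h b J m := by
    intro n hn m hm
    have a1 := wt_nonneg g h b J n
    have a2 := wt_nonneg g h b J m
    rcases lt_trichotomy m n with hmn | hmn | hmn
    · have := Φ_le_wt g hg0 hg h hh b hb k n m (Finset.mem_range.1 hn) hmn _ rfl
      rw [if_neg hmn.ne]
      linarith
    · rw [if_pos hmn]
      have := norm_Φ (range g) (h * (b : ℤ) ^ n - h * (b : ℤ) ^ m)
      linarith
    · have := Φ_le_wt g hg0 hg h hh b hb k m n (Finset.mem_range.1 hm) hmn _ (abs_sub_comm _ _)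
      rw [if_neg hmn.ne']
      linarith
  refine (Finset.sum_le_sum fun n hn => Finset.sum_le_sum fun m hm => h1 n hn m hm).trans ?_
  have h2 : ∀ n ∈ Finset.range N, ∑ m ∈ Finset.range N,
      ((if m = n then 1 else 0) + wt g h b J n + wt g h b J m) =
      1 + N * wt g h b J n + ∑ m ∈ Finset.range N, wt g h b J m := by
    intro n hn
    rw [Finset.sum_add_distrib, Finset.sum_add_distrib, Finset.sum_ite_eq', if_pos hn]
    simp
  rw [Finset.sum_congr rfl h2, Finset.sum_add_distrib, Finset.sum_add_distrib, ← Finset.mul_sum]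
  simp only [Finset.sum_const, Finset.card_range, nsmul_eq_mul, mul_one]
  have h3 := sum_wt g h b hb J N
  have hk : (1 : ℝ) ≤ (k : ℝ) + 1 := by
    have : (0 : ℝ) ≤ k := by positivity
    linarith
  have hN' : (N : ℝ) = ((k : ℝ) + 1) ^ 4 := by rw [hN]; push_cast; ring
  have hJ' : (J : ℝ) ≤ ((h.natAbs + 2 + b : ℕ) : ℝ) * ((k : ℝ) + 1) ^ 2 := by
    have : J ≤ (h.natAbs + 2 + b) * (k + 1) ^ 2 := by
      have a5 : 1 ≤ (k + 1) ^ 2 := Nat.one_le_pow _ _ (by omega)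
      rw [hJ]; nlinarith
    exact_mod_cast this
  have h4 : ∑ n ∈ Finset.range N, wt g h b J n ≤
      ((h.natAbs + 2 + b : ℕ) : ℝ) * ((k : ℝ) + 1) ^ 2 * (8 * |(h : ℝ)|) :=
    h3.trans (by gcongr)
  have h5 : ((k : ℝ) + 1) ^ 4 ≤ ((k : ℝ) + 1) ^ 6 := pow_le_pow_right₀ hk (by norm_num)
  rw [hN']
  calc _ ≤ ((k : ℝ) + 1) ^ 6 +
        ((k : ℝ) + 1) ^ 4 * (((h.natAbs + 2 + b : ℕ) : ℝ) * ((k : ℝ) + 1) ^ 2 * (8 * |(h : ℝ)|)) +
        ((k : ℝ) + 1) ^ 4 * (((h.natAbs + 2 + b : ℕ) : ℝ) * ((k : ℝ) + 1) ^ 2 * (8 * |(h : ℝ)|)) := by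
        gcongr
    _ = _ := by ring

end

lemma ae_tendsto_of_integral (ρ : Measure ℝ) (f : ℕ → ℝ → ℝ) (hf : ∀ k, Integrable (f k) ρ)
    (h0 : ∀ k x, 0 ≤ f k x) (u : ℕ → ℝ) (hu : Summable u) (hle : ∀ k, ∫ x, f k x ∂ρ ≤ u k) :
    ∀ᵐ x ∂ρ, Tendsto (fun k => f k x) atTop (𝓝 0) := by
  have hu0 : ∀ k, 0 ≤ u k := fun k => (integral_nonneg (h0 k)).trans (hle k)
  have hm : ∀ k, AEMeasurable (fun x => ENNReal.ofReal (f k x)) ρ := fun k =>
    (hf k).aemeasurable.ennreal_ofReal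
  have h1 : ∫⁻ x, ∑' k, ENNReal.ofReal (f k x) ∂ρ ≠ ⊤ := by
    rw [lintegral_tsum hm]
    refine ne_top_of_le_ne_top (b := ∑' k, ENNReal.ofReal (u k)) ?_ ?_
    · rw [← ENNReal.ofReal_tsum_of_nonneg hu0 hu]
      exact ENNReal.ofReal_ne_top
    · refine ENNReal.tsum_le_tsum fun k => ?_
      rw [← ofReal_integral_eq_lintegral_ofReal (hf k) (Eventually.of_forall (h0 k))]
      exact ENNReal.ofReal_le_ofReal (hle k)
  filter_upwards [ae_lt_top' (AEMeasurable.ennreal_tsum hm) h1] with x hx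
  have h2 := ENNReal.tendsto_atTop_zero_of_tsum_ne_top hx.ne
  have h3 := (ENNReal.tendsto_toReal ENNReal.zero_ne_top).comp h2
  simp only [ENNReal.toReal_zero] at h3
  refine h3.congr fun k => ?_
  simp [h0 k x]

lemma interp_real (r : ℕ → ℝ) (hr : ∀ n, -1 ≤ r n)
    (h : Tendsto (fun k : ℕ => (∑ n ∈ Finset.range ((k + 1) ^ 4), r n) / (((k + 1) ^ 4 : ℕ) : ℝ))
      atTop (𝓝 0)) :
    Tendsto (fun N : ℕ => (∑ n ∈ Finset.range N, r n) / (N : ℝ)) atTop (𝓝 0) := by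
  have h1 := tendsto_div_of_monotone_of_exists_subseq_tendsto_div
    (fun N => ∑ n ∈ Finset.range N, (r n + 1)) 1
    (monotone_nat_of_le_succ fun N => by
      rw [Finset.sum_range_succ]
      have := hr N
      linarith)
    (fun a ha => ⟨fun k => (k + 1) ^ 4, ?_, ?_, ?_⟩)
  · have h2 := h1.sub_const 1
    rw [sub_self] at h2
    refine h2.congr' ?_
    filter_upwards [eventually_gt_atTop 0] with N hN
    have : (N : ℝ) ≠ 0 := by exact_mod_cast hN.ne'
    rw [Finset.sum_add_distrib]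
    simp only [Finset.sum_const, Finset.card_range, nsmul_eq_mul, mul_one]
    field_simp
    ring
  · have h2 : Tendsto (fun k : ℕ => (1 + 1 / ((k : ℝ) + 1)) ^ 4) atTop (𝓝 ((1 + 0) ^ 4)) :=
      (tendsto_one_div_add_atTop_nhds_zero_nat.const_add 1).pow 4
    filter_upwards [(tendsto_order.1 h2).2 a (by simpa using ha)] with k hk
    have hp : (0 : ℝ) < (k : ℝ) + 1 := by positivity
    have e : (((k + 1 + 1) ^ 4 : ℕ) : ℝ) = (1 + 1 / ((k : ℝ) + 1)) ^ 4 * ((k : ℝ) + 1) ^ 4 := by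
      push_cast
      field_simp
    rw [e]
    push_cast
    gcongr
  · exact (tendsto_pow_atTop (by norm_num)).comp (tendsto_add_atTop_nat 1)
  · have h2 := h.add_const 1
    rw [zero_add] at h2
    refine h2.congr fun k => ?_
    have : (((k + 1) ^ 4 : ℕ) : ℝ) ≠ 0 := by positivity
    rw [Finset.sum_add_distrib]
    simp only [Finset.sum_const, Finset.card_range, nsmul_eq_mul, mul_one]
    field_simp

lemma interp (z : ℕ → ℂ) (hz : ∀ n, ‖z n‖ ≤ 1)
    (h : Tendsto (fun k : ℕ => (∑ n ∈ Finset.range ((k + 1) ^ 4), z n) / (((k + 1) ^ 4 : ℕ) : ℂ))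
      atTop (𝓝 0)) :
    Tendsto (fun N : ℕ => (∑ n ∈ Finset.range N, z n) / (N : ℂ)) atTop (𝓝 0) := by
  have h1 := interp_real (fun n => (z n).re)
    (fun n => (abs_le.1 ((Complex.abs_re_le_norm _).trans (hz n))).1)
    (by
      have := (Complex.continuous_re.tendsto _).comp h
      simp only [Complex.zero_re] at this
      refine this.congr fun k => ?_
      simp only [Function.comp, Complex.div_natCast_re, Complex.re_sum])
  have h2 := interp_real (fun n => (z n).im)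
    (fun n => (abs_le.1 ((Complex.abs_im_le_norm _).trans (hz n))).1)
    (by
      have := (Complex.continuous_im.tendsto _).comp h
      simp only [Complex.zero_im] at this
      refine this.congr fun k => ?_
      simp only [Function.comp, Complex.div_natCast_im, Complex.im_sum])
  have h3 := (h1.ofReal).add (h2.ofReal.mul_const Complex.I)
  simp only [Complex.ofReal_zero, zero_mul, add_zero] at h3
  refine h3.congr fun N => ?_
  rw [← Complex.re_sum, ← Complex.im_sum, ← Complex.div_natCast_re, ← Complex.div_natCast_im,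
    Complex.re_add_im]

theorem ae_weyl (g : ℕ → ℕ) (hg0 : g 0 = 0) (hg : ∀ j, j ^ 2 ≤ g j) (h : ℤ) (hh : h ≠ 0) (b : ℕ)
    (hb : 2 ≤ b) : ∀ᵐ x ∂(μ (range g)), Tendsto
      (fun N : ℕ => (∑ n ∈ Finset.range N, E h (x * (b : ℝ) ^ n)) / (N : ℂ)) atTop (𝓝 0) := by
  set C := (1 + 16 * |(h : ℝ)| * ((h.natAbs + 2 + b : ℕ) : ℝ)) with hC
  have h1 := ae_tendsto_of_integral (μ (range g))
    (fun k x => ‖∑ n ∈ Finset.range ((k + 1) ^ 4), E (h * (b : ℤ) ^ n) x‖ ^ 2 / ((k : ℝ) + 1) ^ 8)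
    (fun k => by
      refine Integrable.div_const ?_ _
      have hc : Continuous fun x =>
          ‖∑ n ∈ Finset.range ((k + 1) ^ 4), E (h * (b : ℤ) ^ n) x‖ ^ 2 :=
        (continuous_finset_sum _ fun n _ => continuous_E _).norm.pow 2
      refine Integrable.of_bound hc.aestronglyMeasurable ((((k + 1) ^ 4 : ℕ) : ℝ) ^ 2)
        (Eventually.of_forall fun x => ?_)
      rw [norm_pow, norm_norm]
      gcongr
      refine (norm_sum_le _ _).trans ?_
      simp [norm_E])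
    (fun k x => by positivity)
    (fun k => C * (1 / ((k : ℝ) + 1) ^ 2))
    (by
      have := (summable_nat_add_iff 1).2 (Real.summable_one_div_nat_pow.2 (by norm_num : 1 < 2))
      simp only [Nat.cast_add, Nat.cast_one] at this
      exact this.mul_left C)
    (fun k => by
      rw [integral_div, div_le_iff₀ (by positivity)]
      refine (moment g hg0 hg h hh b hb k).trans (le_of_eq ?_)
      have : (k : ℝ) + 1 ≠ 0 := by positivity
      rw [← hC]
      field_simp)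
  filter_upwards [h1] with x hx
  simp_rw [E_mul]
  apply interp _ (fun n => (norm_E _ _).le)
  rw [tendsto_zero_iff_norm_tendsto_zero]
  have h2 := hx.sqrt
  rw [Real.sqrt_zero] at h2
  refine h2.congr fun k => ?_
  rw [norm_div, Complex.norm_natCast]
  have e : ((k : ℝ) + 1) ^ 8 = ((((k + 1) ^ 4 : ℕ) : ℝ)) ^ 2 := by push_cast; ring
  rw [e, ← div_pow, Real.sqrt_sq (by positivity)]

end Pool.Agent.H391Z.Meas
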