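import Mathlib
import Pool.Agent.H391Z.UniqB
import Pool.Agent.H705R2.Weyl

/-! Weyl's criterion and normality. -/

open Filter Topology Real MeasureTheory Set

namespace Pool.Agent.H391Z.Norm

open Pool.Agent.H391Z.Uniq Pool.Agent.H705R2

/-- average along a sequence -/
noncomputable def av (y : ℕ → ℝ) (h : Circ → ℂ) (M : ℕ) : ℂ :=
  (∑ m ∈ Finset.range M, h (y m : Circ)) / M

lemma av_norm_sub_le (y : ℕ → ℝ) (f g : C(Circ, ℂ)) (M : ℕ) :
    ‖av y f M - av y g M‖ ≤ ‖f - g‖ := by
  unfold av
  rcases Nat.eq_zero_or_pos M with rfl | hM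
  · simp
  rw [← sub_div, ← Finset.sum_sub_distrib, norm_div, Complex.norm_natCast]
  rw [div_le_iff₀ (by exact_mod_cast hM)]
  calc ‖∑ m ∈ Finset.range M, (f (y m : Circ) - g (y m : Circ))‖
      ≤ ∑ m ∈ Finset.range M, ‖f (y m : Circ) - g (y m : Circ)‖ := norm_sum_le _ _
    _ ≤ ∑ _m ∈ Finset.range M, ‖f - g‖ := by
        gcongr with m _
        exact (f - g).norm_coe_le_norm _
    _ = ‖f - g‖ * M := by simp [mul_comm]

theorem weyl_seq (y : ℕ → ℝ)
    (hy : ∀ h : ℤ, h ≠ 0 →
      Tendsto (fun N : ℕ => (∑ n ∈ Finset.range N, E h (y n)) / (N : ℂ)) atTop (𝓝 0))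
    (h : C(Circ, ℂ)) :
    Tendsto (fun M => av y h M) atTop (𝓝 (∫ x : Circ, h x)) := by
  have hmem : ∀ f ∈ (Submodule.span ℂ (range <| @fourier 1)),
      Tendsto (fun M => av y f M) atTop (𝓝 (∫ x : Circ, f x)) := by
    intro f hf
    induction hf using Submodule.span_induction with
    | mem f hf =>
      obtain ⟨n, rfl⟩ := hf
      by_cases hn : n = 0
      · subst hn
        have : ∀ M : ℕ, 0 < M → av y (fun x => (fourier 0 x : ℂ)) M = 1 := by
          intro M hM
          unfold av
          simp only [fourier_zero, Finset.sum_const, Finset.card_range, nsmul_eq_mul, mul_one]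
          have : (M : ℂ) ≠ 0 := by exact_mod_cast hM.ne'
          field_simp
        have hint : ∫ x : Circ, (fourier 0 x : ℂ) = 1 := by
          simp [fourier_zero, Measure.real]
        rw [hint]
        refine Tendsto.congr' ?_ tendsto_const_nhds
        filter_upwards [eventually_gt_atTop 0] with M hM
        exact (this M hM).symm
      · rw [integral_fourier_eq_zero hn]
        refine (hy n hn).congr fun M => ?_
        unfold av
        congr 1
        refine Finset.sum_congr rfl fun m _ => ?_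
        rw [fourier_coe_apply]
        unfold E
        simp
    | zero =>
      simp [av]
    | add f g hf hg ihf ihg =>
      have hi : ∫ x : Circ, (f + g) x = (∫ x : Circ, f x) + ∫ x : Circ, g x := by
        have := integral_add (μ := (volume : Measure Circ)) (f := f) (g := g)
          (f.continuous.integrable_of_hasCompactSupport (HasCompactSupport.of_compactSpace _))
          (g.continuous.integrable_of_hasCompactSupport (HasCompactSupport.of_compactSpace _))
        simpa using this
      rw [hi]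
      refine (ihf.add ihg).congr (fun M => ?_)
      unfold av
      rw [← add_div, ← Finset.sum_add_distrib]; rfl
    | smul c f hf ihf =>
      have hi : ∫ x : Circ, (c • f) x = c * (∫ x : Circ, f x) := by
        simp [integral_const_mul]
      rw [hi]
      refine (ihf.const_mul c).congr (fun M => ?_)
      unfold av
      simp only [ContinuousMap.coe_smul, Pi.smul_apply, smul_eq_mul]
      rw [← Finset.mul_sum, mul_div_assoc]
  rw [Metric.tendsto_atTop]
  intro ε hε
  have hcl : h ∈ (Submodule.span ℂ (range <| @fourier 1)).topologicalClosure := by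
    rw [span_fourier_closure_eq_top]; trivial
  rw [← SetLike.mem_coe, Submodule.topologicalClosure_coe, Metric.mem_closure_iff] at hcl
  obtain ⟨f, hf, hfd⟩ := hcl (ε / 3) (by positivity)
  have := Metric.tendsto_atTop.1 (hmem f hf) (ε / 3) (by positivity)
  obtain ⟨N, hN⟩ := this
  refine ⟨N, fun M hM => ?_⟩
  have h1 := hN M hM
  have h2 : ‖av y h M - av y f M‖ ≤ ‖h - f‖ := av_norm_sub_le y h f M
  have h3 : ‖(∫ x : Circ, f x) - ∫ x : Circ, h x‖ ≤ ‖h - f‖ := by
    rw [← integral_sub
      (f.continuous.integrable_of_hasCompactSupport (HasCompactSupport.of_compactSpace _))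
      (h.continuous.integrable_of_hasCompactSupport (HasCompactSupport.of_compactSpace _))]
    calc ‖∫ x : Circ, (f x - h x)‖ ≤ ‖h - f‖ * (volume : Measure Circ).real univ := by
          apply norm_integral_le_of_norm_le_const
          filter_upwards with x
          rw [norm_sub_rev]
          exact (h - f).norm_coe_le_norm x
      _ = ‖h - f‖ := by simp [Measure.real]
  have h4 : ‖h - f‖ < ε / 3 := by rw [← dist_eq_norm]; exact hfd
  calc dist (av y h M) (∫ x : Circ, h x)
      ≤ dist (av y h M) (av y f M) + dist (av y f M) (∫ x : Circ, f x)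
        + dist (∫ x : Circ, f x) (∫ x : Circ, h x) := dist_triangle4 _ _ _ _
    _ < ε / 3 + ε / 3 + ε / 3 := by
        rw [dist_eq_norm, dist_eq_norm (∫ x : Circ, f x)]
        linarith
    _ = ε := by ring

theorem lower (y : ℕ → ℝ)
    (hy : ∀ h : ℤ, h ≠ 0 →
      Tendsto (fun N : ℕ => (∑ n ∈ Finset.range N, E h (y n)) / (N : ℂ)) atTop (𝓝 0))
    (c L : ℝ) (hL1 : L ≤ 1) (P : ℕ → Prop) [DecidablePred P]
    (hP : ∀ n, (∃ l : ℤ, c < y n - l ∧ y n - l < c + L) → P n) (ε : ℝ) (hε : 0 < ε) :
    ∀ᶠ N : ℕ in atTop, L - ε ≤ (((Finset.range N).filter P).card : ℝ) / N := by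
  let z : Circ := ((c + L / 2 : ℝ) : Circ)
  obtain ⟨g, hg0, hg1, hg01⟩ := exists_continuous_zero_one_of_isClosed
    (Metric.isOpen_ball (x := z) (ε := L / 2)).isClosed_compl
    (Metric.isClosed_closedBall (x := z) (ε := L / 2 - ε / 4))
    (by
      rw [disjoint_compl_left_iff_subset]
      exact Metric.closedBall_subset_ball (by linarith))
  let h : C(Circ, ℂ) := ⟨fun x => (g x : ℂ), by fun_prop⟩
  have hint : L - ε / 2 ≤ (∫ x : Circ, h x).re := by
    have h1 : ∫ x : Circ, h x = ((∫ x : Circ, g x : ℝ) : ℂ) := by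
      simp only [h, ContinuousMap.coe_mk]
      exact integral_ofReal
    rw [h1, Complex.ofReal_re]
    have hm : MeasurableSet (Metric.closedBall z (L / 2 - ε / 4)) := measurableSet_closedBall
    have h2 : ∫ x : Circ, (Metric.closedBall z (L / 2 - ε / 4)).indicator (fun _ => (1 : ℝ)) x ≤
        ∫ x : Circ, g x := by
      apply integral_mono
      · exact (integrable_indicator_iff hm).2 (integrableOn_const (by simp))
      · exact g.continuous.integrable_of_hasCompactSupport (HasCompactSupport.of_compactSpace _)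
      · intro x
        by_cases hx : x ∈ Metric.closedBall z (L / 2 - ε / 4)
        · simp only [hx, indicator_of_mem]
          exact le_of_eq (hg1 hx).symm
        · simp only [hx, not_false_eq_true, indicator_of_notMem]
          exact (hg01 x).1
    rw [integral_indicator hm] at h2
    simp only [integral_const, MeasurableSet.univ, measureReal_restrict_apply, univ_inter,
      smul_eq_mul, mul_one] at h2
    refine le_trans ?_ h2
    rw [Measure.real, AddCircle.volume_closedBall, ENNReal.toReal_ofReal']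
    refine le_trans ?_ (le_max_left _ _)
    apply le_min <;> linarith
  have hw' : Tendsto (fun M => (av y h M).re) atTop (𝓝 (∫ x : Circ, h x).re) :=
    (Complex.continuous_re.tendsto _).comp (weyl_seq y hy h)
  have hev : ∀ᶠ M in atTop, L - ε < (av y h M).re := by
    apply hw'.eventually_const_lt
    linarith
  filter_upwards [hev] with M hM
  refine hM.le.trans ?_
  unfold av
  have : (∑ m ∈ Finset.range M, h (y m : Circ)) / (M : ℂ) =
      (((∑ m ∈ Finset.range M, g (y m : Circ)) / M : ℝ) : ℂ) := by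
    push_cast; rfl
  rw [this, Complex.ofReal_re]
  gcongr
  rw [Finset.card_filter]
  push_cast
  gcongr with m _
  split_ifs with hm
  · exact (hg01 _).2
  · apply le_of_eq
    apply hg0
    intro hb
    apply hm
    apply hP
    rw [Metric.mem_ball, dist_eq_norm, ← AddCircle.coe_sub, UnitAddCircle.norm_eq, abs_lt] at hb
    exact ⟨round (y m - (c + L / 2)), by linarith [hb.1], by linarith [hb.2]⟩

lemma digits_arc (b : ℕ) (hb : 2 ≤ b) (k : ℕ) (w : Fin k → ℤ) (hw : ∀ j, 0 ≤ w j ∧ w j < b) :
    ∃ c : ℝ, 0 ≤ c ∧ c + 1 / (b : ℝ) ^ k ≤ 1 ∧ ∀ y : ℝ,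
      (∃ l : ℤ, c < y - l ∧ y - l < c + 1 / (b : ℝ) ^ k) →
        ∀ j : Fin k, ⌊y * (b : ℝ) ^ (j.val + 1)⌋ % (b : ℤ) = w j := by
  have hb0 : (0 : ℝ) < b := by exact_mod_cast (by omega : 0 < b)
  induction k with
  | zero => exact ⟨0, le_rfl, by simp, fun y _ j => j.elim0⟩
  | succ k ih =>
    obtain ⟨c, hc0, hc1, hc⟩ := ih (fun j => w j.succ) (fun j => hw _)
    have h0 : (0 : ℝ) ≤ w 0 := by exact_mod_cast (hw 0).1
    have h1 : (w 0 : ℝ) + 1 ≤ b := by exact_mod_cast (hw 0).2
    have e : 1 / (b : ℝ) ^ (k + 1) = 1 / (b : ℝ) ^ k / b := by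
      rw [pow_succ]; field_simp
    refine ⟨(w 0 + c) / b, by positivity, ?_, ?_⟩
    · rw [e, ← add_div, div_le_one hb0]
      linarith
    · rintro y ⟨l, hl1, hl2⟩
      rw [e, ← add_div, lt_div_iff₀ hb0] at hl2
      rw [div_lt_iff₀ hb0] at hl1
      have hpos : 0 < 1 / (b : ℝ) ^ k := by positivity
      intro j
      refine Fin.cases ?_ (fun j => ?_) j
      · have : ⌊y * (b : ℝ) ^ (((0 : Fin (k + 1)) : ℕ) + 1)⌋ = w 0 + b * l := by
          rw [Int.floor_eq_iff]
          simp only [Fin.val_zero, zero_add, pow_one]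
          push_cast
          constructor <;> nlinarith
        rw [this, Int.add_mul_emod_self_left]
        exact Int.emod_eq_of_lt (hw 0).1 (hw 0).2
      · have := hc (y * b) ⟨w 0 + b * l, by push_cast; nlinarith, by push_cast; nlinarith⟩ j
        rw [← this, Fin.val_succ, pow_succ' (b : ℝ) (j.val + 1), mul_assoc]

lemma partition_trick {ι : Type} (S : Finset ι) (a : ι → ℕ → ℝ) (L : ℝ) (hL : S.card * L = 1)
    (hsum : ∀ N, 1 ≤ N → ∑ w ∈ S, a w N = 1)
    (hlow : ∀ w ∈ S, ∀ ε > 0, ∀ᶠ N in atTop, L - ε ≤ a w N) (w : ι) (hw : w ∈ S) :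
    Tendsto (a w) atTop (𝓝 L) := by
  classical
  rw [tendsto_order]
  constructor
  · intro t ht
    filter_upwards [hlow w hw ((L - t) / 2) (by linarith)] with N hN
    linarith
  · intro t ht
    have hc : (0 : ℝ) < S.card := by exact_mod_cast Finset.card_pos.2 ⟨w, hw⟩
    have hε : 0 < (t - L) / S.card := div_pos (by linarith) hc
    have := (Finset.eventually_all S).2 fun v hv => hlow v hv _ hε
    filter_upwards [this, eventually_ge_atTop 1] with N hN h1
    have h2 := hsum N h1
    rw [← Finset.add_sum_erase S _ hw] at h2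
    have h3 : ∑ _v ∈ S.erase w, (L - (t - L) / S.card) ≤ ∑ v ∈ S.erase w, a v N :=
      Finset.sum_le_sum fun v hv => hN v (Finset.mem_of_mem_erase hv)
    rw [Finset.sum_const, Finset.card_erase_of_mem hw, nsmul_eq_mul,
      Nat.cast_sub (Finset.card_pos.2 ⟨w, hw⟩)] at h3
    have h4 : (S.card : ℝ) * ((t - L) / S.card) = t - L := by field_simp
    push_cast at h3
    nlinarith

theorem normal_of_weyl (x : ℝ) (b : ℕ) (hb : 2 ≤ b)
    (hy : ∀ h : ℤ, h ≠ 0 → Tendsto
      (fun N : ℕ => (∑ n ∈ Finset.range N, E h (x * (b : ℝ) ^ n)) / (N : ℂ)) atTop (𝓝 0))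
    (k : ℕ) (w : Fin k → ℤ) (hw : ∀ j : Fin k, 0 ≤ w j ∧ w j < (b : ℤ)) :
    Tendsto (fun N : ℕ =>
      ((((Finset.range N).filter (fun i : ℕ =>
        ∀ j : Fin k, ⌊x * (b : ℝ) ^ (i + j.val + 1)⌋ % (b : ℤ) = w j)).card : ℝ) / (N : ℝ)))
      atTop (𝓝 (1 / (b : ℝ) ^ k)) := by
  have hb0 : (0 : ℝ) < b := by exact_mod_cast (by omega : 0 < b)
  let S : Finset (Fin k → ℤ) := Fintype.piFinset fun _ => Finset.Ico (0 : ℤ) b
  have hS : ∀ v, v ∈ S ↔ ∀ j : Fin k, 0 ≤ v j ∧ v j < (b : ℤ) := by
    intro v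
    simp [S, Fintype.mem_piFinset]
  refine partition_trick S (fun w N => ((((Finset.range N).filter (fun i : ℕ =>
        ∀ j : Fin k, ⌊x * (b : ℝ) ^ (i + j.val + 1)⌋ % (b : ℤ) = w j)).card : ℝ) / (N : ℝ)))
    _ ?_ ?_ ?_ w ((hS w).2 hw)
  · simp only [S, Fintype.card_piFinset, Int.card_Ico, sub_zero, Int.toNat_natCast,
      Finset.prod_const, Finset.card_univ, Fintype.card_fin]
    push_cast
    field_simp
  · intro N hN
    have hN0 : (N : ℝ) ≠ 0 := by exact_mod_cast (by omega : N ≠ 0)
    rw [← Finset.sum_div, div_eq_one_iff_eq hN0]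
    have := Finset.card_eq_sum_card_fiberwise (s := Finset.range N) (t := S)
      (f := fun i (j : Fin k) => ⌊x * (b : ℝ) ^ (i + j.val + 1)⌋ % (b : ℤ))
      (fun i _ => by
        have hbz : (0 : ℤ) < b := by exact_mod_cast (by omega : 0 < b)
        exact (hS _).2 fun j => ⟨Int.emod_nonneg _ hbz.ne', Int.emod_lt_of_pos _ hbz⟩)
    rw [Finset.card_range] at this
    conv_rhs => rw [this]
    push_cast
    refine Finset.sum_congr rfl fun v _ => ?_
    congr 2
    ext i
    simp only [funext_iff]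
  · intro v hv ε hε
    obtain ⟨c, hc0, hc1, hc⟩ := digits_arc b hb k v ((hS v).1 hv)
    refine lower (fun n => x * (b : ℝ) ^ n) hy c _ (by linarith) _ (fun n hn j => ?_) ε hε
    rw [← hc _ hn j, mul_assoc, ← pow_add, add_assoc]

end Pool.Agent.H391Z.Norm
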