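import Mathlib
import Pool.Agent.H391Z.MomD
import Pool.Agent.H391Z.NormB

/-! The choice of the sparse set of zero digits and the mass distribution bound. -/

open Filter Topology Real MeasureTheory Set
open scoped ENNReal

namespace Pool.Agent.H391Z.Meas

open Pool.Agent.H391Z.Uniq

lemma exists_seq (φ : ℝ → ℝ) (hpos : ∀ r : ℝ, 0 < r → 0 < φ r)
    (h : Tendsto (fun r : ℝ => r / φ r) (𝓝[>] (0 : ℝ)) (𝓝 0)) :
    ∃ n : ℕ → ℕ, ∀ j r, 0 < r → r ≤ (1 / 2) ^ n j → 2 ^ j * r ≤ φ r := by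
  have : ∀ j : ℕ, ∃ n : ℕ, ∀ r : ℝ, 0 < r → r ≤ (1 / 2) ^ n → 2 ^ j * r ≤ φ r := by
    intro j
    have h1 := (tendsto_order.1 h).2 (1 / 2 ^ j) (by positivity)
    obtain ⟨u, hu, hu2⟩ := (mem_nhdsGT_iff_exists_Ioo_subset).1 h1
    obtain ⟨n, hn⟩ := exists_pow_lt_of_lt_one (show (0 : ℝ) < u from hu)
      (by norm_num : (1 / 2 : ℝ) < 1)
    refine ⟨n, fun r hr hr2 => ?_⟩
    have h3 : r / φ r < 1 / 2 ^ j := hu2 ⟨hr, hr2.trans_lt hn⟩
    rw [div_lt_div_iff₀ (hpos r hr) (by positivity)] at h3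
    linarith
  choose n hn using this
  exact ⟨n, hn⟩

open Classical in
lemma exists_g (φ : ℝ → ℝ) (hpos : ∀ r : ℝ, 0 < r → 0 < φ r)
    (h : Tendsto (fun r : ℝ => r / φ r) (𝓝[>] (0 : ℝ)) (𝓝 0)) :
    ∃ g : ℕ → ℕ, g 0 = 0 ∧ (∀ j, j ^ 2 ≤ g j) ∧ ∃ n0 : ℕ, ∀ (n : ℕ) (r : ℝ), 0 < r →
      r ≤ (1 / 2) ^ n0 → r ≤ (1 / 2) ^ n →
      2 ^ ((Finset.range n).filter (· ∈ range g)).card * r ≤ φ r := by
  obtain ⟨t, ht⟩ := exists_seq φ hpos h
  let g : ℕ → ℕ := fun j => ∑ i ∈ Finset.range j, ((i + 1) ^ 2 + t (i + 2))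
  have hs : ∀ j, g (j + 1) = g j + ((j + 1) ^ 2 + t (j + 2)) := fun j => Finset.sum_range_succ _ _
  have hmono : Monotone g := monotone_nat_of_le_succ fun j => by rw [hs]; omega
  have hsq : ∀ j, j ^ 2 ≤ g j := by
    intro j
    rcases j with _ | j
    · simp
    · rw [hs]; omega
  refine ⟨g, by simp [g], hsq, t 1, fun n r hr h1 h2 => ?_⟩
  have hex : ∃ j, n ≤ g j := ⟨n, le_trans (by nlinarith) (hsq n)⟩
  set J := Nat.find hex with hJ
  have hcard : ((Finset.range n).filter (· ∈ range g)).card ≤ J := by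
    have : (Finset.range n).filter (· ∈ range g) ⊆ (Finset.range J).image g := by
      intro x hx
      rw [Finset.mem_filter, Finset.mem_range] at hx
      obtain ⟨hx1, j, rfl⟩ := hx
      refine Finset.mem_image_of_mem g (Finset.mem_range.2 ?_)
      by_contra hc
      have a1 : g J ≤ g j := hmono (not_lt.1 hc)
      have a2 : n ≤ g J := Nat.find_spec hex
      omega
    exact (Finset.card_le_card this).trans (Finset.card_image_le.trans (by simp))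
  have h3 : (2 : ℝ) ^ ((Finset.range n).filter (· ∈ range g)).card * r ≤ 2 ^ J * r := by
    gcongr; norm_num
  refine h3.trans ?_
  rcases le_or_gt J 1 with hJ1 | hJ1
  · refine le_trans ?_ (ht 1 r hr h1)
    gcongr; norm_num
  · obtain ⟨i, hi⟩ : ∃ i, J = i + 2 := ⟨J - 2, by omega⟩
    have h4 := Nat.find_min hex (m := i + 1) (by omega)
    rw [hs] at h4
    rw [hi]
    refine ht _ r hr (h2.trans ?_)
    exact pow_le_pow_of_le_one (by norm_num) (by norm_num) (by omega)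

open Classical in
lemma mass_ball (φ : ℝ → ℝ) (Z : Set ℕ) (n0 : ℕ)
    (hZ : ∀ (n : ℕ) (r : ℝ), 0 < r → r ≤ (1 / 2) ^ n0 → r ≤ (1 / 2) ^ n →
      2 ^ ((Finset.range n).filter (· ∈ Z)).card * r ≤ φ r)
    (x r : ℝ) (hr : 0 < r) (hr2 : r ≤ (1 / 2) ^ (n0 + 2)) :
    μ Z (Icc (x - r) (x + r)) ≤ ENNReal.ofReal (4 * φ r) := by
  have h14 : r ≤ 1 / 4 := by
    refine hr2.trans ?_
    rw [pow_add]
    have : (1 / 2 : ℝ) ^ n0 ≤ 1 := pow_le_one₀ (by norm_num) (by norm_num)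
    nlinarith
  have hex : ∃ n : ℕ, (1 / 2 : ℝ) ^ (n + 2) ≤ r := by
    obtain ⟨n, hn⟩ := exists_pow_lt_of_lt_one hr (by norm_num : (1 / 2 : ℝ) < 1)
    exact ⟨n, le_trans (pow_le_pow_of_le_one (by norm_num) (by norm_num) (by omega)) hn.le⟩
  set n := Nat.find hex with hn
  have h1 : (1 / 2 : ℝ) ^ (n + 2) ≤ r := Nat.find_spec hex
  have h2 : r < (1 / 2) ^ (n + 1) := by
    rcases Nat.eq_zero_or_pos n with h | h
    · rw [h]; linarith
    · have := Nat.find_min hex (m := n - 1) (by omega)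
      rw [show n - 1 + 2 = n + 1 by omega] at this
      exact not_le.1 this
  have hp : (0 : ℝ) < (1 / 2) ^ n := by positivity
  rw [pow_succ] at h2
  rw [pow_add] at h1
  have h3 := hZ n r hr (hr2.trans (pow_le_pow_of_le_one (by norm_num) (by norm_num) (by omega)))
    (by linarith)
  have h4 := mass Z (x - r) n
  have h5 : μ Z (Icc (x - r) (x + r)) ≤ μ Z (Ico (x - r) (x - r + (1 / 2) ^ n)) :=
    measure_mono fun y hy => ⟨hy.1, by linarith [hy.2]⟩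
  refine h5.trans ?_
  set J := ((Finset.range n).filter (· ∈ Z)).card
  have h6 : (2 : ℝ≥0∞) ^ J ≤ 2 ^ n * ENNReal.ofReal (4 * φ r) := by
    have e1 : (2 : ℝ≥0∞) ^ J = ENNReal.ofReal (2 ^ J) := by
      rw [ENNReal.ofReal_pow (by norm_num)]; simp
    have e2 : (2 : ℝ≥0∞) ^ n = ENNReal.ofReal (2 ^ n) := by
      rw [ENNReal.ofReal_pow (by norm_num)]; simp
    rw [e1, e2, ← ENNReal.ofReal_mul (by positivity)]
    apply ENNReal.ofReal_le_ofReal
    have e3 : (2 : ℝ) ^ n * (1 / 2) ^ n = 1 := by rw [← mul_pow]; norm_num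
    have h7 : 1 ≤ 2 ^ n * (4 * r) := by
      rw [← e3]
      gcongr
      linarith
    calc (2 : ℝ) ^ J = 2 ^ J * 1 := (mul_one _).symm
      _ ≤ 2 ^ J * (2 ^ n * (4 * r)) := by gcongr
      _ = 2 ^ n * (4 * (2 ^ J * r)) := by ring
      _ ≤ _ := by gcongr
  exact (ENNReal.mul_le_mul_iff_right (by positivity) (by simp)).1 (h4.trans h6)

open Classical in
lemma mass_set (φ : ℝ → ℝ) (h0 : Tendsto φ (𝓝[>] (0 : ℝ)) (𝓝 0)) (Z : Set ℕ) (n0 : ℕ)
    (hZ : ∀ (n : ℕ) (r : ℝ), 0 < r → r ≤ (1 / 2) ^ n0 → r ≤ (1 / 2) ^ n →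
      2 ^ ((Finset.range n).filter (· ∈ Z)).card * r ≤ φ r) :
    (4 : ℝ≥0∞)⁻¹ • μ Z ≤
      Measure.mkMetric (fun r : ℝ≥0∞ => ENNReal.ofReal (φ r.toReal)) := by
  apply Measure.le_mkMetric _ _ (ENNReal.ofReal ((1 / 2) ^ (n0 + 2)))
    (ENNReal.ofReal_pos.2 (by positivity))
  intro s hs
  rcases s.eq_empty_or_nonempty with rfl | ⟨x, hx⟩
  · simp
  have hne : Metric.ediam s ≠ ⊤ := ne_top_of_le_ne_top ENNReal.ofReal_ne_top hs
  set r := (Metric.ediam s).toReal with hr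
  have hr2 : r ≤ (1 / 2) ^ (n0 + 2) := ENNReal.toReal_le_of_le_ofReal (by positivity) hs
  have hsub : ∀ t, r ≤ t → s ⊆ Icc (x - t) (x + t) := by
    intro t ht y hy
    have h1 : dist y x ≤ r := Metric.dist_le_diam_of_mem' hne hy hx
    rw [Real.dist_eq, abs_le] at h1
    constructor <;> linarith [h1.1, h1.2]
  rw [Measure.smul_apply, smul_eq_mul]
  rcases (show 0 ≤ r from ENNReal.toReal_nonneg).eq_or_lt with h | h
  · have h1 : Tendsto (fun t => ENNReal.ofReal (4 * φ t)) (𝓝[>] (0 : ℝ))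
        (𝓝 (ENNReal.ofReal (4 * 0))) := ENNReal.tendsto_ofReal (h0.const_mul 4)
    have h2 : μ Z s ≤ ENNReal.ofReal (4 * 0) := by
      refine ge_of_tendsto h1 ?_
      filter_upwards [Ioc_mem_nhdsGT (show (0 : ℝ) < (1 / 2) ^ (n0 + 2) by positivity)] with t ht
      exact (measure_mono (hsub t (by rw [← h]; exact ht.1.le))).trans
        (mass_ball φ Z n0 hZ x t ht.1 ht.2)
    simp only [mul_zero, ENNReal.ofReal_zero, nonpos_iff_eq_zero] at h2
    simp [h2]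
  · have h2 := (measure_mono (hsub r le_rfl)).trans (mass_ball φ Z n0 hZ x r h hr2)
    rw [ENNReal.ofReal_mul (by norm_num)] at h2
    calc (4 : ℝ≥0∞)⁻¹ * μ Z s ≤ 4⁻¹ * (ENNReal.ofReal 4 * ENNReal.ofReal (φ r)) := by gcongr
      _ = _ := by
        rw [← mul_assoc, ENNReal.ofReal_ofNat,
          ENNReal.inv_mul_cancel (by norm_num) (by norm_num), one_mul]

theorem main (φ : ℝ → ℝ) (hpos : ∀ r : ℝ, 0 < r → 0 < φ r)
    (h0 : Tendsto φ (𝓝[>] (0 : ℝ)) (𝓝 0))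
    (h : Tendsto (fun r : ℝ => r / φ r) (𝓝[>] (0 : ℝ)) (𝓝 0)) :
    ∃ K : Set ℝ, IsClosed K ∧ K ⊆ Set.Icc (0:ℝ) 1 ∧
      (∀ c : ℤ → ℂ, (∀ x : ℝ, (∀ m : ℤ, x + (m:ℝ) ∉ K) → Conv c x) → ∀ n : ℤ, c n = 0) ∧
      ∀ A : Set ℝ, (∀ x : ℝ, (∀ b : ℕ, 2 ≤ b → ∀ h : ℤ, h ≠ 0 → Tendsto
        (fun N : ℕ => (∑ n ∈ Finset.range N, E h (x * (b : ℝ) ^ n)) / (N : ℂ)) atTop (𝓝 0)) →
          x ∈ A) →
        0 < Measure.mkMetric (fun r : ℝ≥0∞ => ENNReal.ofReal (φ r.toReal)) (K ∩ A) := by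
  obtain ⟨g, hg0, hg, n0, hZ⟩ := exists_g φ hpos h
  let K : Set ℝ := Icc 0 1 ∩ ⋂ j, {x | 0 ≤ sin (2 * π * (((2 ^ g j : ℕ) : ℝ) * x))}
  have hK : IsClosed K :=
    isClosed_Icc.inter (isClosed_iInter fun j => isClosed_le continuous_const (by fun_prop))
  refine ⟨K, hK, inter_subset_left, fun c hc => ?_, fun A hA => ?_⟩
  · have h2 : ∀ j x, sin (2 * π * (((2 ^ g j : ℕ) : ℝ) * x)) < 0 → Conv c x := by
      intro j x hx
      refine hc x fun m hm => ?_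
      have h3 := mem_iInter.1 hm.2 j
      have e : 2 * π * (((2 ^ g j : ℕ) : ℝ) * (x + m)) = 2 * π * (((2 ^ g j : ℕ) : ℝ) * x) +
          (((2 ^ g j : ℕ) * m : ℤ) : ℝ) * (2 * π) := by
        push_cast; ring
      simp only [mem_ofPred_eq] at h3
      rw [e, Real.sin_add_int_mul_two_pi] at h3
      linarith
    refine uniq c (fun j => 2 ^ g j) ?_ (fun x hx => h2 0 x ?_) h2
    · refine tendsto_atTop_mono (fun j => ?_) tendsto_id
      have h3 : j ≤ g j := le_trans (by nlinarith) (hg j)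
      exact h3.trans Nat.lt_two_pow_self.le
    · rw [hg0]
      simp only [pow_zero, Nat.cast_one, one_mul]
      rw [← Real.sin_sub_two_pi]
      have := Real.pi_pos
      apply Real.sin_neg_of_neg_of_neg_pi_lt <;> nlinarith [hx.1, hx.2]
  · have h1 := mass_set φ h0 (range g) n0 hZ
    refine lt_of_lt_of_le ?_ (h1 (K ∩ A))
    have h2 : ∀ᵐ x ∂(μ (range g)), x ∈ K := by
      unfold μ
      exact (ae_map_iff (p := fun x => x ∈ K) (measurable_X _).aemeasurable hK.measurableSet).2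
        (Eventually.of_forall fun ω =>
          ⟨X_mem _ ω, mem_iInter.2 fun j => X_sin _ ω _ ⟨j, rfl⟩⟩)
    have h3 : ∀ᵐ x ∂(μ (range g)), x ∈ A := by
      have : ∀ᵐ x ∂(μ (range g)), ∀ b : ℕ, ∀ h : ℤ, 2 ≤ b → h ≠ 0 → Tendsto
          (fun N : ℕ => (∑ n ∈ Finset.range N, E h (x * (b : ℝ) ^ n)) / (N : ℂ)) atTop (𝓝 0) := by
        rw [ae_all_iff]
        intro b
        rw [ae_all_iff]
        intro h
        by_cases hb : 2 ≤ b
        · by_cases hh : h = 0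
          · exact Eventually.of_forall fun x _ h' => absurd hh h'
          · filter_upwards [ae_weyl g hg0 hg h hh b hb] with x hx _ _ using hx
        · exact Eventually.of_forall fun x h' => absurd h' hb
      filter_upwards [this] with x hx using hA x fun b hb h hh => hx b h hb hh
    have h4 : μ (range g) (K ∩ A) ≠ 0 := by
      intro hz
      have h5 : ∀ᵐ x ∂(μ (range g)), x ∉ K ∩ A := measure_eq_zero_iff_ae_notMem.1 hz
      obtain ⟨x, ⟨a1, a2⟩, a3⟩ := ((h2.and h3).and h5).exists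
      exact a3 ⟨a1, a2⟩
    rw [Measure.smul_apply, smul_eq_mul]
    exact ENNReal.mul_pos (by norm_num) h4

end Pool.Agent.H391Z.Meas
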