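import Mathlib

/-!
The set-splitting game `G(E)`.  Move number `n` (`n = 0, 1, 2, ...`) consists of the set `S n`
chosen by the player on move together with the ordered pair of parts into which that player
splits it.  Player A makes the moves with even number, player B those with odd number.
-/

namespace Pool.Agent.H391Z.Game

universe u

/-- One move: the set `chosen` that the player picks, and the two parts `left`, `right` into which
the player splits it. -/
structure Move (E : Type u) where
  chosen : Set E
  left : Set E
  right : Set E

/-- Move number `n` of the sequence of moves `play` obeys the rules: its two parts are disjoint with
union the chosen set; the chosen set is the whole of `E` for `n = 0`, and is one of the two parts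
of move `n - 1` for `n ≥ 1`. -/
def LegalAt {E : Type u} (play : ℕ → Move E) (n : ℕ) : Prop :=
  Disjoint (play n).left (play n).right ∧ (play n).left ∪ (play n).right = (play n).chosen ∧
  (n = 0 → (play n).chosen = Set.univ) ∧
  (∀ k, n = k + 1 → (play n).chosen = (play k).left ∨ (play n).chosen = (play k).right)

/-- The list of the first `n` moves, in the order they were played. -/
def history {E : Type u} (play : ℕ → Move E) (n : ℕ) : List (Move E) :=
  (List.range n).map play

/-- `σ`, a rule giving A's next move from the finite history, is a winning strategy for A: in every
sequence of moves in which A (even moves) follows `σ` and B (odd moves) obeys the rules, all the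
moves of A obey the rules and the sets `S 1, S 2, ...` have empty intersection. -/
def IsWinningForA {E : Type u} (σ : List (Move E) → Move E) : Prop :=
  ∀ play : ℕ → Move E,
    (∀ n, Even n → play n = σ (history play n)) →
    (∀ n, Odd n → LegalAt play n) →
    (∀ n, Even n → LegalAt play n) ∧ (⋂ n : ℕ, (play (n + 1)).chosen) = ∅

end Pool.Agent.H391Z.Game
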