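import Mathlib
import Pool.Agent.H391Z.GameDefs

namespace Pool.Agent.H391Z.Game

universe u
variable {E : Type u}

lemma history_succ (play : ℕ → Move E) (n : ℕ) :
    history play (n + 1) = history play n ++ [play n] := by
  simp [history, List.range_succ]

lemma history_length (play : ℕ → Move E) (n : ℕ) : (history play n).length = n := by
  simp [history]

section countable
open Classical

/-- A's strategy on a countable set -/
noncomputable def stratA (g : E → ℕ) (h : List (Move E)) : Move E :=
  match h.getLast? with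
  | none => ⟨Set.univ, Set.univ, ∅⟩
  | some m =>
    if ∃ x ∈ m.left, 2 * g x + 2 = h.length then ⟨m.right, m.right, ∅⟩ else ⟨m.left, m.left, ∅⟩

lemma stratA_zero (g : E → ℕ) (play : ℕ → Move E) :
    stratA g (history play 0) = ⟨Set.univ, Set.univ, ∅⟩ := by
  simp [stratA, history]

lemma stratA_succ (g : E → ℕ) (play : ℕ → Move E) (k : ℕ) :
    stratA g (history play (k + 1)) =
      if ∃ x ∈ (play k).left, 2 * g x + 2 = k + 1 then ⟨(play k).right, (play k).right, ∅⟩
      else ⟨(play k).left, (play k).left, ∅⟩ := by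
  have h1 : (history play (k + 1)).getLast? = some (play k) := by
    rw [history_succ]; simp
  unfold stratA
  rw [h1, history_length]

theorem win_of_countable [Countable E] : ∃ σ : List (Move E) → Move E, IsWinningForA σ := by
  obtain ⟨g, hg⟩ := Countable.exists_injective_nat E
  refine ⟨stratA g, fun play hA hB => ⟨fun n hn => ?_, ?_⟩⟩
  · have h := hA n hn
    rcases n with _ | k
    · rw [stratA_zero] at h
      refine ⟨?_, ?_, ?_, ?_⟩
      · rw [h]; simp
      · rw [h]; simp
      · intro _; rw [h]
      · intro k hk; omega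
    · rw [stratA_succ] at h
      refine ⟨?_, ?_, ?_, ?_⟩
      · rw [h]; split_ifs <;> simp
      · rw [h]; split_ifs <;> simp
      · intro hk; omega
      · intro j hj
        obtain rfl : j = k := by omega
        rw [h]; split_ifs <;> simp
  · rw [Set.eq_empty_iff_forall_notMem]
    intro x hx
    rw [Set.mem_iInter] at hx
    have h1 := hx (2 * g x + 1)
    have h2 := hA (2 * g x + 1 + 1) ⟨g x + 1, by ring⟩
    have h3 := (hB (2 * g x + 1) ⟨g x, rfl⟩).1
    rw [stratA_succ] at h2
    rw [h2] at h1
    split_ifs at h1 with hc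
    · obtain ⟨y, hy, hy2⟩ := hc
      have : y = x := hg (by omega)
      subst this
      exact Set.disjoint_left.1 h3 hy h1
    · exact hc ⟨x, h1, by ring⟩

end countable

section uncountable

/-- the part of a move named by a bit -/
def side (m : Move E) (b : Bool) : Set E := if b then m.left else m.right

/-- B's restricted moves -/
def bm (f : E → ℕ → Bool) (m : Move E) (a : Bool × ℕ) : Move E :=
  ⟨side m a.1, side m a.1 ∩ {x | f x a.2 = true}, side m a.1 ∩ {x | f x a.2 = false}⟩

/-- the history produced by a list of codes of B's moves -/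
def HL (f : E → ℕ → Bool) (σ : List (Move E) → Move E) : List (Bool × ℕ) → List (Move E)
  | [] => []
  | a :: l => HL f σ l ++ [σ (HL f σ l), bm f (σ (HL f σ l)) a]

/-- the first `k` codes, last one first -/
def cl (c : ℕ → Bool × ℕ) : ℕ → List (Bool × ℕ)
  | 0 => []
  | k + 1 => c k :: cl c k

lemma cl_congr (c c' : ℕ → Bool × ℕ) (k : ℕ) (h : ∀ i < k, c i = c' i) : cl c k = cl c' k := by
  induction k with
  | zero => rfl
  | succ k ih =>
    simp only [cl]
    rw [h k (by omega), ih (fun i hi => h i (by omega))]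

lemma exists_cl (l : List (Bool × ℕ)) : ∃ c k, cl c k = l := by
  induction l with
  | nil => exact ⟨fun _ => (true, 0), 0, rfl⟩
  | cons a l ih =>
    obtain ⟨c, k, rfl⟩ := ih
    refine ⟨Function.update c k a, k + 1, ?_⟩
    simp only [cl, Function.update_self]
    rw [cl_congr (Function.update c k a) c k
      (fun i hi => Function.update_of_ne (by omega) _ _)]

/-- the play determined by a sequence of codes -/
def playOf (f : E → ℕ → Bool) (σ : List (Move E) → Move E) (c : ℕ → Bool × ℕ) (n : ℕ) : Move E :=
  if n % 2 = 0 then σ (HL f σ (cl c (n / 2))) else bm f (σ (HL f σ (cl c (n / 2)))) (c (n / 2))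

variable (f : E → ℕ → Bool) (σ : List (Move E) → Move E) (c : ℕ → Bool × ℕ)

lemma playOf_even (k : ℕ) : playOf f σ c (2 * k) = σ (HL f σ (cl c k)) := by
  have h1 : 2 * k % 2 = 0 := by omega
  have h2 : 2 * k / 2 = k := by omega
  simp [playOf, h1, h2]

lemma playOf_odd (k : ℕ) : playOf f σ c (2 * k + 1) = bm f (σ (HL f σ (cl c k))) (c k) := by
  have h1 : (2 * k + 1) % 2 = 1 := by omega
  have h2 : (2 * k + 1) / 2 = k := by omega
  simp [playOf, h1, h2]

lemma history_playOf (k : ℕ) : history (playOf f σ c) (2 * k) = HL f σ (cl c k) := by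
  induction k with
  | zero => simp [history, cl, HL]
  | succ k ih =>
    have : 2 * (k + 1) = 2 * k + 1 + 1 := by ring
    rw [this, history_succ, history_succ, ih, playOf_even, playOf_odd]
    simp [cl, HL]

lemma playOf_follows (n : ℕ) (hn : Even n) :
    playOf f σ c n = σ (history (playOf f σ c) n) := by
  obtain ⟨k, rfl⟩ := hn
  rw [← two_mul, history_playOf, playOf_even]

lemma playOf_legalB (n : ℕ) (hn : Odd n) : LegalAt (playOf f σ c) n := by
  obtain ⟨k, rfl⟩ := hn
  refine ⟨?_, ?_, ?_, ?_⟩
  · rw [playOf_odd, Set.disjoint_left]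
    rintro x ⟨_, h1⟩ ⟨_, h2⟩
    simp only [Set.mem_ofPred_eq] at h1 h2
    rw [h1] at h2
    exact absurd h2 (by simp)
  · rw [playOf_odd]
    ext x
    simp only [bm, Set.mem_union, Set.mem_inter_iff, Set.mem_ofPred_eq]
    cases f x (c k).2 <;> simp
  · intro h; omega
  · intro j hj
    obtain rfl : j = 2 * k := by omega
    rw [playOf_odd, playOf_even]
    simp only [bm, side]
    cases (c k).1 <;> simp

theorem not_win (hf : ¬ (Set.range f).Countable) : ¬ IsWinningForA σ := by
  intro hσ
  have hW := fun c => hσ (playOf f σ c) (playOf_follows f σ c) (playOf_legalB f σ c)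
  have L0 : (σ (HL f σ [])).chosen = Set.univ := by
    have := ((hW (fun _ => (true, 0))).1 (2 * 0) ⟨0, rfl⟩).2.2.1 rfl
    rw [playOf_even] at this
    exact this
  have L1 : ∀ l, (σ (HL f σ l)).left ∪ (σ (HL f σ l)).right = (σ (HL f σ l)).chosen := by
    intro l
    obtain ⟨c, k, rfl⟩ := exists_cl l
    have := ((hW c).1 (2 * k) ⟨k, by ring⟩).2.1
    rwa [playOf_even] at this
  have L2 : ∀ l a, (σ (HL f σ (a :: l))).chosen = (bm f (σ (HL f σ l)) a).left ∨
      (σ (HL f σ (a :: l))).chosen = (bm f (σ (HL f σ l)) a).right := by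
    intro l a
    obtain ⟨c, k, hk⟩ := exists_cl (a :: l)
    rcases k with _ | k
    · simp [cl] at hk
    simp only [cl, List.cons.injEq] at hk
    obtain ⟨rfl, rfl⟩ := hk
    have := ((hW c).1 (2 * (k + 1)) ⟨k + 1, by ring⟩).2.2.2 (2 * k + 1) (by ring)
    rw [playOf_even, playOf_odd] at this
    exact this
  let Rej : List (Bool × ℕ) × Bool → Set (ℕ → Bool) := fun p =>
    {z | ∃ x, f x = z ∧ x ∈ side (σ (HL f σ p.1)) p.2 ∧
      ∀ n, x ∉ (σ (HL f σ ((p.2, n) :: p.1))).chosen}
  have hsub : ∀ p, (Rej p).Subsingleton := by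
    rintro ⟨l, b⟩ _ ⟨x, rfl, hx1, hx2⟩ _ ⟨y, rfl, hy1, hy2⟩
    funext n
    by_contra hne
    have hx := hx2 n
    have hy := hy2 n
    simp only at hx hy hx1 hy1
    rcases L2 l (b, n) with h | h
    · rw [h] at hx hy
      simp only [bm, Set.mem_inter_iff, Set.mem_ofPred_eq, not_and] at hx hy
      have h1 := hx hx1
      have h2 := hy hy1
      revert hne h1 h2
      cases f x n <;> cases f y n <;> simp
    · rw [h] at hx hy
      simp only [bm, Set.mem_inter_iff, Set.mem_ofPred_eq, not_and] at hx hy
      have h1 := hx hx1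
      have h2 := hy hy1
      revert hne h1 h2
      cases f x n <;> cases f y n <;> simp
  have hcount : (⋃ p, Rej p).Countable :=
    Set.countable_iUnion fun p => (hsub p).countable
  have : ∃ x, ∀ p, f x ∉ Rej p := by
    by_contra hcon
    push Not at hcon
    apply hf
    refine hcount.mono ?_
    rintro _ ⟨x, rfl⟩
    exact Set.mem_iUnion.2 (hcon x)
  obtain ⟨x, hx⟩ := this
  have step : ∀ l, x ∈ (σ (HL f σ l)).chosen →
      ∃ a : Bool × ℕ, x ∈ side (σ (HL f σ l)) a.1 ∧ x ∈ (σ (HL f σ (a :: l))).chosen := by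
    intro l hl
    have : ∃ b, x ∈ side (σ (HL f σ l)) b := by
      rw [← L1] at hl
      rcases hl with h | h
      · exact ⟨true, by simpa [side] using h⟩
      · exact ⟨false, by simpa [side] using h⟩
    obtain ⟨b, hb⟩ := this
    have h2 := hx (l, b)
    simp only [Rej, Set.mem_ofPred_eq, not_exists, not_and, not_forall, not_not] at h2
    obtain ⟨n, hn⟩ := h2 x rfl hb
    exact ⟨(b, n), hb, hn⟩
  choose! nxt hn1 hn2 using step
  let ls : ℕ → List (Bool × ℕ) := fun k => Nat.rec [] (fun _ l => nxt l :: l) k
  let c : ℕ → Bool × ℕ := fun k => nxt (ls k)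
  have hcl : ∀ k, cl c k = ls k := by
    intro k
    induction k with
    | zero => rfl
    | succ k ih => simp only [cl]; rw [ih]
  have hin : ∀ k, x ∈ (σ (HL f σ (ls k))).chosen := by
    intro k
    induction k with
    | zero => show x ∈ (σ (HL f σ [])).chosen; rw [L0]; trivial
    | succ k ih => exact hn2 _ ih
  have hemp := (hW c).2
  rw [Set.eq_empty_iff_forall_notMem] at hemp
  apply hemp x
  rw [Set.mem_iInter]
  intro n
  rcases Nat.even_or_odd' (n + 1) with ⟨k, hk | hk⟩
  · rw [hk, playOf_even, hcl]; exact hin k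
  · rw [hk, playOf_odd, hcl]; exact hn1 _ (hin k)

lemma exists_fun [Uncountable E] : ∃ f : E → ℕ → Bool, ¬ (Set.range f).Countable := by
  rcases Function.Embedding.total E (ℕ → Bool) with ⟨⟨e⟩⟩ | ⟨⟨e⟩⟩
  · refine ⟨e, fun h => ?_⟩
    have : (Set.univ : Set E).Countable := by
      have := h.preimage_of_injOn (f := e) e.injective.injOn
      simpa using this
    exact Set.not_countable_univ this
  · refine ⟨Function.invFun e, fun h => ?_⟩
    rw [(Function.invFun_surjective e.injective).range_eq] at h
    have : Countable (ℕ → Bool) := Set.countable_univ_iff.1 h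
    obtain ⟨g, hg⟩ := exists_surjective_nat (ℕ → Bool)
    obtain ⟨n, hn⟩ := hg (fun n => !g n n)
    have := congrFun hn n
    simp at this

end uncountable

theorem main (E : Type u) : (∃ σ : List (Move E) → Move E, IsWinningForA σ) ↔ Countable E := by
  constructor
  · rintro ⟨σ, hσ⟩
    by_contra hE
    have : Uncountable E := not_countable_iff.1 hE
    obtain ⟨f, hf⟩ := exists_fun (E := E)
    exact not_win f σ hf hσ
  · intro _
    exact win_of_countable

end Pool.Agent.H391Z.Game
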