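import Mathlib
import Pool.Agent.H391Z.MeasC

/-! Rudin-Shapiro signs and localization for Rajchman measures. -/

open Filter Topology Real MeasureTheory Set

namespace Pool.Agent.H391Z.Moran

open Pool.Agent.H391Z.Uniq

/-- Rudin-Shapiro signs -/
def rs : ℕ → ℕ → Bool × Bool
  | 0, _ => (true, true)
  | k + 1, d => if d < 2 ^ k then ((rs k d).1, (rs k d).1)
      else ((rs k (d - 2 ^ k)).2, !(rs k (d - 2 ^ k)).2)

/-- sign of a Boolean -/
def sg (b : Bool) : ℂ := if b = true then 1 else -1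

lemma sg_not (b : Bool) : sg (!b) = -sg b := by cases b <;> simp [sg]

/-- first polynomial -/
noncomputable def PP (k : ℕ) (z : ℂ) : ℂ := ∑ d ∈ Finset.range (2 ^ k), sg (rs k d).1 * z ^ d

/-- second polynomial -/
noncomputable def QQ (k : ℕ) (z : ℂ) : ℂ := ∑ d ∈ Finset.range (2 ^ k), sg (rs k d).2 * z ^ d

lemma PP_succ (k : ℕ) (z : ℂ) : PP (k + 1) z = PP k z + z ^ (2 ^ k) * QQ k z := by
  unfold PP QQ
  rw [pow_succ, mul_two, Finset.sum_range_add, Finset.mul_sum]
  congr 1
  · refine Finset.sum_congr rfl fun d hd => ?_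
    rw [rs, if_pos (Finset.mem_range.1 hd)]
  · refine Finset.sum_congr rfl fun d _ => ?_
    rw [rs, if_neg (by omega), Nat.add_sub_cancel_left]
    ring

lemma QQ_succ (k : ℕ) (z : ℂ) : QQ (k + 1) z = PP k z - z ^ (2 ^ k) * QQ k z := by
  unfold PP QQ
  rw [pow_succ, mul_two, Finset.sum_range_add, Finset.mul_sum, sub_eq_add_neg,
    ← Finset.sum_neg_distrib]
  congr 1
  · refine Finset.sum_congr rfl fun d hd => ?_
    rw [rs, if_pos (Finset.mem_range.1 hd)]
  · refine Finset.sum_congr rfl fun d _ => ?_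
    rw [rs, if_neg (by omega), Nat.add_sub_cancel_left, sg_not]
    ring

lemma rs_norm (k : ℕ) (z : ℂ) (hz : ‖z‖ = 1) :
    ‖PP k z‖ ^ 2 + ‖QQ k z‖ ^ 2 = 2 ^ (k + 1) := by
  induction k with
  | zero => simp [PP, QQ, rs, sg]; norm_num
  | succ k ih =>
    rw [PP_succ, QQ_succ]
    have h := parallelogram_law_with_norm ℝ (PP k z) (z ^ (2 ^ k) * QQ k z)
    rw [norm_mul, norm_pow, hz, one_pow, one_mul] at h
    rw [pow_succ (2 : ℝ) (k + 1), ← ih]
    nlinarith

lemma QQ_le (n : ℕ) (z : ℂ) (hz : ‖z‖ = 1) : ‖QQ (2 * n + 1) z‖ ≤ 2 ^ (n + 1) := by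
  have h := rs_norm (2 * n + 1) z hz
  have e : (2 : ℝ) ^ (2 * n + 1 + 1) = (2 ^ (n + 1)) ^ 2 := by ring
  rw [e] at h
  refine abs_le_of_sq_le_sq' ?_ (by positivity) |>.2
  nlinarith [sq_nonneg ‖PP (2 * n + 1) z‖]

section loc

variable {Ω : Type} [MeasurableSpace Ω] (P : Measure Ω) [IsProbabilityMeasure P] (X : Ω → ℝ)

lemma integrable_comp (hX : Measurable X) (F : ℝ → ℂ) (hF : Continuous F) (C : ℝ)
    (hC : ∀ x, ‖F x‖ ≤ C) : Integrable (fun ω => F (X ω)) P :=
  Integrable.of_bound (hF.measurable.comp hX).aestronglyMeasurable C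
    (Eventually.of_forall fun ω => hC _)

lemma rajchman_cont (hX : Measurable X)
    (hΦ : ∀ k : ℤ, Tendsto (fun N : ℕ => ∫ ω, E (k - N) (X ω) ∂P) atTop (𝓝 0))
    (h : C(AddCircle (1 : ℝ), ℂ)) :
    Tendsto (fun N : ℕ => ∫ ω, E (-N) (X ω) * h (X ω) ∂P) atTop (𝓝 0) := by
  have hint : ∀ (f : C(AddCircle (1 : ℝ), ℂ)) (N : ℕ),
      Integrable (fun ω => E (-N) (X ω) * f (X ω)) P := fun f N =>
    integrable_comp P X hX (fun x => E (-N) x * f x)
      ((continuous_E _).mul (f.continuous.comp (AddCircle.continuous_mk' 1))) ‖f‖ fun x => by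
        rw [norm_mul, norm_E, one_mul]; exact f.norm_coe_le_norm _
  have hmem : ∀ f ∈ (Submodule.span ℂ (range <| @fourier 1)),
      Tendsto (fun N : ℕ => ∫ ω, E (-N) (X ω) * f (X ω) ∂P) atTop (𝓝 0) := by
    intro f hf
    induction hf using Submodule.span_induction with
    | mem f hf =>
      obtain ⟨n, rfl⟩ := hf
      refine (hΦ n).congr fun N => ?_
      congr 1
      funext ω
      rw [sub_eq_neg_add, E_add', fourier_coe_apply]
      congr 1
      unfold E
      simp
    | zero => simp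
    | add f g hf hg ihf ihg =>
      have := ihf.add ihg
      rw [add_zero] at this
      refine this.congr fun N => ?_
      rw [← integral_add (hint f N) (hint g N)]
      congr 1
      funext ω
      simp [mul_add]
    | smul c f hf ihf =>
      have := ihf.const_mul c
      rw [mul_zero] at this
      refine this.congr fun N => ?_
      rw [← integral_const_mul]
      congr 1
      funext ω
      simp only [ContinuousMap.coe_smul, Pi.smul_apply, smul_eq_mul]
      ring
  rw [Metric.tendsto_atTop]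
  intro ε hε
  have hcl : h ∈ (Submodule.span ℂ (range <| @fourier 1)).topologicalClosure := by
    rw [span_fourier_closure_eq_top]; trivial
  rw [← SetLike.mem_coe, Submodule.topologicalClosure_coe, Metric.mem_closure_iff] at hcl
  obtain ⟨f, hf, hfd⟩ := hcl (ε / 2) (by positivity)
  obtain ⟨N0, hN0⟩ := Metric.tendsto_atTop.1 (hmem f hf) (ε / 2) (by positivity)
  refine ⟨N0, fun N hN => ?_⟩
  have h1 := hN0 N hN
  rw [dist_zero_right] at h1 ⊢
  have h2 : ∫ ω, E (-N) (X ω) * h (X ω) ∂P =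
      ∫ ω, E (-N) (X ω) * f (X ω) ∂P + ∫ ω, E (-N) (X ω) * (h - f) (X ω) ∂P := by
    rw [← integral_add (hint f N) (hint _ N)]
    congr 1
    funext ω
    simp [mul_sub]
  have h3 : ‖∫ ω, E (-N) (X ω) * (h - f) (X ω) ∂P‖ ≤ ‖h - f‖ := by
    have := norm_integral_le_of_norm_le_const (μ := P)
      (f := fun ω => E (-N) (X ω) * (h - f) (X ω)) (C := ‖h - f‖)
      (Eventually.of_forall fun ω => by
        rw [norm_mul, norm_E, one_mul]; exact (h - f).norm_coe_le_norm _)
    simpa using this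
  rw [dist_eq_norm] at hfd
  rw [h2]
  exact lt_of_le_of_lt (norm_add_le _ _) (by linarith)

lemma re_geom (z : ℂ) (hz : ‖z‖ = 1) (h1 : z ≠ 1) (N : ℕ) :
    (2 * ∑ n ∈ Finset.range N, z ^ n - 1).re = (2 * (z ^ N * (z - 1)⁻¹)).re := by
  have h2 : z - 1 ≠ 0 := sub_ne_zero.2 h1
  have h3 : 2 * ∑ n ∈ Finset.range N, z ^ n - 1 =
      2 * (z ^ N * (z - 1)⁻¹) - (z + 1) / (z - 1) := by
    rw [geom_sum_eq h1]
    field_simp
    ring
  have h4 : ((z + 1) / (z - 1)).re = 0 := by
    have h5 : z.re * z.re + z.im * z.im = 1 := by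
      rw [← Complex.normSq_apply, Complex.normSq_eq_norm_sq, hz]; norm_num
    rw [Complex.div_re, ← add_div]
    simp only [Complex.add_re, Complex.one_re, Complex.sub_re, Complex.add_im, Complex.one_im,
      Complex.sub_im]
    have : (z.re + 1) * (z.re - 1) + (z.im + 0) * (z.im - 0) = 0 := by linarith
    rw [this, zero_div]
  rw [h3, Complex.sub_re, h4, sub_zero]

theorem localization (hX : Measurable X)
    (hΦ : ∀ k : ℤ, Tendsto (fun N : ℕ => ∫ ω, E (k - N) (X ω) ∂P) atTop (𝓝 0))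
    (x δ : ℝ) (hδ : 0 < δ) (hx : ∀ ω, δ ≤ ‖E 1 (x - X ω) - 1‖) :
    Tendsto (fun N : ℕ => ∑ n ∈ Finset.range N,
      ((2 * (∫ ω, E n (X ω) ∂P).re - if n = 0 then 1 else 0) * Real.cos (2 * π * n * x) +
        (2 * (∫ ω, E n (X ω) ∂P).im) * Real.sin (2 * π * n * x))) atTop (𝓝 0) := by
  let w : AddCircle (1 : ℝ) → ℂ := fun y => E 1 x * fourier (-1) y - 1
  have hw : Continuous w := by fun_prop
  have hwe : ∀ y : ℝ, w y = E 1 (x - y) - 1 := by
    intro y
    simp only [w]
    rw [sub_eq_add_neg x, E_add, fourier_coe_apply]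
    congr 2
    unfold E
    simp
  let h : C(AddCircle (1 : ℝ), ℂ) :=
    ⟨fun y => (starRingEnd ℂ) (w y) / ((max (‖w y‖ ^ 2) (δ ^ 2) : ℝ) : ℂ), by
      refine Continuous.div (by fun_prop) (by fun_prop) fun y => ?_
      have : 0 < max (‖w y‖ ^ 2) (δ ^ 2) := lt_max_of_lt_right (by positivity)
      exact_mod_cast this.ne'⟩
  have hh : ∀ ω, h (X ω) = (E 1 (x - X ω) - 1)⁻¹ := by
    intro ω
    have h1 := hx ω
    simp only [h, ContinuousMap.coe_mk, hwe]
    rw [max_eq_left (by gcongr), Complex.inv_def, Complex.normSq_eq_norm_sq, div_eq_mul_inv]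
    push_cast
    rfl
  have h1 := rajchman_cont P X hX hΦ h
  have h2 : Tendsto (fun N : ℕ => (2 * (E N x * ∫ ω, E (-N) (X ω) * h (X ω) ∂P)).re) atTop
      (𝓝 0) := by
    have h3 : Tendsto (fun N : ℕ => E N x * ∫ ω, E (-N) (X ω) * h (X ω) ∂P) atTop (𝓝 0) := by
      rw [tendsto_zero_iff_norm_tendsto_zero] at h1 ⊢
      refine h1.congr fun N => ?_
      rw [norm_mul, norm_E, one_mul]
    have h4 := (Complex.continuous_re.tendsto _).comp (h3.const_mul 2)
    rw [mul_zero, Complex.zero_re] at h4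
    exact h4
  refine h2.congr' ?_
  filter_upwards [eventually_ge_atTop 1] with N hN
  have hE : ∀ (n : ℕ) (y : ℝ), E 1 (x - y) ^ n = E n x * E (-n) y := by
    intro n y
    rw [← E_nat_mul]
    unfold E
    rw [← Complex.exp_add]
    congr 1
    push_cast
    ring
  have hint : ∀ n : ℤ, Integrable (fun ω => E n (X ω)) P := fun n =>
    integrable_comp P X hX (E n) (continuous_E n) 1 fun x => (norm_E n x).le
  have hint2 : Integrable (fun ω => 2 * (E N x * (E (-N) (X ω) * h (X ω)))) P :=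
    ((integrable_comp P X hX (fun y => E (-N) y * h y)
      ((continuous_E _).mul (h.continuous.comp (AddCircle.continuous_mk' 1))) ‖h‖ fun x => by
        rw [norm_mul, norm_E, one_mul]; exact h.norm_coe_le_norm _).const_mul _).const_mul _
  have hint3 : Integrable (fun ω => ∑ n ∈ Finset.range N, E n x * E (-n) (X ω)) P :=
    integrable_finset_sum _ fun n _ => (hint _).const_mul _
  have h5 : (2 * (E N x * ∫ ω, E (-N) (X ω) * h (X ω) ∂P)).re =
      (∫ ω, (2 * ∑ n ∈ Finset.range N, E n x * E (-n) (X ω) - 1) ∂P).re := by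
    rw [← integral_const_mul, ← integral_const_mul]
    have a1 := integral_re hint2
    have a2 := integral_re ((hint3.const_mul 2).sub (integrable_const 1))
    simp only [RCLike.re_to_complex, Pi.sub_apply] at a1 a2
    rw [← a1, ← a2]
    congr 1
    funext ω
    have h6 : E 1 (x - X ω) ≠ 1 := by
      intro h7
      have := hx ω
      rw [h7, sub_self, norm_zero] at this
      linarith
    have h7 := re_geom _ (norm_E 1 (x - X ω)) h6 N
    simp_rw [hE] at h7
    rw [h7, hh, mul_assoc]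
  rw [h5, integral_sub (hint3.const_mul 2) (integrable_const 1), integral_const_mul,
    integral_finset_sum _ fun n _ => (hint _).const_mul _]
  simp_rw [integral_const_mul]
  have h8 : ∀ n : ℕ, ∫ ω, E (-n) (X ω) ∂P = (starRingEnd ℂ) (∫ ω, E n (X ω) ∂P) := by
    intro n
    rw [← integral_conj]
    congr 1
    funext ω
    rw [E_eq, E_eq, ← Complex.exp_conj, map_mul, Complex.conj_ofReal, Complex.conj_I]
    congr 1
    push_cast
    ring
  have h9 : ∑ n ∈ Finset.range N, (if n = 0 then (1 : ℝ) else 0) * Real.cos (2 * π * n * x) = 1 := by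
    rw [Finset.sum_eq_single 0]
    · simp
    · intro b _ hb; simp [hb]
    · intro h0; exact absurd (Finset.mem_range.2 hN) h0
  simp_rw [h8, sub_mul, sub_add_eq_add_sub]
  rw [Finset.sum_sub_distrib, h9, Finset.mul_sum, Complex.sub_re, Complex.re_sum]
  congr 1
  · refine Finset.sum_congr rfl fun n _ => ?_
    rw [E_eq]
    simp only [Complex.mul_re, Complex.exp_ofReal_mul_I_re, Complex.exp_ofReal_mul_I_im,
      Complex.conj_re, Complex.conj_im, Complex.re_ofNat, Complex.im_ofNat, Complex.mul_im]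
    push_cast
    ring
  · simp

end loc

end Pool.Agent.H391Z.Moran
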