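import Mathlib
import Pool.Agent.H391Z.MoranA
import Pool.Agent.H391Z.MoranDefs

/-! A null Moran set carrying a Rajchman measure. -/

open Filter Topology Real MeasureTheory Set ProbabilityTheory
open scoped ENNReal

namespace Pool.Agent.H391Z.Moran

open Pool.Agent.H391Z.Uniq Pool.Agent.H391Z.Meas

/-- number of digits -/
def LL (n : ℕ) : ℕ := 2 ^ (2 * n + 1)

/-- base -/
def MM (n : ℕ) : ℕ := 2 * LL n

/-- digits -/
def dg (n j : ℕ) : ℕ := j + if (rs (2 * n + 1) j).2 = true then LL n else 0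

/-- digit sets -/
def DD (n : ℕ) : Finset ℕ := (Finset.range (LL n)).image (dg n)

/-- products of bases -/
noncomputable def NN (m : ℕ) : ℝ := ∏ i ∈ Finset.range m, (MM i : ℝ)

lemma LL_pos (n : ℕ) : 0 < LL n := by unfold LL; positivity

instance (n : ℕ) : NeZero (LL n) := ⟨(LL_pos n).ne'⟩

lemma two_le_MM (n : ℕ) : 2 ≤ MM n := by have := LL_pos n; unfold MM; omega

lemma dg_lt (n j : ℕ) (hj : j < LL n) : dg n j < MM n := by
  unfold dg MM; split_ifs <;> omega

lemma NN_succ (m : ℕ) : NN (m + 1) = NN m * MM m := Finset.prod_range_succ _ _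

lemma NN_pos (m : ℕ) : 0 < NN m :=
  Finset.prod_pos fun i _ => by have := two_le_MM i; positivity

lemma NN_ge (m : ℕ) : (2 : ℝ) ^ m ≤ NN m := by
  induction m with
  | zero => simp [NN]
  | succ m ih =>
    rw [NN_succ, pow_succ]
    have : (2 : ℝ) ≤ MM m := by exact_mod_cast two_le_MM m
    have := NN_pos m
    gcongr

lemma tail_fin (d : ℕ → ℝ) (hd : ∀ n, d n ≤ MM n - 1) (m k : ℕ) :
    ∑ n ∈ Finset.range k, d (n + m) / NN (n + m + 1) ≤ 1 / NN m - 1 / NN (k + m) := by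
  induction k with
  | zero => simp
  | succ k ih =>
    rw [Finset.sum_range_succ]
    have h1 := NN_pos (k + m)
    have h2 : (0 : ℝ) < MM (k + m) := by have := two_le_MM (k + m); positivity
    have h3 : d (k + m) / NN (k + m + 1) ≤ 1 / NN (k + m) - 1 / NN (k + 1 + m) := by
      rw [show k + 1 + m = k + m + 1 by ring, NN_succ]
      calc d (k + m) / (NN (k + m) * MM (k + m))
          ≤ (MM (k + m) - 1) / (NN (k + m) * MM (k + m)) := by gcongr; exact hd _
        _ = _ := by field_simp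
    linarith

lemma tail_fin' (d : ℕ → ℝ) (hd : ∀ n, d n ≤ MM n - 1) (m k : ℕ) :
    ∑ n ∈ Finset.range k, d (n + m) / NN (n + m + 1) ≤ 1 / NN m := by
  have := tail_fin d hd m k
  have h2 : 0 < 1 / NN (k + m) := by have := NN_pos (k + m); positivity
  linarith

lemma summable_dig (d : ℕ → ℝ) (h0 : ∀ n, 0 ≤ d n) (hd : ∀ n, d n ≤ MM n - 1) :
    Summable fun n => d n / NN (n + 1) :=
  summable_of_sum_range_le (fun n => div_nonneg (h0 n) (NN_pos _).le)
    (fun k => by simpa using tail_fin' d hd 0 k)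

lemma split_dig (d : ℕ → ℝ) (h0 : ∀ n, 0 ≤ d n) (hd : ∀ n, d n ≤ MM n - 1) (m : ℕ) :
    ∑' n, d n / NN (n + 1) ∈ Icc (∑ n ∈ Finset.range m, d n / NN (n + 1))
      (∑ n ∈ Finset.range m, d n / NN (n + 1) + 1 / NN m) := by
  have hs := summable_dig d h0 hd
  rw [← hs.sum_add_tsum_nat_add m]
  have h1 : 0 ≤ ∑' n, d (n + m) / NN (n + m + 1) :=
    tsum_nonneg fun n => div_nonneg (h0 _) (NN_pos _).le
  have h2 : ∑' n, d (n + m) / NN (n + m + 1) ≤ 1 / NN m :=
    ((summable_nat_add_iff m).2 hs).tsum_le_of_sum_range_le (tail_fin' d hd m)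
  constructor <;> linarith

/-- sample space -/
abbrev Om : Type := (n : ℕ) → Fin (LL n)

/-- the product measure -/
noncomputable def PM : Measure Om := Measure.infinitePi fun n => uniformOn (univ : Set (Fin (LL n)))

instance : IsProbabilityMeasure PM := by unfold PM; infer_instance

lemma dg_le (n : ℕ) (j : Fin (LL n)) : (dg n j : ℝ) ≤ MM n - 1 := by
  have : dg n j + 1 ≤ MM n := dg_lt n j j.2
  have : (dg n j : ℝ) + 1 ≤ MM n := by exact_mod_cast this
  linarith

/-- the random point -/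
noncomputable def XX (ω : Om) : ℝ := ∑' n, (dg n (ω n) : ℝ) / NN (n + 1)

lemma continuous_XX : Continuous XX := by
  refine continuous_tsum (u := fun n => ((MM n : ℝ) - 1) / NN (n + 1)) (fun n => ?_)
    (summable_dig _ (fun n => ?_) fun n => le_rfl) fun n ω => ?_
  · exact (continuous_of_discreteTopology
      (f := fun j : Fin (LL n) => (dg n j : ℝ) / NN (n + 1))).comp (continuous_apply n)
  · have : (2 : ℝ) ≤ MM n := by exact_mod_cast two_le_MM n
    linarith
  · have := NN_pos (n + 1)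
    rw [Real.norm_eq_abs, abs_of_nonneg (by positivity)]
    gcongr
    exact dg_le n _

lemma range_XX : range XX = moran MM DD := by
  ext x
  constructor
  · rintro ⟨ω, rfl⟩
    exact ⟨fun n => dg n (ω n), fun n => Finset.mem_image_of_mem _ (Finset.mem_range.2 (ω n).2),
      rfl⟩
  · rintro ⟨d, hd, rfl⟩
    have : ∀ n, ∃ j : Fin (LL n), dg n j = d n := fun n => by
      obtain ⟨j, hj, e⟩ := Finset.mem_image.1 (hd n)
      exact ⟨⟨j, Finset.mem_range.1 hj⟩, e⟩
    choose ω hω using this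
    refine ⟨ω, ?_⟩
    unfold XX
    simp_rw [hω]
    rfl

lemma XX_mem (ω : Om) : 1 / 4 ≤ XX ω ∧ XX ω ≤ 3 / 4 := by
  have h := split_dig (fun n => (dg n (ω n) : ℝ)) (fun n => by positivity) (fun n => dg_le n _) 1
  have e : NN 1 = 4 := by simp [NN, MM, LL]; norm_num
  have h2 : ∀ j, j < LL 0 → 1 ≤ dg 0 j ∧ dg 0 j ≤ 2 := by decide
  obtain ⟨h3, h4⟩ := h2 _ (ω 0).2
  have h3 : (1 : ℝ) ≤ dg 0 (ω 0) := by exact_mod_cast h3
  have h4 : (dg 0 (ω 0) : ℝ) ≤ 2 := by exact_mod_cast h4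
  simp only [Finset.sum_range_one, zero_add, e] at h
  unfold XX
  constructor <;> linarith [h.1, h.2]

lemma prod_LL (m : ℕ) : (∏ i ∈ Finset.range m, (LL i : ℝ)) * (1 / NN m) = (1 / 2) ^ m := by
  induction m with
  | zero => simp [NN]
  | succ m ih =>
    rw [Finset.prod_range_succ, NN_succ, pow_succ, ← ih, MM]
    have := NN_pos m
    have : (0 : ℝ) < LL m := by exact_mod_cast LL_pos m
    push_cast
    field_simp

lemma volume_zero : volume (range XX) = 0 := by
  have h : ∀ m : ℕ, volume (range XX) ≤ ENNReal.ofReal ((1 / 2) ^ m) := by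
    intro m
    let s : ((i : Fin m) → Fin (LL i)) → ℝ := fun w => ∑ i : Fin m, (dg i (w i) : ℝ) / NN (i + 1)
    have h1 : range XX ⊆ ⋃ w, Icc (s w) (s w + 1 / NN m) := by
      rintro _ ⟨ω, rfl⟩
      refine mem_iUnion.2 ⟨fun i => ω i, ?_⟩
      have := split_dig (fun n => (dg n (ω n) : ℝ)) (fun n => by positivity)
        (fun n => dg_le n _) m
      rw [← Fin.sum_univ_eq_sum_range (fun n => (dg n (ω n) : ℝ) / NN (n + 1))] at this
      exact this
    refine (measure_mono h1).trans ((measure_iUnion_fintype_le _ _).trans (le_of_eq ?_))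
    simp only [Real.volume_Icc, add_sub_cancel_left, Finset.sum_const, Finset.card_univ,
      Fintype.card_pi, Fintype.card_fin, nsmul_eq_mul]
    rw [← prod_LL, ENNReal.ofReal_mul (by positivity), Fin.prod_univ_eq_prod_range LL,
      ← Nat.cast_prod, ENNReal.ofReal_natCast]
  have h2 : Tendsto (fun m : ℕ => ENNReal.ofReal ((1 / 2) ^ m)) atTop (𝓝 0) := by
    rw [← ENNReal.ofReal_zero]
    exact ENNReal.tendsto_ofReal (tendsto_pow_atTop_nhds_zero_of_lt_one (by norm_num) (by norm_num))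
  exact le_antisymm (ge_of_tendsto' h2 h) zero_le

/-- mask of the digit set -/
noncomputable def ff (ξ : ℤ) (n : ℕ) : ℂ :=
  (∑ j ∈ Finset.range (LL n), E ξ (1 / NN (n + 1)) ^ dg n j) / LL n

/-- mask of the full digit set -/
noncomputable def gg (ξ : ℤ) (n : ℕ) : ℂ :=
  (∑ j ∈ Finset.range (MM n), E ξ (1 / NN (n + 1)) ^ j) / MM n

lemma norm_avg (z : ℂ) (hz : ‖z‖ = 1) (L : ℕ) (e : ℕ → ℕ) :
    ‖(∑ j ∈ Finset.range L, z ^ e j) / L‖ ≤ 1 := by
  rw [norm_div, Complex.norm_natCast]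
  refine div_le_one_of_le₀ ((norm_sum_le _ _).trans ?_) (by positivity)
  simp [norm_pow, hz]

lemma norm_ff (ξ : ℤ) (n : ℕ) : ‖ff ξ n‖ ≤ 1 := norm_avg _ (norm_E _ _) _ _

lemma norm_gg (ξ : ℤ) (n : ℕ) : ‖gg ξ n‖ ≤ 1 := norm_avg _ (norm_E _ _) _ fun j => j

lemma ff_sub_gg (ξ : ℤ) (n : ℕ) : ‖ff ξ n - gg ξ n‖ ≤ (1 / 2) ^ n := by
  set z := E ξ (1 / NN (n + 1)) with hz
  have hz1 : ‖z‖ = 1 := norm_E _ _
  have hL : (LL n : ℂ) ≠ 0 := by exact_mod_cast (LL_pos n).ne'
  have h1 : ff ξ n - gg ξ n = (z ^ LL n - 1) * QQ (2 * n + 1) z / (2 * LL n) := by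
    have h2 : 2 * ∑ j ∈ Finset.range (LL n), z ^ dg n j =
        ∑ j ∈ Finset.range (MM n), z ^ j + (z ^ LL n - 1) * QQ (2 * n + 1) z := by
      rw [MM, two_mul (LL n), Finset.sum_range_add, QQ, Finset.mul_sum, Finset.mul_sum,
        ← Finset.sum_add_distrib]
      change _ = _ + ∑ j ∈ Finset.range (LL n), _
      rw [← Finset.sum_add_distrib]
      refine Finset.sum_congr rfl fun j _ => ?_
      unfold dg sg
      split_ifs <;> ring
    unfold ff gg
    rw [← hz, MM] at *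
    push_cast
    field_simp
    linear_combination h2
  rw [h1, norm_div, norm_mul, norm_mul, Complex.norm_natCast, Complex.norm_two,
    div_le_iff₀ (by have := LL_pos n; positivity)]
  have h3 : ‖z ^ LL n - 1‖ ≤ 2 := by
    refine (norm_sub_le _ _).trans ?_
    rw [norm_pow, hz1, norm_one]; norm_num
  have h4 := QQ_le n z hz1
  calc _ ≤ (2 : ℝ) * 2 ^ (n + 1) := by gcongr
    _ = (1 / 2) ^ n * (2 * (LL n : ℝ)) := by
      rw [LL]
      push_cast
      rw [one_div, inv_pow]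
      field_simp
      ring

lemma gg_tele (ξ : ℤ) (J k : ℕ) :
    (∏ i ∈ Finset.range k, gg ξ (J + i)) * (NN (J + k) : ℂ) * (1 - E ξ (1 / NN (J + k))) =
      NN J * (1 - E ξ (1 / NN J)) := by
  induction k with
  | zero => simp
  | succ k ih =>
    have hM : (MM (J + k) : ℂ) ≠ 0 := by
      have := two_le_MM (J + k)
      exact_mod_cast (by omega : MM (J + k) ≠ 0)
    have h1 : E ξ (1 / NN (J + k)) = E ξ (1 / NN (J + k + 1)) ^ MM (J + k) := by
      rw [← E_nat_mul, NN_succ]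
      congr 1
      have := NN_pos (J + k)
      have : (0 : ℝ) < MM (J + k) := by have := two_le_MM (J + k); positivity
      field_simp
    have h2 : gg ξ (J + k) * MM (J + k) * (1 - E ξ (1 / NN (J + k + 1))) =
        1 - E ξ (1 / NN (J + k)) := by
      rw [gg, div_mul_cancel₀ _ hM, h1, geom_sum_mul_neg]
    rw [Finset.prod_range_succ, ← ih, ← add_assoc, ← h2, NN_succ (J + k)]
    push_cast
    ring

lemma prod_diff (f g : ℕ → ℂ) (hf : ∀ i, ‖f i‖ ≤ 1) (hg : ∀ i, ‖g i‖ ≤ 1) (k : ℕ) :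
    ‖∏ i ∈ Finset.range k, f i - ∏ i ∈ Finset.range k, g i‖ ≤
      ∑ i ∈ Finset.range k, ‖f i - g i‖ := by
  induction k with
  | zero => simp
  | succ k ih =>
    rw [Finset.prod_range_succ, Finset.prod_range_succ, Finset.sum_range_succ]
    have h1 : ‖∏ i ∈ Finset.range k, g i‖ ≤ 1 := by
      rw [norm_prod]
      exact Finset.prod_le_one (fun i _ => norm_nonneg _) fun i _ => hg i
    have e : (∏ i ∈ Finset.range k, f i) * f k - (∏ i ∈ Finset.range k, g i) * g k =
        (∏ i ∈ Finset.range k, f i - ∏ i ∈ Finset.range k, g i) * f k +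
          (∏ i ∈ Finset.range k, g i) * (f k - g k) := by ring
    rw [e]
    refine (norm_add_le _ _).trans ?_
    rw [norm_mul, norm_mul]
    have := hf k
    calc _ ≤ (∑ i ∈ Finset.range k, ‖f i - g i‖) * 1 + 1 * ‖f k - g k‖ := by gcongr
      _ = _ := by ring

lemma prod_ff_le (ξ : ℤ) (hξ : ξ ≠ 0) (J k : ℕ) (hk : 2 * |(ξ : ℝ)| ≤ NN (J + k)) :
    ‖∏ i ∈ Finset.range (J + k), ff ξ i‖ ≤ NN J / |(ξ : ℝ)| + 2 * (1 / 2) ^ J := by
  have hx : (1 : ℝ) ≤ |(ξ : ℝ)| := by exact_mod_cast Int.one_le_abs hξ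
  have h1 : ‖∏ i ∈ Finset.range J, ff ξ i‖ ≤ 1 := by
    rw [norm_prod]
    exact Finset.prod_le_one (fun i _ => norm_nonneg _) fun i _ => norm_ff _ _
  have h2 := prod_diff (fun i => ff ξ (J + i)) (fun i => gg ξ (J + i)) (fun i => norm_ff _ _)
    (fun i => norm_gg _ _) k
  have h3 : ∑ i ∈ Finset.range k, ‖ff ξ (J + i) - gg ξ (J + i)‖ ≤ 2 * (1 / 2) ^ J := by
    calc _ ≤ ∑ i ∈ Finset.range k, (1 / 2 : ℝ) ^ J * (1 / 2) ^ i :=
          Finset.sum_le_sum fun i _ => by rw [← pow_add]; exact ff_sub_gg _ _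
      _ = (1 / 2 : ℝ) ^ J * ∑ i ∈ Finset.range k, (1 / 2) ^ i := by rw [Finset.mul_sum]
      _ ≤ (1 / 2 : ℝ) ^ J * 2 := by gcongr; exact sum_geometric_two_le k
      _ = _ := by ring
  have h4 : ‖∏ i ∈ Finset.range k, gg ξ (J + i)‖ ≤ NN J / |(ξ : ℝ)| := by
    have hp := NN_pos (J + k)
    have hJ := NN_pos J
    have h5 := congrArg norm (gg_tele ξ J k)
    rw [norm_mul, norm_mul, norm_mul, Complex.norm_real, Complex.norm_real, Real.norm_eq_abs,
      Real.norm_eq_abs, abs_of_pos hp, abs_of_pos hJ] at h5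
    have e2 : |(ξ : ℝ) * (1 / NN (J + k))| = |(ξ : ℝ)| / NN (J + k) := by
      rw [abs_mul, abs_of_pos (by positivity : 0 < 1 / NN (J + k)), mul_one_div]
    have h6 := norm_one_sub_E ξ (1 / NN (J + k)) (by rw [e2, div_le_iff₀ hp]; linarith)
    rw [e2] at h6
    have h7 : ‖1 - E ξ (1 / NN J)‖ ≤ 2 := by
      refine (norm_sub_le _ _).trans ?_
      rw [norm_E, norm_one]; norm_num
    have h8 : ‖∏ i ∈ Finset.range k, gg ξ (J + i)‖ * NN (J + k) * (4 * (|(ξ : ℝ)| / NN (J + k)))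
        ≤ NN J * 2 := by
      calc _ ≤ ‖∏ i ∈ Finset.range k, gg ξ (J + i)‖ * NN (J + k) *
            ‖1 - E ξ (1 / NN (J + k))‖ := by gcongr
        _ = _ := h5
        _ ≤ _ := by gcongr
    have e3 : ‖∏ i ∈ Finset.range k, gg ξ (J + i)‖ * NN (J + k) * (4 * (|(ξ : ℝ)| / NN (J + k)))
        = 4 * (‖∏ i ∈ Finset.range k, gg ξ (J + i)‖ * |(ξ : ℝ)|) := by field_simp
    rw [le_div_iff₀ (by linarith)]
    linarith
  have h9 := norm_le_norm_add_norm_sub' (∏ i ∈ Finset.range k, ff ξ (J + i))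
    (∏ i ∈ Finset.range k, gg ξ (J + i))
  rw [Finset.prod_range_add, norm_mul]
  calc _ ≤ 1 * ‖∏ i ∈ Finset.range k, ff ξ (J + i)‖ := by gcongr
    _ ≤ _ := by linarith

lemma integral_fin (ξ : ℤ) (m : ℕ) :
    ∫ ω, E ξ (∑ n ∈ Finset.range m, (dg n (ω n) : ℝ) / NN (n + 1)) ∂PM =
      ∏ n ∈ Finset.range m, ff ξ n := by
  let Y : (n : ℕ) → Fin (LL n) → ℂ := fun n j => E ξ (1 / NN (n + 1)) ^ dg n j
  have hY : ∀ n, Measurable (Y n) := fun n => measurable_of_finite _
  have h1 : iIndepFun (fun n (ω : Om) => Y n (ω n)) PM := iIndepFun_infinitePi hY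
  have h2 := (h1.precomp (g := fun i : Fin m => (i : ℕ)) Fin.val_injective)
    |>.integral_fun_prod_eq_prod_integral (fun i =>
      ((hY i).comp (measurable_pi_apply (X := fun n => Fin (LL n)) (i : ℕ))).aestronglyMeasurable)
  have h3 : ∀ ω : Om, E ξ (∑ n ∈ Finset.range m, (dg n (ω n) : ℝ) / NN (n + 1)) =
      ∏ i : Fin m, Y i (ω i) := by
    intro ω
    rw [Fin.prod_univ_eq_prod_range (fun n => Y n (ω n))]
    clear h2
    induction m with
    | zero => simp [E_zero']
    | succ m ih =>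
      rw [Finset.sum_range_succ, Finset.prod_range_succ, E_add, ih]
      simp only [Y]
      rw [← E_nat_mul, mul_one_div]
  simp_rw [h3]
  rw [h2, ← Fin.prod_univ_eq_prod_range (fun n => ff ξ n)]
  refine Finset.prod_congr rfl fun i _ => ?_
  have h4 := integral_map (μ := PM) (φ := fun ω : Om => ω i) (f := Y i)
    (measurable_pi_apply _).aemeasurable (hY i).aestronglyMeasurable
  rw [← h4, PM, Measure.infinitePi_map_eval, integral_fintype .of_finite, ff,
    ← Fin.sum_univ_eq_sum_range (fun j => E ξ (1 / NN (i + 1)) ^ dg i j), Finset.sum_div]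
  refine Finset.sum_congr rfl fun j _ => ?_
  rw [measureReal_def, uniformOn_univ]
  simp [Y, div_eq_inv_mul]

lemma Phi_le (ξ : ℤ) (hξ : ξ ≠ 0) (J : ℕ) :
    ‖∫ ω, E ξ (XX ω) ∂PM‖ ≤ NN J / |(ξ : ℝ)| + 2 * (1 / 2) ^ J := by
  have h1 : Tendsto (fun m => ∫ ω, E ξ (∑ n ∈ Finset.range m, (dg n (ω n) : ℝ) / NN (n + 1)) ∂PM)
      atTop (𝓝 (∫ ω, E ξ (XX ω) ∂PM)) := by
    refine tendsto_integral_of_dominated_convergence (fun _ => 1) (fun m => ?_)
      (integrable_const _) (fun m => Eventually.of_forall fun ω => (norm_E _ _).le)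
      (Eventually.of_forall fun ω => ?_)
    · refine ((continuous_E ξ).comp (continuous_finset_sum _ fun n _ => ?_)).aestronglyMeasurable
      exact (continuous_of_discreteTopology
        (f := fun j : Fin (LL n) => (dg n j : ℝ) / NN (n + 1))).comp (continuous_apply n)
    · exact ((continuous_E ξ).tendsto _).comp (summable_dig (fun n => (dg n (ω n) : ℝ))
        (fun n => by positivity) (fun n => dg_le n _)).hasSum.tendsto_sum_nat
  refine le_of_tendsto h1.norm ?_
  have h2 : ∀ᶠ m : ℕ in atTop, 2 * |(ξ : ℝ)| ≤ 2 ^ m :=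
    (tendsto_pow_atTop_atTop_of_one_lt (by norm_num : (1 : ℝ) < 2)).eventually_ge_atTop _
  filter_upwards [h2, eventually_ge_atTop J] with m hm hJ
  obtain ⟨k, rfl⟩ := Nat.exists_eq_add_of_le hJ
  rw [integral_fin]
  exact prod_ff_le ξ hξ J k (hm.trans (NN_ge _))

lemma Phi_tendsto (k : ℤ) :
    Tendsto (fun N : ℕ => ∫ ω, E (k - N) (XX ω) ∂PM) atTop (𝓝 0) := by
  rw [Metric.tendsto_nhds]
  intro ε hε
  obtain ⟨J, hJ⟩ := exists_pow_lt_of_lt_one (by positivity : 0 < ε / 4)
    (by norm_num : (1 / 2 : ℝ) < 1)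
  have h1 : Tendsto (fun N : ℕ => |((k - N : ℤ) : ℝ)|) atTop atTop := by
    refine tendsto_atTop_mono (fun N => ?_)
      (tendsto_atTop_add_const_right _ (-(k : ℝ)) tendsto_natCast_atTop_atTop)
    push_cast
    rw [abs_sub_comm]
    exact le_abs_self _
  have h2 := (h1.const_div_atTop (NN J)).eventually (gt_mem_nhds (by positivity : 0 < ε / 2))
  filter_upwards [h2, h1.eventually_gt_atTop 0] with N hN hN0
  rw [dist_zero_right]
  have h3 := Phi_le (k - N) (by intro h; rw [h] at hN0; simp at hN0) J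
  linarith

theorem main : ∃ (M : ℕ → ℕ) (D : ℕ → Finset ℕ), (∀ n, 2 ≤ M n) ∧
    (∀ n, (D n).Nonempty ∧ D n ⊆ Finset.range (M n)) ∧
    volume (moran M D) = 0 ∧ ¬ IsUniqueness (moran M D) := by
  refine ⟨MM, DD, two_le_MM, fun n => ⟨?_, ?_⟩, range_XX ▸ volume_zero, fun hU => ?_⟩
  · exact (Finset.nonempty_range_iff.2 (LL_pos n).ne').image _
  · intro d hd
    obtain ⟨j, hj, rfl⟩ := Finset.mem_image.1 hd
    exact Finset.mem_range.2 (dg_lt n j (Finset.mem_range.1 hj))
  · have h := (hU (fun n => 2 * (∫ ω, E n (XX ω) ∂PM).re - if n = 0 then 1 else 0)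
      (fun n => 2 * (∫ ω, E n (XX ω) ∂PM).im) ?_).1 0
    · simp [E_zero] at h
      norm_num at h
    · rintro x ⟨hx, hxK⟩
      rw [← range_XX] at hxK
      have hc : Continuous fun ω => ‖E 1 (x - XX ω) - 1‖ :=
        (((continuous_E 1).comp (continuous_const.sub continuous_XX)).sub continuous_const).norm
      obtain ⟨ω0, -, h0⟩ := isCompact_univ.exists_isMinOn univ_nonempty hc.continuousOn
      refine localization PM XX continuous_XX.measurable Phi_tendsto x _ ?_
        fun ω => h0 (mem_univ ω)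
      have h1 := XX_mem ω0
      have h2 : x - XX ω0 ≠ 0 := fun h => hxK ⟨ω0, by linarith⟩
      rw [norm_pos_iff, sub_ne_zero, E_eq]
      intro h3
      obtain ⟨n, hn⟩ := Complex.exp_eq_one_iff.1 h3
      have h4 : x - XX ω0 = n := by
        have h5 := congrArg Complex.im hn
        simp at h5
        have := Real.pi_pos
        have h6 : (2 * π) * (x - XX ω0 - n) = 0 := by linarith
        rcases mul_eq_zero.1 h6 with h | h
        · linarith
        · linarith
      have h7 : (n : ℝ) < 1 := by linarith [hx.2]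
      have h8 : (-1 : ℝ) < n := by linarith [hx.1]
      have h7 : n < 1 := by exact_mod_cast h7
      have h8 : -1 < n := by exact_mod_cast h8
      have : n = 0 := by omega
      rw [this] at h4
      exact h2 (by simpa using h4)

end Pool.Agent.H391Z.Moran
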