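import Mathlib

/-! A two-dimensional regular local ring whose Pythagoras number exceeds that of its fraction
field. -/

open Polynomial

namespace Pool.Agent.H391Z.Pyth

/-- the imaginary unit of the Gaussian integers -/
def ii : GaussianInt := ⟨0, 1⟩

lemma ii_sq : ii ^ 2 = -1 := by decide

/-- reduction modulo `1 + i` -/
def φ : GaussianInt →+* ZMod 2 := Zsqrtd.lift ⟨1, by decide⟩

lemma φ_apply (a : GaussianInt) : φ a = (a.re : ZMod 2) + a.im := by simp [φ]

lemma φ_dvd (a : GaussianInt) (h : φ a = 0) : (1 + ii) ∣ a := by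
  rw [φ_apply, ← Int.cast_add, ZMod.intCast_zmod_eq_zero_iff_dvd] at h
  obtain ⟨k, hk⟩ := h
  refine ⟨⟨k, k - a.re⟩, ?_⟩
  ext
  · simp [ii]
  · simp [ii]; push_cast at hk; linarith

/-- evaluation at the closed point -/
noncomputable def ev : GaussianInt[X] →+* ZMod 2 := φ.comp (evalRingHom 0)

/-- the prime ideal of the closed point -/
noncomputable def P : Ideal GaussianInt[X] := RingHom.ker ev

instance : Fact (Nat.Prime 2) := ⟨Nat.prime_two⟩

instance : P.IsPrime := RingHom.ker_isPrime ev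

lemma mem_P (f : GaussianInt[X]) : f ∈ P ↔ φ (f.eval 0) = 0 := Iff.rfl

lemma P_eq : P = Ideal.span {C (1 + ii), X} := by
  apply le_antisymm
  · intro f hf
    obtain ⟨k, hk⟩ := φ_dvd _ ((mem_P f).1 hf)
    rw [Ideal.mem_span_pair]
    refine ⟨C k, divX f, ?_⟩
    rw [← C_mul, mul_comm k, ← hk, ← coeff_zero_eq_eval_zero, add_comm]
    exact divX_mul_X_add f
  · rw [Ideal.span_le]
    rintro f (rfl | rfl)
    · rw [SetLike.mem_coe, mem_P, eval_C]; decide
    · rw [SetLike.mem_coe, mem_P, eval_X, map_zero]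

lemma height_P : P.height = 2 := by
  classical
  apply le_antisymm
  · have h : P ∈ (Ideal.span (({C (1 + ii), X} : Finset GaussianInt[X]) :
        Set GaussianInt[X])).minimalPrimes := by
      rw [Finset.coe_pair, ← P_eq, Ideal.minimalPrimes_eq_subsingleton_self]
      rfl
    refine (Ideal.height_le_card_of_mem_minimalPrimes_span_finset h).trans ?_
    exact_mod_cast Finset.card_le_two
  · have hX : (Ideal.span {(X : GaussianInt[X])}).IsPrime :=
      (Ideal.span_singleton_prime X_ne_zero).2 prime_X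
    have h1 : (⊥ : Ideal GaussianInt[X]) < Ideal.span {X} := by
      rw [bot_lt_iff_ne_bot, Ne, Ideal.span_singleton_eq_bot]
      exact X_ne_zero
    have h2 : Ideal.span {(X : GaussianInt[X])} < P := by
      refine lt_of_le_of_ne ?_ fun h => ?_
      · rw [P_eq]; exact Ideal.span_mono (by simp)
      · have h3 : C (1 + ii) ∈ P := by rw [P_eq]; exact Ideal.subset_span (by simp)
        rw [← h, Ideal.mem_span_singleton, X_dvd_iff, coeff_C_zero] at h3
        revert h3; decide
    have a1 := Ideal.height_add_one_le_of_lt_of_isPrime h1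
    have a2 := Ideal.height_add_one_le_of_lt_of_isPrime h2
    calc (2 : ℕ∞) = 0 + 1 + 1 := by norm_num
      _ ≤ (⊥ : Ideal GaussianInt[X]).height + 1 + 1 := by gcongr; exact zero_le
      _ ≤ _ := le_trans (by gcongr) a2

lemma key1 (a b s : GaussianInt[X]) (h : a ^ 2 + b ^ 2 = 2 * X * s ^ 2)
    (hd : X ∣ a + C ii * b) : s ∈ P := by
  obtain ⟨p, hp⟩ := hd
  have hi : (C ii) ^ 2 = -1 := by rw [← C_pow, ii_sq]; simp
  have h1 : p * (a - C ii * b) = 2 * s ^ 2 := by
    apply mul_left_cancel₀ (X_ne_zero (R := GaussianInt))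
    linear_combination h - (a - C ii * b) * hp - b ^ 2 * hi
  have h2 : a - C ii * b = X * p - 2 * (C ii * b) := by linear_combination hp
  rw [h2] at h1
  have h3 := congrArg (Polynomial.map φ) h1
  have two : Polynomial.map φ (2 : GaussianInt[X]) = 0 := by
    rw [Polynomial.map_ofNat]
    exact CharTwo.two_eq_zero
  simp only [Polynomial.map_mul, Polynomial.map_sub, two, zero_mul, sub_zero, map_X,
    mul_eq_zero, X_ne_zero, false_or, or_self] at h3
  have h4 : φ (p.eval 0) = 0 := by
    have := congrArg (fun f => coeff f 0) h3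
    simpa [coeff_zero_eq_eval_zero] using this
  have h5 := congrArg (eval 0) h1
  simp only [eval_mul, eval_sub, eval_X, zero_mul, eval_ofNat, eval_pow, eval_C] at h5
  have h6 : (eval 0 s) ^ 2 = -(eval 0 p * (ii * eval 0 b)) := by
    apply mul_left_cancel₀ (two_ne_zero (α := GaussianInt))
    linear_combination -h5
  have h7 := congrArg φ h6
  rw [map_pow, map_neg, map_mul, h4, zero_mul, neg_zero] at h7
  exact (mem_P s).2 (pow_eq_zero_iff two_ne_zero |>.1 h7)

lemma key (a b s : GaussianInt[X]) (h : a ^ 2 + b ^ 2 = 2 * X * s ^ 2) : s ∈ P := by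
  have hi : (C ii) ^ 2 = -1 := by rw [← C_pow, ii_sq]; simp
  have h1 : X ∣ (a + C ii * b) * (a + C ii * (-b)) :=
    ⟨2 * s ^ 2, by linear_combination h - b ^ 2 * hi⟩
  rcases prime_X.dvd_or_dvd h1 with h2 | h2
  · exact key1 a b s h h2
  · exact key1 a (-b) s (by linear_combination h) h2

/-- the local ring -/
abbrev RR : Type := Localization.AtPrime P

lemma dim_RR : ringKrullDim RR = 2 := by
  rw [IsLocalization.AtPrime.ringKrullDim_eq_height P RR, height_P]
  rfl

lemma max_RR : ∃ a b : RR, IsLocalRing.maximalIdeal RR = Ideal.span {a, b} := by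
  refine ⟨algebraMap _ _ (C (1 + ii)), algebraMap _ _ (X : GaussianInt[X]), ?_⟩
  rw [← Localization.AtPrime.map_eq_maximalIdeal]
  have := congrArg (Ideal.map (algebraMap GaussianInt[X] RR)) P_eq
  rw [this, Ideal.map_span, Set.image_pair]

/-- the imaginary unit of the local ring -/
noncomputable def jj : RR := algebraMap GaussianInt[X] RR (C ii)

lemma jj_sq : jj ^ 2 = -1 := by
  rw [jj, ← map_pow, ← C_pow, ii_sq]; simp

lemma not_two : ¬ ∀ x : RR, IsSumSq x → ∃ f : Fin 2 → RR, x = ∑ i, f i ^ 2 := by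
  intro h
  set x : RR := algebraMap GaussianInt[X] RR X with hx
  have h1 : IsSumSq (2 * x) := by
    have e : 2 * x = (x + 1) * (x + 1) + ((jj * x) * (jj * x) + (jj * jj + 0)) := by
      linear_combination (-(x ^ 2) - 1) * jj_sq
    rw [e]
    exact IsSumSq.sq_add _ (IsSumSq.sq_add _ (IsSumSq.sq_add _ IsSumSq.zero))
  obtain ⟨f, hf⟩ := h _ h1
  rw [Fin.sum_univ_two] at hf
  obtain ⟨⟨a, s⟩, ha⟩ := IsLocalization.surj P.primeCompl (f 0)
  obtain ⟨⟨b, t⟩, hb⟩ := IsLocalization.surj P.primeCompl (f 1)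
  simp only at ha hb
  have hinj : Function.Injective (algebraMap GaussianInt[X] RR) :=
    IsLocalization.injective RR P.primeCompl_le_nonZeroDivisors
  have h2 : (a * (t : GaussianInt[X])) ^ 2 + (b * (s : GaussianInt[X])) ^ 2 = 2 * X * ((s : GaussianInt[X]) * (t : GaussianInt[X])) ^ 2 := by
    apply hinj
    simp only [map_add, map_mul, map_pow, map_ofNat, ← ha, ← hb, ← hx]
    rw [hf]
    ring
  exact (s * t).2 (key _ _ _ h2)

lemma two_ne : (2 : RR) ≠ 0 := by
  have hinj : Function.Injective (algebraMap GaussianInt[X] RR) :=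
    IsLocalization.injective RR P.primeCompl_le_nonZeroDivisors
  intro h
  have : algebraMap GaussianInt[X] RR 2 = 0 := by rw [map_ofNat, h]
  rw [map_eq_zero_iff _ hinj] at this
  exact two_ne_zero this

lemma frac_two (R : Type) [CommRing R] [IsDomain R] (j : R) (hj : j ^ 2 = -1) (h2 : (2 : R) ≠ 0)
    (H : ∀ (K : Type) [Field K] [Algebra R K] [IsFractionRing R K], ∀ n : ℕ,
      ((∀ x : R, IsSumSq x → ∃ f : Fin n → R, x = ∑ i, f i ^ 2) ↔
        (∀ x : K, IsSumSq x → ∃ f : Fin n → K, x = ∑ i, f i ^ 2))) :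
    ∀ x : R, IsSumSq x → ∃ f : Fin 2 → R, x = ∑ i, f i ^ 2 := by
  refine (H (FractionRing R) 2).2 fun x _ => ?_
  have h2 : (2 : FractionRing R) ≠ 0 := by
    intro h
    have : algebraMap R (FractionRing R) 2 = 0 := by rw [map_ofNat, h]
    rw [map_eq_zero_iff _ (IsFractionRing.injective R _)] at this
    exact h2 this
  have hj : (algebraMap R (FractionRing R) j) ^ 2 = -1 := by rw [← map_pow, hj]; simp
  refine ⟨![(x + 1) / 2, algebraMap R (FractionRing R) j * ((x - 1) / 2)], ?_⟩
  rw [Fin.sum_univ_two]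
  simp only [Matrix.cons_val_zero, Matrix.cons_val_one, mul_pow, hj]
  field_simp
  ring

end Pool.Agent.H391Z.Pyth
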