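import Pool.Agent.H39Z.SSS.Spec

/-! Four elementary pieces: quantile function, Riemann sums, an integral bound, averaging. -/

set_option autoImplicit false

namespace Pool.Agent.H391Z.Sss

open MeasureTheory Set ProbabilityTheory Pool.Agent.H39Z.SSS

theorem quant : S_QUANT := by
  intro ν _ R hR hS
  have hneg : ∀ x : ℝ, x < 0 → cdf ν x = 0 := by
    intro x hx
    rw [cdf_eq_real]
    have h0 : ν (Iic x) = 0 := by
      have h1 : ν {y | ¬ y ∈ Icc 0 R} = 0 := ae_iff.1 hS
      refine measure_mono_null ?_ h1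
      intro y hy h2
      have : y ≤ x := hy
      linarith [h2.1]
    simp [Measure.real, h0]
  have hbig : ∀ x : ℝ, R ≤ x → cdf ν x = 1 := by
    intro x hx
    rw [cdf_eq_real]
    have h0 : ν (Iic x)ᶜ = 0 := by
      have h1 : ν {y | ¬ y ∈ Icc 0 R} = 0 := ae_iff.1 hS
      refine measure_mono_null ?_ h1
      intro y hy h2
      apply hy
      show y ≤ x
      linarith [h2.2]
    have h2 : ν (Iic x) = 1 := (prob_compl_eq_zero_iff measurableSet_Iic).1 h0
    simp [Measure.real, h2]
  let A : ℝ → Set ℝ := fun s => {x | 0 ≤ x ∧ (s ≤ cdf ν x ∨ R ≤ x)}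
  have hA : ∀ s, R ∈ A s := fun s => ⟨hR, Or.inr le_rfl⟩
  have hB : ∀ s, BddBelow (A s) := fun s => ⟨0, fun x hx => hx.1⟩
  let q : ℝ → ℝ := fun s => sInf (A s)
  have hmono : Monotone q := by
    intro s t hst
    refine csInf_le_csInf (hB s) ⟨R, hA t⟩ ?_
    intro x hx
    exact ⟨hx.1, hx.2.imp (fun h => hst.trans h) id⟩
  have hkey : ∀ s, 0 < s → s ≤ 1 → ∀ x, q s ≤ x ↔ s ≤ cdf ν x := by
    intro s hs0 hs1 x
    constructor
    · intro h
      have hy : ∀ y, x < y → s ≤ cdf ν y := by
        intro y hy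
        obtain ⟨z, hz, hzy⟩ := exists_lt_of_csInf_lt ⟨R, hA s⟩ (lt_of_le_of_lt h hy)
        rcases hz.2 with h1 | h1
        · exact h1.trans (monotone_cdf ν hzy.le)
        · rw [hbig y (h1.trans hzy.le)]
          exact hs1
      have hc : ContinuousWithinAt (cdf ν) (Ioi x) x :=
        ((cdf ν).right_continuous x).mono Ioi_subset_Ici_self
      refine ge_of_tendsto hc.tendsto ?_
      exact eventually_nhdsWithin_of_forall hy
    · intro h
      have hx : 0 ≤ x := by
        by_contra hx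
        rw [hneg x (not_le.1 hx)] at h
        linarith
      exact csInf_le (hB s) ⟨hx, Or.inl h⟩
  refine ⟨q, hmono, fun s => ⟨le_csInf ⟨R, hA s⟩ fun x hx => hx.1, csInf_le (hB s) (hA s)⟩, ?_⟩
  have hfin : IsFiniteMeasure (volume.restrict (Ioc (0 : ℝ) 1)) :=
    isFiniteMeasure_restrict.2 (by simp)
  refine Measure.ext_of_Iic _ _ fun x => ?_
  rw [Measure.map_apply hmono.measurable measurableSet_Iic,
    Measure.restrict_apply (hmono.measurable measurableSet_Iic)]
  have he : q ⁻¹' Iic x ∩ Ioc 0 1 = Ioc 0 (cdf ν x) := by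
    ext s
    constructor
    · rintro ⟨h1, h2, h3⟩
      exact ⟨h2, (hkey s h2 h3 x).1 h1⟩
    · rintro ⟨h1, h2⟩
      have h3 : s ≤ 1 := h2.trans (cdf_le_one ν x)
      exact ⟨(hkey s h1 h3 x).2 h2, h1, h3⟩
  rw [he, Real.volume_Ioc, sub_zero, ofReal_cdf]

/-- Riemann sums of a monotone function. -/
theorem rs_mono (f : ℝ → ℝ) (hf : Monotone f) (d : ℕ) (hd : 0 < d) (s : Fin d → ℝ)
    (hs : ∀ j : Fin d, s j ∈ Icc (((j : ℕ) : ℝ) / d) ((((j : ℕ) : ℝ) + 1) / d)) :
    |∑ j, f (s j) - d * ∫ t in Ioc (0 : ℝ) 1, f t| ≤ f 1 - f 0 := by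
  have hd' : (0 : ℝ) < d := by exact_mod_cast hd
  let a : ℕ → ℝ := fun k => (k : ℝ) / d
  have hsum : ∑ k ∈ Finset.range d, ∫ t in a k..a (k + 1), f t = ∫ t in a 0..a d, f t :=
    intervalIntegral.sum_integral_adjacent_intervals fun k _ => hf.intervalIntegrable
  have ha0 : a 0 = 0 := by simp [a]
  have ha1 : a d = 1 := by simp [a, hd'.ne']
  have hstep : ∀ k, a (k + 1) - a k = 1 / d := by
    intro k
    simp only [a]
    push_cast
    ring
  have hle : ∀ k, a k ≤ a (k + 1) := by
    intro k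
    have := hstep k
    have h2 : (0 : ℝ) < 1 / d := by positivity
    linarith
  have hcell : ∀ k, f (a k) ≤ d * ∫ t in a k..a (k + 1), f t ∧
      d * ∫ t in a k..a (k + 1), f t ≤ f (a (k + 1)) := by
    intro k
    constructor
    · have h1 : ∫ _ in a k..a (k + 1), f (a k) ≤ ∫ t in a k..a (k + 1), f t :=
        intervalIntegral.integral_mono_on (hle k) intervalIntegrable_const hf.intervalIntegrable
          fun t ht => hf ht.1
      rw [intervalIntegral.integral_const, hstep, smul_eq_mul] at h1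
      have h2 := mul_le_mul_of_nonneg_left h1 hd'.le
      rwa [← mul_assoc, mul_one_div_cancel hd'.ne', one_mul] at h2
    · have h1 : ∫ t in a k..a (k + 1), f t ≤ ∫ _ in a k..a (k + 1), f (a (k + 1)) :=
        intervalIntegral.integral_mono_on (hle k) hf.intervalIntegrable intervalIntegrable_const
          fun t ht => hf ht.2
      rw [intervalIntegral.integral_const, hstep, smul_eq_mul] at h1
      have h2 := mul_le_mul_of_nonneg_left h1 hd'.le
      rwa [← mul_assoc, mul_one_div_cancel hd'.ne', one_mul] at h2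
  rw [← intervalIntegral.integral_of_le zero_le_one, ← ha0, ← ha1, ← hsum, Finset.mul_sum,
    ← Finset.sum_range_sub (fun k => f (a k)) d, Finset.sum_range, Finset.sum_range,
    ← Finset.sum_sub_distrib]
  refine (Finset.abs_sum_le_sum_abs _ _).trans (Finset.sum_le_sum fun j _ => ?_)
  have h1 : f (a j) ≤ f (s j) := hf (hs j).1
  have h2 : f (s j) ≤ f (a (j + 1)) := by
    apply hf
    have := (hs j).2
    simp only [a]
    push_cast
    exact this
  have h3 := hcell j
  rw [abs_le]
  constructor <;> linarith [h3.1, h3.2]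

theorem rs : S_RS := by
  intro q B δ x d s hq hδ hx hqB hs
  have hδ2 : 0 < δ ^ 2 := by positivity
  rcases Nat.eq_zero_or_pos d with rfl | hd
  · simp only [Finset.univ_eq_empty, Finset.sum_empty, Nat.cast_zero, zero_mul, sub_zero, abs_zero]
    apply Real.log_nonneg
    rw [le_div_iff₀ hδ2]
    nlinarith [sq_nonneg B]
  have hS : ∀ a b : ℝ, 0 ≤ a → a ≤ b → S δ a ≤ S δ b := by
    intro a b ha hab
    unfold S
    have : Real.log (a ^ 2 + δ ^ 2) ≤ Real.log (b ^ 2 + δ ^ 2) :=
      Real.log_le_log (by positivity) (by nlinarith)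
    linarith
  let f : ℝ → ℝ := fun t => S δ (max (q t - x) 0)
  let g : ℝ → ℝ := fun t => -S δ (max (x - q t) 0)
  have hf : Monotone f := by
    intro a b hab
    exact hS _ _ (le_max_right _ _) (max_le_max (by linarith [hq hab]) le_rfl)
  have hg : Monotone g := by
    intro a b hab
    exact neg_le_neg (hS _ _ (le_max_right _ _) (max_le_max (by linarith [hq hab]) le_rfl))
  have hdec : ∀ t, S δ (q t - x) = f t - g t - S δ 0 := by
    intro t
    simp only [f, g]
    rcases le_total (q t) x with h | h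
    · rw [max_eq_right (by linarith), max_eq_left (by linarith)]
      have : S δ (q t - x) = S δ (x - q t) := by
        unfold S
        congr 2
        ring
      rw [this]
      ring
    · rw [max_eq_left (by linarith), max_eq_right (by linarith)]
      ring
  have h1 := rs_mono f hf d hd s hs
  have h2 := rs_mono g hg d hd s hs
  have hfi : IntegrableOn f (Ioc (0 : ℝ) 1) :=
    (intervalIntegrable_iff_integrableOn_Ioc_of_le zero_le_one).1 hf.intervalIntegrable
  have hgi : IntegrableOn g (Ioc (0 : ℝ) 1) :=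
    (intervalIntegrable_iff_integrableOn_Ioc_of_le zero_le_one).1 hg.intervalIntegrable
  have hfin : IsFiniteMeasure (volume.restrict (Ioc (0 : ℝ) 1)) :=
    isFiniteMeasure_restrict.2 (by simp)
  have hint : ∫ t in Ioc (0 : ℝ) 1, S δ (q t - x) =
      (∫ t in Ioc (0 : ℝ) 1, f t) - (∫ t in Ioc (0 : ℝ) 1, g t) - S δ 0 := by
    simp only [hdec]
    have hfg : IntegrableOn (fun t => f t - g t) (Ioc (0 : ℝ) 1) := hfi.sub hgi
    rw [integral_sub hfg (integrable_const _), integral_sub hfi hgi]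
    simp
  have hsum : ∑ j, S δ (q (s j) - x) = ∑ j, f (s j) - ∑ j, g (s j) - d * S δ 0 := by
    simp only [hdec, Finset.sum_sub_distrib]
    simp
  have hB : S δ B - S δ 0 = Real.log ((B ^ 2 + δ ^ 2) / δ ^ 2) / 2 := by
    unfold S
    rw [Real.log_div (by positivity) hδ2.ne']
    simp
    ring
  have hq0 := hqB 0 ⟨le_rfl, zero_le_one⟩
  have hq1 := hqB 1 ⟨zero_le_one, le_rfl⟩
  have hB0 : 0 ≤ B := hx.1.trans hx.2
  have hf1 : f 1 ≤ S δ B :=
    hS _ _ (le_max_right _ _) (max_le (by linarith [hq1.2, hx.1]) hB0)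
  have hf0 : S δ 0 ≤ f 0 := hS _ _ le_rfl (le_max_right _ _)
  have hg1 : g 1 ≤ -S δ 0 := neg_le_neg (hS _ _ le_rfl (le_max_right _ _))
  have hg0 : -S δ B ≤ g 0 :=
    neg_le_neg (hS _ _ (le_max_right _ _) (max_le (by linarith [hq0.1, hx.2]) hB0))
  rw [hint, hsum]
  rw [abs_le] at h1 h2 ⊢
  constructor <;> nlinarith [h1.1, h1.2, h2.1, h2.2]

theorem rpow_split (y : ℝ) :
    1 / √|y| = y ^ (-(1 / 2) : ℝ) + (-y) ^ (-(1 / 2) : ℝ) := by
  have hneg : ∀ z : ℝ, z < 0 → z ^ (-(1 / 2) : ℝ) = 0 := by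
    intro z hz
    rw [Real.rpow_def_of_neg hz]
    have : (-(1 / 2) : ℝ) * Real.pi = -(Real.pi / 2) := by ring
    rw [this, Real.cos_neg, Real.cos_pi_div_two, mul_zero]
  have hpos : ∀ z : ℝ, 0 ≤ z → 1 / √z = z ^ (-(1 / 2) : ℝ) := by
    intro z hz
    rw [Real.rpow_neg hz, Real.sqrt_eq_rpow, one_div]
  rcases lt_trichotomy y 0 with h | h | h
  · rw [hneg y h, abs_of_neg h, zero_add, hpos _ (by linarith)]
  · subst h
    simp
  · rw [hneg (-y) (by linarith), abs_of_pos h, add_zero, hpos _ h.le]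

theorem sqrt_add (y L : ℝ) (hL : 0 ≤ L) : √(y + L) ≤ √y + √L := by
  rw [Real.sqrt_le_left (by positivity)]
  have h1 : y ≤ √y ^ 2 := by
    rcases le_total 0 y with h | h
    · rw [Real.sq_sqrt h]
    · nlinarith [sq_nonneg √y]
  have h2 : √L ^ 2 = L := Real.sq_sqrt hL
  nlinarith [mul_nonneg (Real.sqrt_nonneg y) (Real.sqrt_nonneg L)]

theorem i1 : S_I1 := by
  intro a L u hL
  have hr : (-1 : ℝ) < -(1 / 2) := by norm_num
  have hab : a ≤ a + L := by linarith
  have h1 : IntervalIntegrable (fun x : ℝ => (x - u) ^ (-(1 / 2) : ℝ)) volume a (a + L) := by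
    have := (intervalIntegral.intervalIntegrable_rpow' hr (a := a - u) (b := a + L - u)).comp_sub_right u
    simpa using this
  have h2 : IntervalIntegrable (fun x : ℝ => (u - x) ^ (-(1 / 2) : ℝ)) volume a (a + L) := by
    have := (intervalIntegral.intervalIntegrable_rpow' hr (a := u - a) (b := u - (a + L))).comp_sub_left u
    simpa using this
  have he : (fun x : ℝ => 1 / √|x - u|) =
      fun x => (x - u) ^ (-(1 / 2) : ℝ) + (u - x) ^ (-(1 / 2) : ℝ) := by
    funext x
    rw [rpow_split, neg_sub]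
  rw [he]
  refine ⟨(intervalIntegrable_iff_integrableOn_Icc_of_le hab).1 (h1.add h2), ?_⟩
  rw [integral_Icc_eq_integral_Ioc, ← intervalIntegral.integral_of_le hab,
    intervalIntegral.integral_add h1 h2,
    intervalIntegral.integral_comp_sub_right (fun y : ℝ => y ^ (-(1 / 2) : ℝ)),
    intervalIntegral.integral_comp_sub_left (fun y : ℝ => y ^ (-(1 / 2) : ℝ)),
    integral_rpow (Or.inl hr), integral_rpow (Or.inl hr)]
  have h3 : (-(1 / 2) : ℝ) + 1 = 1 / 2 := by norm_num
  rw [h3]
  simp only [← Real.sqrt_eq_rpow]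
  have h4 := sqrt_add (a - u) L hL.le
  have h5 := sqrt_add (u - (a + L)) L hL.le
  rw [show a - u + L = a + L - u by ring] at h4
  rw [show u - (a + L) + L = u - a by ring] at h5
  linarith

theorem p1 : S_P1 := by
  intro ι t κ u L hL hκ
  classical
  have hfin : IsFiniteMeasure (volume.restrict (Icc (0 : ℝ) L)) :=
    isFiniteMeasure_restrict.2 (by simp)
  have hne : volume.restrict (Icc (0 : ℝ) L) ≠ 0 := by
    rw [Ne, Measure.restrict_eq_zero]
    simpa using hL
  have hi : ∀ i, IntegrableOn (fun x => κ i / √|x - u i|) (Icc 0 L) := by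
    intro i
    have h1 := (i1 0 L (u i) hL).1
    rw [zero_add] at h1
    have h2 := h1.const_mul (κ i)
    simp only [mul_one_div] at h2
    exact h2
  have hint : Integrable (fun x => ∑ i ∈ t, κ i / √|x - u i|) (volume.restrict (Icc 0 L)) :=
    integrable_finset_sum _ fun i _ => hi i
  have hN : volume.restrict (Icc (0 : ℝ) L) ((Icc (0 : ℝ) L)ᶜ ∪ (t.image u : Set ℝ)) = 0 := by
    refine measure_union_null ?_ ?_
    · rw [Measure.restrict_apply measurableSet_Icc.compl]
      simp
    · exact (t.image u).finite_toSet.measure_zero _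
  obtain ⟨s, hs, hle⟩ := exists_notMem_null_le_average hne hint hN
  rw [mem_union, not_or] at hs
  refine ⟨s, not_not.1 hs.1, ?_, hle.trans ?_⟩
  · intro i hi' h
    apply hs.2
    rw [Finset.coe_image]
    exact ⟨i, hi', h.symm⟩
  · rw [average_eq, integral_finset_sum _ fun i _ => hi i, smul_eq_mul, Finset.mul_sum,
      Finset.mul_sum]
    refine Finset.sum_le_sum fun i hi' => ?_
    have h1 := (i1 0 L (u i) hL).2
    rw [zero_add] at h1
    have h2 : ∫ x in Icc 0 L, κ i / √|x - u i| = κ i * ∫ x in Icc 0 L, 1 / √|x - u i| := by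
      rw [← integral_const_mul]
      simp only [mul_one_div]
    have h3 : (volume.restrict (Icc (0 : ℝ) L)).real univ = L := by
      simp [Measure.real, hL.le]
    rw [h2, h3]
    have h4 : 0 < √L := Real.sqrt_pos.2 hL
    have h5 : L⁻¹ * (4 * √L) = 4 / √L := by
      have h6 : √L * √L = L := Real.mul_self_sqrt hL.le
      field_simp
      nlinarith
    have h7 := mul_le_mul_of_nonneg_left h1 (hκ i hi')
    have h8 := mul_le_mul_of_nonneg_left h7 (inv_pos.2 hL).le
    calc L⁻¹ * (κ i * ∫ x in Icc 0 L, 1 / √|x - u i|) ≤ L⁻¹ * (κ i * (4 * √L)) := h8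
      _ = L⁻¹ * (4 * √L) * κ i := by ring
      _ = 4 / √L * κ i := by rw [h5]

end Pool.Agent.H391Z.Sss
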