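import Mathlib

set_option autoImplicit false
open Finset

namespace Pool.Agent.H391Z.UC

variable {α : Type} [DecidableEq α]

/-- The family is closed under unions of two members. -/
def UnionClosed (F : Finset (Finset α)) : Prop := ∀ A ∈ F, ∀ B ∈ F, A ∪ B ∈ F

/-- The union of all members of the family. -/
def ground (F : Finset (Finset α)) : Finset α := F.biUnion id

/-- The chord through the points `(2^(i-1), ·)` and `(2^i, ·)` of `m log₂ m`. -/
def line (i : ℕ) (m : ℤ) : ℤ := (i + 1) * m - 2 ^ i

lemma line_add {a b : ℤ} (hb : 0 ≤ b) (hab : b ≤ a) (i j : ℕ) :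
    ∃ l, line i a + line j b + 2 * b ≤ line l (a + b) := by
  have same : ∀ i : ℕ, line i a + line i b + 2 * b ≤ line (i + 1) (a + b) := by
    intro i; unfold line; push_cast; rw [pow_succ]; nlinarith
  rcases lt_trichotomy i j with h | rfl | h
  · by_cases h1 : line i a ≤ line j a
    · exact ⟨j + 1, by have := same j; linarith⟩
    · refine ⟨i + 1, ?_⟩
      have := same i
      have h2 : (i : ℤ) ≤ j := by exact_mod_cast h.le
      have h3 : line j b ≤ line i b := by
        unfold line at h1 ⊢; nlinarith
      linarith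
  · exact ⟨i + 1, same i⟩
  · have hp : (0 : ℤ) < 2 ^ j := by positivity
    by_cases h1 : i = j + 1
    · subst h1
      by_cases h2 : b ≤ 2 ^ j
      · exact ⟨j + 1, by unfold line; push_cast; nlinarith⟩
      · exact ⟨j + 2, by unfold line; push_cast; simp only [pow_succ]; nlinarith⟩
    · have h2 : (j : ℤ) + 2 ≤ i := by exact_mod_cast (by omega : j + 2 ≤ i)
      exact ⟨i, by unfold line; nlinarith⟩

lemma exists_up (X : Finset α) : ∀ F : Finset (Finset α), UnionClosed F → (∀ A ∈ F, A ⊆ X) →
    ∃ U : Finset α → Finset α, (∀ A ∈ F, A ⊆ U A ∧ U A ⊆ X) ∧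
      (∀ A ∈ F, ∀ B ∈ F, A ⊆ B → B ⊆ U A → B = A) ∧
      (F.Nonempty → ∃ i, 2 * ∑ A ∈ F, ((X.card : ℤ) - (U A).card) ≤ line i F.card) := by
  induction X using Finset.induction_on with
  | empty =>
    intro F _ hF
    refine ⟨id, fun A hA => ⟨subset_rfl, hF A hA⟩, fun A _ B _ h1 h2 => subset_antisymm h2 h1,
      fun hne => ⟨0, ?_⟩⟩
    have h1 : ∑ A ∈ F, (((∅ : Finset α).card : ℤ) - (id A).card) = 0 :=
      Finset.sum_eq_zero fun A hA => by simp [Finset.subset_empty.mp (hF A hA)]
    have h2 : (1 : ℤ) ≤ F.card := by exact_mod_cast hne.card_pos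
    rw [h1]; unfold line; push_cast; linarith
  | insert x X hx ih =>
    intro F hU hF
    set G := F.filter fun A => x ∉ A ∧ insert x A ∈ F with hG
    set H := F.image fun A => A.erase x with hH
    have hGU : UnionClosed G := by
      intro A hA B hB
      rw [hG, mem_filter] at hA hB ⊢
      refine ⟨hU _ hA.1 _ hB.1, by simp [hA.2.1, hB.2.1], ?_⟩
      have := hU _ hA.2.2 _ hB.1
      rwa [insert_union] at this
    have hHU : UnionClosed H := by
      intro A hA B hB
      rw [hH, mem_image] at hA hB ⊢
      obtain ⟨A, hA, rfl⟩ := hA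
      obtain ⟨B, hB, rfl⟩ := hB
      exact ⟨A ∪ B, hU _ hA _ hB, erase_union_distrib _ _ _⟩
    have hGX : ∀ A ∈ G, A ⊆ X := by
      intro A hA
      rw [hG, mem_filter] at hA
      exact (subset_insert_iff_of_notMem hA.2.1).mp (hF A hA.1)
    have hHX : ∀ A ∈ H, A ⊆ X := by
      intro A hA
      rw [hH, mem_image] at hA
      obtain ⟨A, hA, rfl⟩ := hA
      exact subset_insert_iff.mp (hF A hA)
    obtain ⟨U1, a1, b1, c1⟩ := ih G hGU hGX
    obtain ⟨U2, a2, b2, c2⟩ := ih H hHU hHX
    have hmem : ∀ A ∈ F, A.erase x ∈ H := fun A hA => mem_image_of_mem _ hA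
    refine ⟨fun A => if A ∈ G then U1 A else insert x (U2 (A.erase x)), fun A hA => ?_,
      fun A hA B hB h1 h2 => ?_, fun hne => ?_⟩
    · by_cases h : A ∈ G
      · simp only [h, if_true]
        exact ⟨(a1 A h).1, (a1 A h).2.trans (subset_insert _ _)⟩
      · simp only [h, if_false]
        exact ⟨subset_insert_iff.mpr (a2 _ (hmem A hA)).1,
          insert_subset_insert _ (a2 _ (hmem A hA)).2⟩
    · by_cases h : A ∈ G
      · simp only [h, if_true] at h2
        refine b1 A h B ?_ h1 h2
        have h3 := (mem_filter.mp h).2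
        refine mem_filter.mpr ⟨hB, fun hxB => hx ((a1 A h).2 (h2 hxB)), ?_⟩
        have := hU _ h3.2 _ hB
        rwa [insert_union, union_eq_right.mpr h1] at this
      · simp only [h, if_false] at h2
        have h3 := b2 _ (hmem A hA) _ (hmem B hB) (erase_subset_erase _ h1)
          (subset_insert_iff.mp h2)
        by_cases hxA : x ∈ A
        · rw [← insert_erase hxA, ← h3, insert_erase (h1 hxA)]
        · by_cases hxB : x ∈ B
          · exfalso
            refine h (mem_filter.mpr ⟨hA, hxA, ?_⟩)
            rw [← erase_eq_of_notMem hxA, ← h3, insert_erase hxB]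
            exact hB
          · rwa [erase_eq_of_notMem hxA, erase_eq_of_notMem hxB] at h3
    · have hGF : G ⊆ F := filter_subset _ _
      have hinj : Set.InjOn (fun A : Finset α => A.erase x) (F \ G : Finset (Finset α)) := by
        intro A hA B hB h
        simp only [coe_sdiff, Set.mem_diff, mem_coe] at hA hB
        simp only at h
        by_cases hxA : x ∈ A <;> by_cases hxB : x ∈ B
        · rw [← insert_erase hxA, h, insert_erase hxB]
        · exfalso
          refine hB.2 (mem_filter.mpr ⟨hB.1, hxB, ?_⟩)
          rw [← erase_eq_of_notMem hxB, ← h, insert_erase hxA]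
          exact hA.1
        · exfalso
          refine hA.2 (mem_filter.mpr ⟨hA.1, hxA, ?_⟩)
          rw [← erase_eq_of_notMem hxA, h, insert_erase hxB]
          exact hB.1
        · rwa [erase_eq_of_notMem hxA, erase_eq_of_notMem hxB] at h
      have himg : (F \ G).image (fun A => A.erase x) = H := by
        refine subset_antisymm (image_subset_image sdiff_subset) fun C hC => ?_
        obtain ⟨A, hA, rfl⟩ := mem_image.mp hC
        by_cases h : A ∈ G
        · have h3 := (mem_filter.mp h).2
          refine mem_image.mpr ⟨insert x A, mem_sdiff.mpr ⟨h3.2, fun h4 => ?_⟩, ?_⟩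
          · exact (mem_filter.mp h4).2.1 (mem_insert_self _ _)
          · exact erase_insert_eq_erase _ _
        · exact mem_image.mpr ⟨A, mem_sdiff.mpr ⟨hA, h⟩, rfl⟩
      have hcard : (F.card : ℤ) = H.card + G.card := by
        rw [← himg, card_image_of_injOn hinj, ← card_sdiff_add_card_eq_card hGF]; push_cast; ring
      have hGH : G ⊆ H := by
        intro A hA
        have h3 := mem_filter.mp hA
        exact mem_image.mpr ⟨A, h3.1, erase_eq_of_notMem h3.2.1⟩
      have hsum : ∑ A ∈ F, (((insert x X).card : ℤ) -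
          (if A ∈ G then U1 A else insert x (U2 (A.erase x))).card) =
          ∑ A ∈ H, ((X.card : ℤ) - (U2 A).card) +
            (∑ A ∈ G, ((X.card : ℤ) - (U1 A).card) + G.card) := by
        rw [← sum_sdiff hGF, ← himg, sum_image hinj, card_insert_of_notMem hx]
        congr 1
        · refine sum_congr rfl fun A hA => ?_
          have h3 := mem_sdiff.mp hA
          rw [if_neg h3.2, card_insert_of_notMem fun h4 => hx ((a2 _ (hmem A h3.1)).2 h4)]
          push_cast; ring
        · rw [card_eq_sum_ones G]
          push_cast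
          rw [← sum_add_distrib]
          refine sum_congr rfl fun A hA => ?_
          rw [if_pos hA]; ring
      rw [hsum, hcard]
      obtain ⟨i, hi⟩ := c2 (hne.image _)
      rcases G.eq_empty_or_nonempty with h | h
      · exact ⟨i, by rw [h]; simpa using hi⟩
      · obtain ⟨j, hj⟩ := c1 h
        obtain ⟨l, hl⟩ := line_add (a := H.card) (b := G.card) (by positivity)
          (by exact_mod_cast card_le_card hGH) i j
        exact ⟨l, by linarith⟩

lemma two_pow_ge (y n : ℕ) : (2 : ℤ) ^ n * (1 + y - n) ≤ 2 ^ y := by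
  by_cases h : n ≤ y
  · obtain ⟨d, rfl⟩ := Nat.exists_eq_add_of_le h
    have h1 : (d : ℤ) + 1 ≤ 2 ^ d := by exact_mod_cast Nat.lt_two_pow_self
    have h2 : (0 : ℤ) < 2 ^ n := by positivity
    rw [pow_add]; push_cast; nlinarith
  · have h1 : (1 : ℤ) + y - n ≤ 0 := by omega
    have h2 : (0 : ℤ) < 2 ^ n := by positivity
    have h3 : (0 : ℤ) < 2 ^ y := by positivity
    nlinarith

lemma subset_ground {F : Finset (Finset α)} {A : Finset α} (hA : A ∈ F) : A ⊆ ground F :=
  subset_biUnion_of_mem id hA

/-- Twice the total size of the members. -/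
def tw (F : Finset (Finset α)) : ℤ := 2 * ∑ A ∈ F, (A.card : ℤ)

/-- Reimer's bound in chord form. -/
theorem chord {F : Finset (Finset α)} (hU : UnionClosed F) (j : ℕ) : line j F.card ≤ tw F := by
  rcases F.eq_empty_or_nonempty with rfl | hne
  · unfold line tw; simp
  set X := ground F
  obtain ⟨U, a, b, c⟩ := exists_up X F hU fun A hA => subset_ground hA
  obtain ⟨i, hi⟩ := c hne
  have hdisj : (F : Set (Finset α)).PairwiseDisjoint fun A => Finset.Icc A (U A) := by
    intro A hA B hB hAB
    rw [Function.onFun, disjoint_left]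
    intro S h1 h2
    rw [mem_Icc] at h1 h2
    have h3 : A ∪ B ⊆ S := union_subset h1.1 h2.1
    have h4 := b A hA _ (hU A hA B hB) subset_union_left (h3.trans h1.2)
    have h5 := b B hB _ (hU A hA B hB) subset_union_right (h3.trans h2.2)
    exact hAB (h4.symm.trans h5)
  have hvol : ∑ A ∈ F, 2 ^ ((U A).card - A.card) ≤ 2 ^ X.card := by
    rw [← card_powerset]
    calc ∑ A ∈ F, 2 ^ ((U A).card - A.card) = ∑ A ∈ F, (Finset.Icc A (U A)).card :=
          sum_congr rfl fun A hA => (card_Icc_finset (a A hA).1).symm
      _ = (F.biUnion fun A => Finset.Icc A (U A)).card := (card_biUnion hdisj).symm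
      _ ≤ _ := by
          refine card_le_card fun S hS => ?_
          obtain ⟨A, hA, h⟩ := mem_biUnion.mp hS
          exact mem_powerset.mpr ((mem_Icc.mp h).2.trans (a A hA).2)
  have key : ∀ l : ℕ, 2 * line l F.card - line i F.card ≤ tw F := by
    intro l
    have h1 : (2 : ℤ) ^ X.card * ∑ A ∈ F, (1 + (((U A).card : ℤ) - A.card + l) - X.card) ≤
        2 ^ X.card * 2 ^ l := by
      rw [mul_sum]
      calc _ ≤ ∑ A ∈ F, (2 : ℤ) ^ ((U A).card - A.card) * 2 ^ l := by
            refine sum_le_sum fun A hA => ?_
            have := two_pow_ge ((U A).card - A.card + l) X.card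
            rw [pow_add] at this
            push_cast [card_le_card (a A hA).1] at this
            exact this
        _ ≤ _ := by
            rw [← sum_mul]
            gcongr
            exact_mod_cast hvol
    have h2 := le_of_mul_le_mul_left h1 (by positivity)
    simp only [sum_add_distrib, sum_sub_distrib, sum_const, nsmul_eq_mul] at h2 hi
    unfold tw
    unfold line at *
    nlinarith
  by_cases h : line j F.card ≤ line i F.card
  · have := key i; linarith
  · have := key j; linarith

end Pool.Agent.H391Z.UC
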