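import Pool.Agent.H391Z.UcA

set_option autoImplicit false
open Finset

namespace Pool.Agent.H391Z.UC

variable {α : Type} [DecidableEq α]

lemma ground_mem {F : Finset (Finset α)} (hU : UnionClosed F) (hne : F.Nonempty) :
    ground F ∈ F := by
  unfold ground
  rw [← sup_eq_biUnion, ← sup'_eq_sup hne]
  exact sup'_mem (F : Set (Finset α)) (fun x hx y hy => hU x hx y hy) F hne id fun i hi => hi

lemma tw_ge_ground {F : Finset (Finset α)} (hU : UnionClosed F) :
    2 * ((ground F).card : ℤ) ≤ tw F := by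
  rcases F.eq_empty_or_nonempty with rfl | hne
  · simp [ground, tw]
  · unfold tw
    have := single_le_sum (f := fun A : Finset α => (A.card : ℤ)) (fun _ _ => by positivity)
      (ground_mem hU hne)
    linarith

lemma tw_ge_of_not_mem {F : Finset (Finset α)} (hU : UnionClosed F) (h : ∅ ∉ F) :
    2 * ((ground F).card : ℤ) + 2 * F.card - 2 ≤ tw F := by
  rcases F.eq_empty_or_nonempty with rfl | hne
  · simp [ground, tw]
  · unfold tw
    have hm := ground_mem hU hne
    rw [← add_sum_erase _ _ hm, ← card_erase_add_one hm]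
    have : ∑ A ∈ F.erase (ground F), (1 : ℤ) ≤ ∑ A ∈ F.erase (ground F), (A.card : ℤ) := by
      refine sum_le_sum fun A hA => ?_
      have : A.Nonempty := nonempty_iff_ne_empty.mpr fun h1 => h (h1 ▸ mem_of_mem_erase hA)
      exact_mod_cast this.card_pos
    simp only [sum_const, nsmul_eq_mul, mul_one] at this
    push_cast
    linarith

lemma tw_ge_basic {F : Finset (Finset α)} (hU : UnionClosed F) :
    2 * ((ground F).card : ℤ) + 2 * F.card - 4 ≤ tw F := by
  by_cases h : ∅ ∈ F
  · have hU' : UnionClosed (F.erase ∅) := by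
      intro A hA B hB
      rw [mem_erase] at hA hB ⊢
      exact ⟨fun h1 => hA.1 (union_eq_empty.mp h1).1, hU _ hA.2 _ hB.2⟩
    have h1 := tw_ge_of_not_mem hU' (notMem_erase _ _)
    have h2 : ground (F.erase ∅) = ground F := by
      conv_rhs => rw [← insert_erase h]
      simp [ground]
    have h3 : tw (F.erase ∅) = tw F := by
      unfold tw
      rw [← add_sum_erase _ _ h]; simp
    rw [h2, h3] at h1
    rw [← card_erase_add_one h]
    push_cast
    linarith
  · have := tw_ge_of_not_mem hU h
    linarith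

lemma step {F : Finset (Finset α)} (hU : UnionClosed F) (hn : (ground F).Nonempty) :
    ∃ (s : ℕ) (F0 F1 : Finset (Finset α)), 1 ≤ s ∧ UnionClosed F0 ∧ UnionClosed F1 ∧
      F1.Nonempty ∧ (ground F0).card + s = (ground F).card ∧
      (ground F1).card + s = (ground F).card ∧ F0.card + F1.card = F.card ∧
      tw F = tw F0 + tw F1 + 2 * s * F1.card ∧
      2 * ((ground F).card : ℤ) * F1.card ≤ tw F ∧ (∅ ∈ F1 → F0.card ≤ F1.card) := by
  have hne : F.Nonempty := by
    obtain ⟨a, ha⟩ := hn
    obtain ⟨A, hA, -⟩ := mem_biUnion.mp ha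
    exact ⟨A, hA⟩
  set X := ground F with hX
  have hXF : X ∈ F := ground_mem hU hne
  obtain ⟨a, ha, hmin⟩ := exists_min_image X (fun b => (F.filter (b ∈ ·)).card) hn
  set F0 := F.filter (a ∉ ·) with hF0
  set Fa := F.filter (a ∈ ·) with hFa
  set Y := ground F0 with hY
  have hYX : Y ⊆ X := biUnion_subset_biUnion_of_subset_left _ (filter_subset _ _)
  have haY : a ∉ Y := by
    intro h
    obtain ⟨A, hA, h1⟩ := mem_biUnion.mp h
    exact (mem_filter.mp hA).2 h1
  have hC : ∀ B ∈ Fa, X \ Y ⊆ B := by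
    intro B hB b hb
    rw [mem_sdiff] at hb
    have h1 : F.filter (b ∈ ·) ⊆ Fa := by
      intro A hA
      rw [mem_filter] at hA
      refine mem_filter.mpr ⟨hA.1, ?_⟩
      by_contra h
      exact hb.2 (subset_ground (F := F0) (mem_filter.mpr ⟨hA.1, h⟩) hA.2)
    have h2 := eq_of_subset_of_card_le h1 (hmin b hb.1)
    rw [← h2] at hB
    exact (mem_filter.mp hB).2
  have hdec : ∀ B ∈ Fa, B ∩ Y ∪ X \ Y = B := by
    intro B hB
    refine subset_antisymm (union_subset inter_subset_left (hC B hB)) fun b hb => ?_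
    have : b ∈ X := subset_ground (mem_filter.mp hB).1 hb
    by_cases h : b ∈ Y <;> simp [hb, h, this]
  have hinj : Set.InjOn (fun B => B ∩ Y) (Fa : Set (Finset α)) := by
    intro A hA B hB h
    simp only at h
    rw [← hdec A hA, ← hdec B hB, h]
  have hXa : X ∈ Fa := mem_filter.mpr ⟨hXF, ha⟩
  have hg1 : ground (Fa.image (· ∩ Y)) = Y := by
    refine subset_antisymm (biUnion_subset.mpr fun A hA => ?_) ?_
    · obtain ⟨B, -, rfl⟩ := mem_image.mp hA
      exact inter_subset_right
    · exact subset_ground (mem_image.mpr ⟨X, hXa, inter_eq_right.mpr hYX⟩)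
  have hc1 : (Fa.image (· ∩ Y)).card = Fa.card := card_image_of_injOn hinj
  have hs : Y.card + (X \ Y).card = X.card := by
    rw [add_comm]; exact card_sdiff_add_card_eq_card hYX
  refine ⟨(X \ Y).card, F0, Fa.image (· ∩ Y), card_pos.mpr ⟨a, mem_sdiff.mpr ⟨ha, haY⟩⟩, ?_, ?_,
    (Nonempty.image ⟨X, hXa⟩ _), hs, by rw [hg1]; exact hs, ?_, ?_, ?_, ?_⟩
  · intro A hA B hB
    rw [hF0, mem_filter] at hA hB ⊢
    exact ⟨hU _ hA.1 _ hB.1, by simp [hA.2, hB.2]⟩
  · intro A hA B hB
    obtain ⟨A, hA', rfl⟩ := mem_image.mp hA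
    obtain ⟨B, hB', rfl⟩ := mem_image.mp hB
    rw [hFa, mem_filter] at hA' hB'
    exact mem_image.mpr ⟨A ∪ B, mem_filter.mpr ⟨hU _ hA'.1 _ hB'.1, mem_union_left _ hA'.2⟩,
      union_inter_distrib_right _ _ _⟩
  · rw [hc1, add_comm]
    exact card_filter_add_card_filter_not _
  · unfold tw
    rw [hc1, sum_image hinj, ← sum_filter_add_sum_filter_not F (a ∈ ·)]
    have : ∑ B ∈ Fa, (B.card : ℤ) = ∑ B ∈ Fa, (((B ∩ Y).card : ℤ) + (X \ Y).card) := by
      refine sum_congr rfl fun B hB => ?_
      conv_lhs => rw [← hdec B hB]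
      rw [card_union_of_disjoint (disjoint_of_subset_left inter_subset_right disjoint_sdiff)]
      push_cast; ring
    rw [this, sum_add_distrib]
    simp only [sum_const, nsmul_eq_mul]
    ring
  · unfold tw
    rw [hc1]
    have h1 : ∑ A ∈ F, (A.card : ℤ) = ∑ b ∈ X, ((F.filter (b ∈ ·)).card : ℤ) := by
      simp only [card_filter]
      push_cast
      rw [sum_comm]
      refine sum_congr rfl fun A hA => ?_
      rw [sum_ite_mem, inter_eq_right.mpr (subset_ground hA)]
      simp
    have h2 : ∑ _b ∈ X, (Fa.card : ℤ) ≤ ∑ b ∈ X, ((F.filter (b ∈ ·)).card : ℤ) :=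
      sum_le_sum fun b hb => by exact_mod_cast hmin b hb
    simp only [sum_const, nsmul_eq_mul] at h2
    rw [h1]
    linarith
  · intro h
    obtain ⟨B, hB, h1⟩ := mem_image.mp h
    refine card_le_card fun A hA => mem_image.mpr ⟨A ∪ B, ?_, ?_⟩
    · rw [hFa, mem_filter] at hB ⊢
      exact ⟨hU _ (mem_filter.mp hA).1 _ hB.1, mem_union_right _ hB.2⟩
    · rw [union_inter_distrib_right, h1, union_empty]
      exact inter_eq_left.mpr (subset_ground hA)

/-- The excess over the `j`-th chord. -/
def ex (j : ℕ) (F : Finset (Finset α)) : ℤ := tw F - line j F.card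

lemma ex_nonneg {F : Finset (Finset α)} (hU : UnionClosed F) (j : ℕ) : 0 ≤ ex j F := by
  have := chord hU j
  unfold ex; linarith

/-- The improved chord bound for large ground sets. -/
def Star (α : Type) [DecidableEq α] (j : ℕ) : Prop :=
  ∀ F : Finset (Finset α), UnionClosed F → 2 ^ j + 2 * j + 2 ≤ 4 * (ground F).card →
    2 * ((ground F).card : ℤ) - (j + 1) ≤ ex j F

lemma star_small {j : ℕ} (hj : j ≤ 3) : Star α j := by
  intro F hU hn
  have hb := tw_ge_basic hU
  have hg := tw_ge_ground hU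
  have hne : (ground F).Nonempty := by
    rw [← card_pos]
    have : 0 < 2 ^ j := by positivity
    omega
  obtain ⟨s, F0, F1, hs, U0, U1, n1, g0, g1, hc, ht, hm, he⟩ := step hU hne
  have hφ : (1 : ℤ) ≤ F1.card := by exact_mod_cast n1.card_pos
  have hc' : (F0.card : ℤ) + F1.card = F.card := by exact_mod_cast hc
  have g1' : ((ground F1).card : ℤ) + s = (ground F).card := by exact_mod_cast g1
  have hs' : (1 : ℤ) ≤ s := by exact_mod_cast hs
  have h0 : (0 : ℤ) ≤ F0.card := by positivity
  have e0 := ex_nonneg U0 j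
  have hg1 := tw_ge_ground U1
  unfold ex line at *
  interval_cases j
  · push_cast at *
    by_cases h : (F.card : ℤ) ≤ 1 <;> linarith
  · push_cast at *
    linarith
  · have hn' : (3 : ℤ) ≤ (ground F).card := by exact_mod_cast (by omega : 3 ≤ (ground F).card)
    push_cast at *
    by_cases h : ∅ ∈ F1
    · have h1 : (F0.card : ℤ) ≤ F1.card := by exact_mod_cast he h
      nlinarith
    · have := tw_ge_of_not_mem U1 h
      nlinarith
  · have hn' : (4 : ℤ) ≤ (ground F).card := by exact_mod_cast (by omega : 4 ≤ (ground F).card)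
    push_cast at *
    by_cases h : ∅ ∈ F1
    · have h1 : (F0.card : ℤ) ≤ F1.card := by exact_mod_cast he h
      nlinarith
    · have := tw_ge_of_not_mem U1 h
      nlinarith

lemma recur {j : ℕ} (ih : ∀ i, i + 2 ≤ j → Star α i) {F : Finset (Finset α)}
    (hU : UnionClosed F) (hj : 2 ≤ j) (hn : 2 ^ (j - 2) + 2 * j + 2 ≤ 4 * (ground F).card) :
    2 * ((ground F).card : ℤ) - (j + 1) ≤ ex j F ∨ ∃ (s i : ℕ) (F0 : Finset (Finset α)),
      1 ≤ s ∧ i + 2 * s = j ∧ UnionClosed F0 ∧ (ground F0).card + s = (ground F).card ∧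
      ex j F0 + 2 * ((ground F).card : ℤ) - (j + 1) - 2 ^ i ≤ ex j F := by
  have hne : (ground F).Nonempty := by
    rw [← card_pos]
    have := Nat.zero_le (2 ^ (j - 2))
    omega
  obtain ⟨s, F0, F1, hs, U0, U1, n1, g0, g1, hc, ht, -, -⟩ := step hU hne
  have hφ : (1 : ℤ) ≤ F1.card := by exact_mod_cast n1.card_pos
  have hc' : (F0.card : ℤ) + F1.card = F.card := by exact_mod_cast hc
  have g1' : ((ground F1).card : ℤ) + s = (ground F).card := by exact_mod_cast g1
  by_cases h : 2 * s ≤ j
  · obtain ⟨i, rfl⟩ := Nat.exists_eq_add_of_le h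
    refine Or.inr ⟨s, i, F0, hs, by ring, U0, g0, ?_⟩
    have h1 : 2 ^ i ≤ 2 ^ (2 * s + i - 2) := Nat.pow_le_pow_right (by omega) (by omega)
    have h2 := ih i (by omega) F1 U1 (by omega)
    unfold ex line at *
    push_cast
    nlinarith
  · left
    have e0 := ex_nonneg U0 j
    have hg1 := tw_ge_ground U1
    have h1 : (j : ℤ) + 1 ≤ 2 * s := by omega
    unfold ex line at *
    nlinarith

lemma stage {j : ℕ} (ih : ∀ i, i + 2 ≤ j → Star α i) (hj : 4 ≤ j) (n : ℕ) :
    ∀ F : Finset (Finset α), UnionClosed F → (ground F).card = n →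
      (2 : ℤ) ^ (j - 2) ≤ 2 * n - (j + 1) + 2 →
      4 * (2 * n - (j + 1)) - 2 ^ (j - 2) ≤ 4 * ex j F ∨
      (2 * n - (j + 1) - 2 ^ (j - 2)) * (2 * n - (j + 1) - 2 ^ (j - 2) + 2) ≤ 4 * ex j F := by
  induction n using Nat.strong_induction_on with
  | _ n ihn =>
    intro F hU hn h
    have e := ex_nonneg hU j
    have hQ : (0 : ℤ) < 2 ^ (j - 2) := by positivity
    by_cases hd : 2 * (n : ℤ) - (j + 1) - 2 ^ (j - 2) ≤ 0
    · right; nlinarith
    push Not at hd
    have h1 : 2 ^ (j - 2) + 2 * j + 2 ≤ 4 * (ground F).card := by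
      rw [hn]; zify; linarith
    rcases recur ih hU (by omega) h1 with h2 | ⟨s, i, F0, hs, hi, U0, g0, h2⟩
    · left; rw [hn] at h2; linarith
    · rw [hn] at h2 g0
      have e0 := ex_nonneg U0 j
      by_cases h3 : s = 1
      · subst h3
        have hi' : i = j - 2 := by omega
        subst hi'
        have g0' : ((ground F0).card : ℤ) = n - 1 := by omega
        rcases ihn _ (by omega) F0 U0 rfl (by rw [g0']; linarith) with h4 | h4
        · rw [g0'] at h4
          by_cases h5 : 2 * (n : ℤ) - (j + 1) - 2 ^ (j - 2) = 1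
          · right; rw [h5]; linarith
          · left; omega
        · rw [g0'] at h4
          right; nlinarith
      · left
        have h4 : 4 * 2 ^ i ≤ 2 ^ (j - 2) := by
          rw [show 4 * 2 ^ i = 2 ^ (i + 2) by ring]
          exact Nat.pow_le_pow_right (by omega) (by omega)
        have h5 : (4 : ℤ) * 2 ^ i ≤ 2 ^ (j - 2) := by exact_mod_cast h4
        linarith

lemma two_pow_lb {j : ℕ} (hj : 5 ≤ j) : 2 * j ≤ 2 ^ (j - 2) + 2 := by
  induction j, hj using Nat.le_induction with
  | base => norm_num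
  | succ j hj ih =>
    rw [show j + 1 - 2 = j - 2 + 1 by omega, pow_succ]
    omega

theorem star (j : ℕ) : Star α j := by
  induction j using Nat.strong_induction_on with
  | _ j ihj =>
    by_cases hj : j ≤ 3
    · exact star_small hj
    have ih : ∀ i, i + 2 ≤ j → Star α i := fun i hi => ihj i (by omega)
    intro F hU hn
    have hp : 2 ^ j = 4 * 2 ^ (j - 2) := by
      rw [show 4 * 2 ^ (j - 2) = 2 ^ (j - 2 + 2) by ring]; congr 1; omega
    rcases recur ih hU (by omega) (by omega) with h2 | ⟨s, i, F0, hs, hi, U0, g0, h2⟩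
    · exact h2
    suffices h : 2 ^ i ≤ ex j F0 by linarith
    have g0' : ((ground F0).card : ℤ) = (ground F).card - s := by omega
    rw [hp] at hn
    have hn' : 4 * (2 : ℤ) ^ (j - 2) + 2 * j + 2 ≤ 4 * (ground F).card := by exact_mod_cast hn
    have hi' : (i : ℤ) + 2 * s = j := by exact_mod_cast hi
    have hi0 : (0 : ℤ) ≤ i := by positivity
    by_cases h4 : j = 4
    · subst h4
      have hst := stage ih le_rfl _ F0 U0 rfl
      rw [g0'] at hst
      have hn7 : (7 : ℤ) ≤ (ground F).card := by omega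
      norm_num at hst
      have : s = 1 ∨ s = 2 := by omega
      rcases this with rfl | rfl
      · obtain rfl : i = 2 := by omega
        rcases hst (by omega) with h | h
        · omega
        · have : 15 ≤ 4 * ex 4 F0 := by push_cast at h; nlinarith
          omega
      · obtain rfl : i = 0 := by omega
        rcases hst (by omega) with h | h
        · omega
        · have : 3 ≤ 4 * ex 4 F0 := by push_cast at h; nlinarith
          omega
    have hj5 : 5 ≤ j := by omega
    have hj5' : (5 : ℤ) ≤ j := by exact_mod_cast hj5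
    have hl : 2 * (j : ℤ) ≤ 2 ^ (j - 2) + 2 := by exact_mod_cast two_pow_lb hj5
    have hst := stage ih (by omega) _ F0 U0 rfl (by rw [g0']; linarith)
    rw [g0'] at hst
    by_cases h3 : s = 1
    · subst h3
      obtain rfl : i = j - 2 := by omega
      push_cast at hst
      rcases hst with h | h
      · linarith
      · nlinarith
    · have h5 : 4 * 2 ^ i ≤ 2 ^ (j - 2) := by
        rw [show 4 * 2 ^ i = 2 ^ (i + 2) by ring]
        exact Nat.pow_le_pow_right (by omega) (by omega)
      have h6 : (4 : ℤ) * 2 ^ i ≤ 2 ^ (j - 2) := by exact_mod_cast h5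
      rcases hst with h | h
      · linarith
      · set Q : ℤ := 2 ^ (j - 2)
        set d : ℤ := 2 * ((ground F).card - s) - (j + 1) - Q with hd
        have h7 : Q - j ≤ d := by linarith
        have h8 : 3 ≤ d := by linarith
        nlinarith

end Pool.Agent.H391Z.UC
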