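import Pool.Agent.H391Z.UcB

set_option autoImplicit false
open Finset

namespace Pool.Agent.H391Z.UC

variable {α : Type} [DecidableEq α]

/-- The density of a family: total size divided by `n |F|`, `n` the size of the union. -/
noncomputable def density (F : Finset (Finset α)) : ℝ :=
  (∑ A ∈ F, (A.card : ℝ)) / (((ground F).card : ℝ) * F.card)

/-- All subsets of `{1, …, k}` together with `{1, …, n}`. -/
def wfam (n k : ℕ) : Finset (Finset ℕ) := insert (Finset.Icc 1 n) (Finset.Icc 1 k).powerset

lemma sum_powerset_card (s : Finset α) :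
    2 * ∑ A ∈ s.powerset, (A.card : ℝ) = s.card * 2 ^ s.card := by
  induction s using Finset.induction_on with
  | empty => simp
  | insert a s ha ih =>
    rw [sum_powerset_insert ha, card_insert_of_notMem ha]
    have : ∑ A ∈ s.powerset, ((insert a A).card : ℝ) = ∑ A ∈ s.powerset, ((A.card : ℝ) + 1) := by
      refine sum_congr rfl fun A hA => ?_
      rw [card_insert_of_notMem fun h => ha (mem_powerset.mp hA h)]
      push_cast; ring
    rw [this, sum_add_distrib]
    simp only [sum_const, card_powerset, nsmul_eq_mul]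
    push_cast
    rw [pow_succ]
    linarith

lemma wfam_sub {n k : ℕ} (h : k < n) {A : Finset ℕ} (hA : A ∈ wfam n k) : A ⊆ Finset.Icc 1 n := by
  rcases mem_insert.mp hA with rfl | hA
  · exact subset_rfl
  · exact (mem_powerset.mp hA).trans (Icc_subset_Icc_right h.le)

lemma wfam_uc {n k : ℕ} (h : k < n) : UnionClosed (wfam n k) := by
  intro A hA B hB
  rcases mem_insert.mp hA with rfl | hA'
  · rw [union_eq_left.mpr (wfam_sub h hB)]; exact hA
  · rcases mem_insert.mp hB with rfl | hB'
    · rw [union_eq_right.mpr (wfam_sub h hA)]; exact hB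
    · exact mem_insert_of_mem (mem_powerset.mpr
        (union_subset (mem_powerset.mp hA') (mem_powerset.mp hB')))

lemma wfam_ground {n k : ℕ} (h : k < n) : (ground (wfam n k)).card = n := by
  have : ground (wfam n k) = Finset.Icc 1 n :=
    subset_antisymm (biUnion_subset.mpr fun A hA => wfam_sub h hA)
      (subset_ground (mem_insert_self _ _))
  rw [this]; simp

lemma wfam_density {n k : ℕ} (h : k < n) :
    density (wfam n k) = (k * 2 ^ k + 2 * n) / (2 * (n * (2 ^ k + 1))) := by
  have h1 : Finset.Icc 1 n ∉ (Finset.Icc 1 k).powerset := by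
    intro h1
    have := card_le_card (mem_powerset.mp h1)
    simp at this
    omega
  have h2 := sum_powerset_card (Finset.Icc 1 k)
  unfold density
  rw [wfam_ground h]
  unfold wfam
  rw [sum_insert h1, card_insert_of_notMem h1, card_powerset]
  simp only [Nat.card_Icc, Nat.add_sub_cancel] at h2 ⊢
  have hn : (0 : ℝ) < n := by exact_mod_cast (by omega : 0 < n)
  push_cast
  rw [div_eq_div_iff (by positivity) (by positivity)]
  rw [← h2]; ring

lemma density_ge {F : Finset (Finset α)} (hne : F.Nonempty) {n k : ℕ}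
    (hn : (ground F).card = n) (h : k < n)
    (h1 : 2 * (n : ℤ) - (k + 1) ≤ ex k F) (h2 : 2 * (n : ℤ) - ((k + 1 : ℕ) + 1) ≤ ex (k + 1) F)
    (h3 : 2 ^ k + k + 1 ≤ 2 * n) (h4 : 2 * n ≤ 2 ^ (k + 1) + k + 2) :
    density (wfam n k) ≤ density F := by
  rw [wfam_density h]
  unfold density
  rw [hn]
  have hn' : (0 : ℝ) < n := by exact_mod_cast (by omega : 0 < n)
  have hm : (0 : ℝ) < F.card := by exact_mod_cast hne.card_pos
  rw [div_le_div_iff₀ (by positivity) (by positivity)]
  have key : ((k : ℤ) * 2 ^ k + 2 * n) * F.card ≤ tw F * (2 ^ k + 1) := by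
    have h3' : (2 : ℤ) ^ k + k + 1 ≤ 2 * n := by exact_mod_cast h3
    have h4' : 2 * (n : ℤ) ≤ 2 ^ (k + 1) + k + 2 := by exact_mod_cast h4
    have hP : (0 : ℤ) < 2 ^ k := by positivity
    unfold ex line at h1 h2
    push_cast at h2
    rw [pow_succ] at h2 h4'
    set P : ℤ := 2 ^ k
    by_cases hx : (F.card : ℤ) ≤ P + 1
    · have a1 : (2 * n + k * P + (k + 1) * (F.card - 1 - P)) * (P + 1) ≤ tw F * (P + 1) :=
        mul_le_mul_of_nonneg_right (by linarith) (by linarith)
      nlinarith [mul_nonneg (sub_nonneg.mpr hx) (sub_nonneg.mpr h3')]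
    · have hx' : P + 1 ≤ (F.card : ℤ) := by linarith
      have a1 : (2 * n + k * P + (k + 2) * (F.card - 1 - P)) * (P + 1) ≤ tw F * (P + 1) :=
        mul_le_mul_of_nonneg_right (by linarith) (by linarith)
      nlinarith [mul_nonneg (sub_nonneg.mpr hx') (sub_nonneg.mpr h4')]
  unfold tw at key
  have key' : ((k : ℝ) * 2 ^ k + 2 * n) * F.card ≤ 2 * (∑ A ∈ F, (A.card : ℝ)) * (2 ^ k + 1) := by
    exact_mod_cast key
  nlinarith [mul_le_mul_of_nonneg_left key' hn'.le]

lemma clog_lt {n : ℕ} (hn : 1 ≤ n) : Nat.clog 2 n < n := by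
  have : Nat.clog 2 n ≤ n - 1 := by
    apply Nat.clog_le_of_le_pow
    have := @Nat.lt_two_pow_self (n - 1)
    omega
  omega

theorem lower {F : Finset (Finset α)} (hne : F.Nonempty) (hU : UnionClosed F) {n : ℕ}
    (hn : (ground F).card = n) (h1 : 1 ≤ n) :
    min (density (wfam n (Nat.log 2 n))) (density (wfam n (Nat.clog 2 n))) ≤ density F := by
  have s0 : ∀ j ≤ 1, 2 * (n : ℤ) - (j + 1 : ℕ) ≤ ex j F := by
    intro j hj
    have a1 := tw_ge_basic hU
    have a2 := tw_ge_ground hU
    rw [hn] at a1 a2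
    unfold ex line
    interval_cases j
    · push_cast
      by_cases h : (F.card : ℤ) ≤ 1 <;> linarith
    · push_cast; linarith
  by_cases h2 : n ≤ 2
  · have a1 := density_ge (k := 0) hne hn (by omega) (by simpa using s0 0 (by omega))
      (by simpa using s0 1 le_rfl) (by omega) (by omega)
    refine (min_le_left _ _).trans (le_trans (le_of_eq ?_) a1)
    interval_cases n
    · simp
    · rw [show Nat.log 2 2 = 1 by norm_num, wfam_density (by norm_num),
        wfam_density (by norm_num)]
      norm_num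
  have a1 := Nat.pow_log_le_self 2 (show n ≠ 0 by omega)
  have a2 := Nat.lt_pow_succ_log_self (b := 2) (by norm_num) n
  have a0 : Nat.log 2 n < n := Nat.log_lt_self 2 (by omega)
  set a := Nat.log 2 n with ha
  have a3 : a + 1 ≤ 2 ^ a := Nat.lt_two_pow_self
  rw [Nat.succ_eq_add_one, pow_succ] at a2
  by_cases h3 : 2 * n ≤ 2 ^ (a + 1) + a + 2
  · refine (min_le_left _ _).trans ?_
    have a4 : 2 ^ a + a + 2 ≤ 2 * n := by
      by_cases h4 : a ≤ 1
      · interval_cases a <;> omega
      · have : a + 2 ≤ 2 ^ a := by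
          obtain ⟨b, hb⟩ : ∃ b, a = b + 1 := ⟨a - 1, by omega⟩
          have := @Nat.lt_two_pow_self b
          rw [hb, pow_succ]; omega
        omega
    have b1 := star (α := α) a F hU (by rw [hn]; omega)
    have b2 := star (α := α) (a + 1) F hU (by rw [hn, pow_succ]; omega)
    rw [hn] at b1 b2
    exact density_ge hne hn a0 b1 b2 (by omega) h3
  · refine (min_le_right _ _).trans ?_
    rw [pow_succ] at h3
    have a4 : Nat.clog 2 n = a + 1 := by
      apply le_antisymm
      · exact Nat.clog_le_of_le_pow (by rw [pow_succ]; omega)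
      · exact (Nat.lt_clog_iff_pow_lt (by norm_num)).mpr (by omega)
    have a5 := clog_lt h1
    rw [a4] at a5 ⊢
    have b1 := star (α := α) (a + 1) F hU (by rw [hn, pow_succ]; omega)
    have b2 := star (α := α) (a + 1 + 1) F hU (by rw [hn, pow_succ, pow_succ]; omega)
    rw [hn] at b1 b2
    exact density_ge hne hn a5 b1 b2 (by rw [pow_succ]; omega)
      (by rw [pow_succ, pow_succ]; omega)

end Pool.Agent.H391Z.UC
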